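import Mathlib

/-!
# Rook domination on the triangular board: the dual certificate

`Tri M X` : three sets of naturals `≤ M` containing `0` (the unused lines, shifted) such that `M` is
not a sum of one element of each.  From a covering set of rooks we get such a triple, the numbers
`a i` of lines before the first unused line, and the inequalities `CertIneq` for all `b ≥ e ≥ 0`.
-/

namespace Pool.Agent.LibA338c1f

/-- The triples of shifted sets of unused lines. -/
structure Tri (M : ℕ) (X : Fin 3 → Finset ℕ) : Prop where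
  zero : ∀ i, 0 ∈ X i
  le : ∀ i, ∀ x ∈ X i, x ≤ M
  free : ∀ x ∈ X 0, ∀ y ∈ X 1, ∀ z ∈ X 2, x + y + z ≠ M

/-- Indicator of the used normal lines. -/
def uu (M : ℕ) (X : Fin 3 → Finset ℕ) (i : Fin 3) (g : ℕ) : ℚ :=
  if g ≤ M ∧ g ∉ X i then 1 else 0

/-- Half of the number of the other two directions in which line `j` is used. -/
def mm (M : ℕ) (X : Fin 3 → Finset ℕ) (i : Fin 3) (j : ℕ) : ℚ :=
  (uu M X (i + 1) j + uu M X (i + 2) j) / 2

/-- The number of used normal lines minus `3 (M + 1) / 2`. -/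
def VV (M : ℕ) (X : Fin 3 → Finset ℕ) : ℚ :=
  (∑ i, ∑ g ∈ Finset.range (M + 1), uu M X i g) - 3 * (M + 1) / 2

/-- First moment of the used normal lines. -/
def PP (M : ℕ) (X : Fin 3 → Finset ℕ) : ℚ :=
  ∑ i, ∑ g ∈ Finset.range (M + 1), uu M X i g * ((M : ℚ) - g)

/-- The loss of the certificate on the small lines. -/
def JJ (M : ℕ) (X : Fin 3 → Finset ℕ) (a : Fin 3 → ℕ) (b e : ℚ) : ℚ :=
  ∑ i, ∑ j ∈ Finset.Icc 1 (a i),
    (max (b - j) 0 * mm M X i j + max (e - j) 0 * (1 - mm M X i j))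

/-- The certificate inequality for `k` rooks. -/
def CertIneq (k M : ℕ) (X : Fin 3 → Finset ℕ) (a : Fin 3 → ℕ) (b e : ℚ) : Prop :=
  3 * b * (M + 1) + PP M X + 2 * e * VV M X + (∑ i, (a i : ℚ)) * (M + 3 * b) - JJ M X a b e ≤
    2 * (M + 3 * b) * k

variable {M : ℕ} {X : Fin 3 → Finset ℕ}

theorem uu_nonneg (i : Fin 3) (g : ℕ) : 0 ≤ uu M X i g := by
  unfold uu; split_ifs <;> norm_num

theorem uu_le_one (i : Fin 3) (g : ℕ) : uu M X i g ≤ 1 := by
  unfold uu; split_ifs <;> norm_num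

theorem uu_eq (i : Fin 3) (g : ℕ) : uu M X i g = 0 ∨ uu M X i g = 1 := by
  unfold uu; split_ifs
  · right; rfl
  · left; rfl

theorem uu_eq_zero {i : Fin 3} {g : ℕ} (hg : g ≤ M) (h : uu M X i g ≠ 1) : g ∈ X i := by
  by_contra hn
  exact h (by unfold uu; rw [if_pos ⟨hg, hn⟩])

theorem mm_nonneg (i : Fin 3) (j : ℕ) : 0 ≤ mm M X i j := by
  have h1 := uu_nonneg (M := M) (X := X) (i + 1) j
  have h2 := uu_nonneg (M := M) (X := X) (i + 2) j
  unfold mm; linarith

theorem mm_le_one (i : Fin 3) (j : ℕ) : mm M X i j ≤ 1 := by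
  have h1 := uu_le_one (M := M) (X := X) (i + 1) j
  have h2 := uu_le_one (M := M) (X := X) (i + 2) j
  unfold mm; linarith

theorem Tri.free' (h : Tri M X) (i : Fin 3) {x y z : ℕ} (hx : x ∈ X i) (hy : y ∈ X (i + 1))
    (hz : z ∈ X (i + 2)) : x + y + z ≠ M := by
  fin_cases i
  · exact h.free x hx y hy z hz
  · intro hs
    exact h.free z hz x hx y hy (by omega)
  · intro hs
    exact h.free y hy z hz x hx (by omega)

/-- Two complementary lines in different directions are not both unused. -/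
theorem Tri.pair (h : Tri M X) {i k : Fin 3} (hik : i ≠ k) {x y : ℕ} (hx : x ∈ X i) (hy : y ∈ X k) :
    x + y ≠ M := by
  intro hs
  have h0 := h.zero
  have hall : ∀ i k : Fin 3, i ≠ k → k = i + 1 ∨ k = i + 2 := by decide
  rcases hall i k hik with rfl | rfl
  · exact h.free' i hx hy (h0 _) (by omega)
  · exact h.free' i hx (h0 _) hy (by omega)

/-- The weights (scaled by `2 (M + 3 b)`); `d` is the shifted coordinate. -/
def wt (M : ℕ) (X : Fin 3 → Finset ℕ) (b e : ℚ) (i : Fin 3) (d : ℤ) : ℚ :=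
  if d < 0 then
    (M + 3 * b) - max (b - (-d).toNat) 0 * mm M X i (-d).toNat -
      max (e - (-d).toNat) 0 * (1 - mm M X i (-d).toNat)
  else if d ≤ M then
    M + 2 * b - d.toNat - (b - e) * mm M X i (M - d.toNat)
  else 0

theorem wt_neg (b e : ℚ) (i : Fin 3) (j : ℕ) (hj : 0 < j) :
    wt M X b e i (-(j : ℤ)) = (M + 3 * b) - max (b - j) 0 * mm M X i j -
      max (e - j) 0 * (1 - mm M X i j) := by
  unfold wt
  rw [if_pos (by omega)]
  have : (-(-(j : ℤ))).toNat = j := by omega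
  rw [this]

theorem wt_nat (b e : ℚ) (i : Fin 3) (g : ℕ) (hg : g ≤ M) :
    wt M X b e i (g : ℤ) = M + 2 * b - g - (b - e) * mm M X i (M - g) := by
  unfold wt
  rw [if_neg (by omega), if_pos (by omega)]
  have : ((g : ℤ)).toNat = g := by omega
  rw [this]

theorem wt_big (b e : ℚ) (i : Fin 3) (d : ℤ) (hd : (M : ℤ) < d) : wt M X b e i d = 0 := by
  unfold wt
  rw [if_neg (by omega), if_neg (by omega)]

theorem wt_neg_le {b e : ℚ} (i : Fin 3) (d : ℤ) (hd : d < 0) :
    wt M X b e i d ≤ M + 3 * b := by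
  unfold wt
  rw [if_pos hd]
  have h1 := mm_nonneg (M := M) (X := X) i (-d).toNat
  have h2 := mm_le_one (M := M) (X := X) i (-d).toNat
  have h3 : 0 ≤ max (b - (-d).toNat) 0 * mm M X i (-d).toNat :=
    mul_nonneg (le_max_right _ _) h1
  have h4 : 0 ≤ max (e - (-d).toNat) 0 * (1 - mm M X i (-d).toNat) :=
    mul_nonneg (le_max_right _ _) (by linarith)
  linarith

theorem wt_nonneg_le {b e : ℚ} (he : 0 ≤ e) (heb : e ≤ b) (i : Fin 3) (d : ℤ) (hd : 0 ≤ d) :
    wt M X b e i d ≤ M + 2 * b := by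
  have hM : (0 : ℚ) ≤ M := Nat.cast_nonneg M
  rcases le_or_gt d M with h | h
  · obtain ⟨g, rfl⟩ := Int.eq_ofNat_of_zero_le hd
    rw [wt_nat b e i g (by omega)]
    have h1 := mm_nonneg (M := M) (X := X) i (M - g)
    have h3 : 0 ≤ (b - e) * mm M X i (M - g) := mul_nonneg (by linarith) h1
    have h4 : (0 : ℚ) ≤ g := Nat.cast_nonneg g
    linarith
  · rw [wt_big b e i d h]; linarith

theorem wt_nonneg {b e : ℚ} (he : 0 ≤ e) (heb : e ≤ b) (i : Fin 3) (d : ℤ) :
    0 ≤ wt M X b e i d := by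
  have hM : (0 : ℚ) ≤ M := Nat.cast_nonneg M
  rcases lt_or_ge d 0 with h | h
  · unfold wt
    rw [if_pos h]
    set j := (-d).toNat
    have h1 := mm_nonneg (M := M) (X := X) i j
    have h2 := mm_le_one (M := M) (X := X) i j
    have hj : (0 : ℚ) ≤ j := Nat.cast_nonneg j
    have h3 : max (b - j) 0 ≤ b := max_le (by linarith) (by linarith)
    have h4 : max (e - j) 0 ≤ b := max_le (by linarith) (by linarith)
    have h5 : max (b - j) 0 * mm M X i j ≤ b * mm M X i j := mul_le_mul_of_nonneg_right h3 h1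
    have h6 : max (e - j) 0 * (1 - mm M X i j) ≤ b * (1 - mm M X i j) :=
      mul_le_mul_of_nonneg_right h4 (by linarith)
    have : b * mm M X i j + b * (1 - mm M X i j) = b := by ring
    linarith
  · rcases le_or_gt d M with h' | h'
    · obtain ⟨g, rfl⟩ := Int.eq_ofNat_of_zero_le h
      rw [wt_nat b e i g (by omega)]
      have h1 := mm_le_one (M := M) (X := X) i (M - g)
      have h3 : (b - e) * mm M X i (M - g) ≤ (b - e) * 1 :=
        mul_le_mul_of_nonneg_left h1 (by linarith)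
      have h4 : (g : ℚ) ≤ M := by exact_mod_cast (by omega : g ≤ M)
      linarith
    · rw [wt_big b e i d h']

/-- The three weights of a rook with exactly one small coordinate and two normal ones. -/
theorem wt_J (h : Tri M X) {b e : ℚ} (heb : e ≤ b) (i : Fin 3) (j y z : ℕ)
    (hj : 0 < j) (hy : y ≤ M) (hz : z ≤ M) (hs : y + z = M + j) :
    wt M X b e i (-(j : ℤ)) + wt M X b e (i + 1) (y : ℤ) + wt M X b e (i + 2) (z : ℤ) ≤
      2 * (M + 3 * b) := by
  rw [wt_neg b e i j hj, wt_nat b e (i + 1) y hy, wt_nat b e (i + 2) z hz]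
  have e1 : i + 1 + 1 = i + 2 := by revert i; decide
  have e2 : i + 1 + 2 = i := by revert i; decide
  have e3 : i + 2 + 1 = i := by revert i; decide
  have e4 : i + 2 + 2 = i + 1 := by revert i; decide
  have hjM : j ≤ M := by omega
  -- the two disjoint constraints
  have c1 : uu M X (i + 1) j = 1 ∨ uu M X (i + 2) (M - y) = 1 ∨ uu M X i (M - z) = 1 := by
    by_contra hcon
    push Not at hcon
    obtain ⟨k1, k2, k3⟩ := hcon
    exact h.free' i (uu_eq_zero (by omega) k3) (uu_eq_zero hjM k1) (uu_eq_zero (by omega) k2)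
      (by omega)
  have c2 : uu M X (i + 2) j = 1 ∨ uu M X i (M - y) = 1 ∨ uu M X (i + 1) (M - z) = 1 := by
    by_contra hcon
    push Not at hcon
    obtain ⟨k1, k2, k3⟩ := hcon
    exact h.free' i (uu_eq_zero (by omega) k2) (uu_eq_zero (by omega) k3) (uu_eq_zero hjM k1)
      (by omega)
  unfold mm
  rw [e1, e2, e3, e4]
  have hyz : (y : ℚ) + z = M + j := by exact_mod_cast hs
  have hj1 : (0 : ℚ) ≤ j := Nat.cast_nonneg j
  have m1 : b - j ≤ max (b - j) 0 := le_max_left _ _
  have m2 : 0 ≤ max (b - (j : ℚ)) 0 := le_max_right _ _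
  have m3 : e - j ≤ max (e - j) 0 := le_max_left _ _
  have m4 : 0 ≤ max (e - (j : ℚ)) 0 := le_max_right _ _
  generalize max (b - (j : ℚ)) 0 = B at *
  generalize max (e - (j : ℚ)) 0 = E at *
  have hbe : 0 ≤ b - e := by linarith
  have n1 := uu_nonneg (M := M) (X := X) (i + 2) (M - y)
  have n2 := uu_nonneg (M := M) (X := X) i (M - y)
  have n3 := uu_nonneg (M := M) (X := X) i (M - z)
  have n4 := uu_nonneg (M := M) (X := X) (i + 1) (M - z)
  -- reduce to the key inequality
  have key : b - j ≤ B * ((uu M X (i + 1) j + uu M X (i + 2) j) / 2) +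
      E * (1 - (uu M X (i + 1) j + uu M X (i + 2) j) / 2) +
      (b - e) * ((uu M X (i + 2) (M - y) + uu M X i (M - y)) / 2) +
      (b - e) * ((uu M X i (M - z) + uu M X (i + 1) (M - z)) / 2) := by
    generalize uu M X (i + 2) (M - y) = p2 at *
    generalize uu M X i (M - y) = p0 at *
    generalize uu M X i (M - z) = q0 at *
    generalize uu M X (i + 1) (M - z) = q1 at *
    have s1 : uu M X (i + 1) j = 1 ∨ 1 ≤ p2 + q0 := by
      rcases c1 with h1 | h1 | h1
      · exact Or.inl h1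
      · right; rw [h1]; linarith
      · right; rw [h1]; linarith
    have s2 : uu M X (i + 2) j = 1 ∨ 1 ≤ p0 + q1 := by
      rcases c2 with h1 | h1 | h1
      · exact Or.inl h1
      · right; rw [h1]; linarith
      · right; rw [h1]; linarith
    have t1 : (b - e) * (p2 + q0) ≥ 0 := mul_nonneg hbe (by linarith)
    have t2 : (b - e) * (p0 + q1) ≥ 0 := mul_nonneg hbe (by linarith)
    have r1 : uu M X (i + 1) j ≠ 1 → (b - e) ≤ (b - e) * (p2 + q0) := by
      intro hn
      have := s1.resolve_left hn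
      nlinarith
    have r2 : uu M X (i + 2) j ≠ 1 → (b - e) ≤ (b - e) * (p0 + q1) := by
      intro hn
      have := s2.resolve_left hn
      nlinarith
    rcases uu_eq (M := M) (X := X) (i + 1) j with h1 | h1 <;>
      rcases uu_eq (M := M) (X := X) (i + 2) j with h2 | h2
    · have r1' := r1 (by rw [h1]; norm_num)
      have r2' := r2 (by rw [h2]; norm_num)
      rw [h1, h2]
      nlinarith
    · have r1' := r1 (by rw [h1]; norm_num)
      rw [h1, h2]
      nlinarith
    · have r2' := r2 (by rw [h2]; norm_num)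
      rw [h1, h2]
      nlinarith
    · rw [h1, h2]
      nlinarith
  linarith

theorem rook_neg (h : Tri M X) {b e : ℚ} (he : 0 ≤ e) (heb : e ≤ b) (d : Fin 3 → ℤ) (i : Fin 3)
    (hs : d i + d (i + 1) + d (i + 2) = M) (hi : d i < 0) :
    wt M X b e i (d i) + wt M X b e (i + 1) (d (i + 1)) + wt M X b e (i + 2) (d (i + 2)) ≤
      2 * (M + 3 * b) := by
  have hM : (0 : ℚ) ≤ M := Nat.cast_nonneg M
  have w0 := wt_neg_le (M := M) (X := X) (b := b) (e := e) i (d i) hi
  rcases lt_or_ge (d (i + 1)) 0 with h1 | h1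
  · have w1 := wt_neg_le (M := M) (X := X) (b := b) (e := e) (i + 1) _ h1
    have w2 := wt_big (M := M) (X := X) b e (i + 2) (d (i + 2)) (by omega)
    linarith
  rcases lt_or_ge (d (i + 2)) 0 with h2 | h2
  · have w1 := wt_neg_le (M := M) (X := X) (b := b) (e := e) (i + 2) _ h2
    have w2 := wt_big (M := M) (X := X) b e (i + 1) (d (i + 1)) (by omega)
    linarith
  have w1 := wt_nonneg_le (M := M) (X := X) he heb (i + 1) _ h1
  have w2 := wt_nonneg_le (M := M) (X := X) he heb (i + 2) _ h2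
  rcases le_or_gt (d (i + 1)) M with h3 | h3
  · rcases le_or_gt (d (i + 2)) M with h4 | h4
    · obtain ⟨y, hy⟩ := Int.eq_ofNat_of_zero_le h1
      obtain ⟨z, hz⟩ := Int.eq_ofNat_of_zero_le h2
      obtain ⟨j, hj⟩ := Int.eq_ofNat_of_zero_le (show 0 ≤ -(d i) by omega)
      have hdi : d i = -(j : ℤ) := by omega
      rw [hdi, hy, hz]
      exact wt_J h heb i j y z (by omega) (by omega) (by omega) (by omega)
    · have w3 := wt_big (M := M) (X := X) b e (i + 2) (d (i + 2)) h4
      linarith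
  · have w3 := wt_big (M := M) (X := X) b e (i + 1) (d (i + 1)) h3
    linarith

theorem rook_pos {b e : ℚ} (heb : e ≤ b) (d : Fin 3 → ℤ) (i : Fin 3)
    (hs : d i + d (i + 1) + d (i + 2) = M) (h0 : 0 ≤ d i) (h1 : 0 ≤ d (i + 1))
    (h2 : 0 ≤ d (i + 2)) :
    wt M X b e i (d i) + wt M X b e (i + 1) (d (i + 1)) + wt M X b e (i + 2) (d (i + 2)) ≤
      2 * (M + 3 * b) := by
  obtain ⟨x, hx⟩ := Int.eq_ofNat_of_zero_le h0
  obtain ⟨y, hy⟩ := Int.eq_ofNat_of_zero_le h1
  obtain ⟨z, hz⟩ := Int.eq_ofNat_of_zero_le h2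
  have hs' : x + y + z = M := by rw [hx, hy, hz] at hs; omega
  rw [hx, hy, hz]
  rw [wt_nat b e i x (by omega), wt_nat b e (i + 1) y (by omega), wt_nat b e (i + 2) z (by omega)]
  have hq : (x : ℚ) + y + z = M := by exact_mod_cast hs'
  have hbe : 0 ≤ b - e := by linarith
  have m0 := mul_nonneg hbe (mm_nonneg (M := M) (X := X) i (M - x))
  have m1 := mul_nonneg hbe (mm_nonneg (M := M) (X := X) (i + 1) (M - y))
  have m2 := mul_nonneg hbe (mm_nonneg (M := M) (X := X) (i + 2) (M - z))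
  linarith

theorem rook_le (h : Tri M X) {b e : ℚ} (he : 0 ≤ e) (heb : e ≤ b) (d : Fin 3 → ℤ)
    (hs : ∑ i, d i = M) : ∑ i, wt M X b e i (d i) ≤ 2 * (M + 3 * b) := by
  rw [Fin.sum_univ_three] at hs ⊢
  have a1 : (0 : Fin 3) + 1 = 1 := rfl
  have a2 : (0 : Fin 3) + 2 = 2 := rfl
  have b1 : (1 : Fin 3) + 1 = 2 := rfl
  have b2 : (1 : Fin 3) + 2 = 0 := rfl
  have c1 : (2 : Fin 3) + 1 = 0 := rfl
  have c2 : (2 : Fin 3) + 2 = 1 := rfl
  rcases lt_or_ge (d 0) 0 with h0 | h0
  · have := rook_neg h he heb d 0 (by rw [a1, a2]; exact hs) h0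
    rw [a1, a2] at this; linarith
  rcases lt_or_ge (d 1) 0 with h1 | h1
  · have := rook_neg h he heb d 1 (by rw [b1, b2]; linarith) h1
    rw [b1, b2] at this; linarith
  rcases lt_or_ge (d 2) 0 with h2 | h2
  · have := rook_neg h he heb d 2 (by rw [c1, c2]; linarith) h2
    rw [c1, c2] at this; linarith
  have := rook_pos (M := M) (X := X) heb d 0 (by rw [a1, a2]; exact hs) h0 h1 h2
  rw [a1, a2] at this; linarith

/-- The sum of the weights over the used lines of one direction. -/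
theorem line_sum {ι : Type*} (S : Finset ι) (c : ι → ℕ) (w : ℤ → ℚ) (hw : ∀ d, 0 ≤ w d)
    (a M : ℕ) (Y : Finset ℕ) (ha : ∀ l < a, ∃ q ∈ S, c q = l)
    (hY : ∀ g ≤ M, g ∉ Y → ∃ q ∈ S, c q = a + g) :
    (∑ j ∈ Finset.Icc 1 a, w (-(j : ℤ))) +
      (∑ g ∈ (Finset.range (M + 1)).filter (fun g => g ∉ Y), w (g : ℤ)) ≤
      ∑ q ∈ S, w ((c q : ℤ) - a) := by
  classical
  have h1 : ∑ q ∈ S, w ((c q : ℤ) - a) =
      ∑ l ∈ S.image c, (S.filter (fun q => c q = l)).card • w ((l : ℤ) - a) :=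
    Finset.sum_comp (fun l : ℕ => w ((l : ℤ) - a)) c
  have h2 : ∑ l ∈ S.image c, w ((l : ℤ) - a) ≤
      ∑ l ∈ S.image c, (S.filter (fun q => c q = l)).card • w ((l : ℤ) - a) := by
    refine Finset.sum_le_sum fun l hl => ?_
    obtain ⟨q, hq, rfl⟩ := Finset.mem_image.1 hl
    have hpos : 1 ≤ (S.filter (fun q' => c q' = c q)).card :=
      Finset.card_pos.2 ⟨q, Finset.mem_filter.2 ⟨hq, rfl⟩⟩
    rw [nsmul_eq_mul]
    have : (1 : ℚ) ≤ ((S.filter (fun q' => c q' = c q)).card : ℚ) := by exact_mod_cast hpos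
    have := mul_le_mul_of_nonneg_right this (hw ((c q : ℤ) - a))
    linarith
  have h3 : (Finset.range a ∪ ((Finset.range (M + 1)).filter (fun g => g ∉ Y)).image (fun g => a + g))
      ⊆ S.image c := by
    intro l hl
    rcases Finset.mem_union.1 hl with hl | hl
    · obtain ⟨q, hq, hql⟩ := ha l (Finset.mem_range.1 hl)
      exact Finset.mem_image.2 ⟨q, hq, hql⟩
    · obtain ⟨g, hg, rfl⟩ := Finset.mem_image.1 hl
      obtain ⟨hg1, hg2⟩ := Finset.mem_filter.1 hg
      obtain ⟨q, hq, hql⟩ := hY g (by have := Finset.mem_range.1 hg1; omega) hg2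
      exact Finset.mem_image.2 ⟨q, hq, hql⟩
  have h4 := Finset.sum_le_sum_of_subset_of_nonneg (f := fun l : ℕ => w ((l : ℤ) - a)) h3
    (fun l _ _ => hw _)
  have hdisj : Disjoint (Finset.range a)
      (((Finset.range (M + 1)).filter (fun g => g ∉ Y)).image (fun g => a + g)) := by
    rw [Finset.disjoint_left]
    intro l hl hl'
    obtain ⟨g, _, rfl⟩ := Finset.mem_image.1 hl'
    have := Finset.mem_range.1 hl
    omega
  rw [Finset.sum_union hdisj, Finset.sum_image (by intro x _ y _ hxy; exact add_left_cancel hxy)] at h4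
  have h5 : ∑ l ∈ Finset.range a, w ((l : ℤ) - a) = ∑ j ∈ Finset.Icc 1 a, w (-(j : ℤ)) := by
    refine Finset.sum_nbij' (fun l => a - l) (fun j => a - j) ?_ ?_ ?_ ?_ ?_
    · intro l hl
      have := Finset.mem_range.1 hl
      show a - l ∈ Finset.Icc 1 a
      rw [Finset.mem_Icc]; omega
    · intro j hj
      have := Finset.mem_Icc.1 hj
      show a - j ∈ Finset.range a
      rw [Finset.mem_range]; omega
    · intro l hl
      have := Finset.mem_range.1 hl
      show a - (a - l) = l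
      omega
    · intro j hj
      have := Finset.mem_Icc.1 hj
      show a - (a - j) = j
      omega
    · intro l hl
      have := Finset.mem_range.1 hl
      show w ((l : ℤ) - a) = w (-((a - l : ℕ) : ℤ))
      congr 1
      omega
  have h6 : ∀ g : ℕ, w (((a + g : ℕ) : ℤ) - a) = w (g : ℤ) := by
    intro g; congr 1; push_cast; ring
  simp only [h6] at h4
  rw [h5] at h4
  rw [h1]
  linarith

theorem sum_uu_mm (h : Tri M X) :
    ∑ i, ∑ g ∈ Finset.range (M + 1), uu M X i g * mm M X i (M - g) = 2 * VV M X := by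
  have key : ∀ i k : Fin 3, i ≠ k →
      ∑ g ∈ Finset.range (M + 1), uu M X i g * uu M X k (M - g) =
        (∑ g ∈ Finset.range (M + 1), uu M X i g) + (∑ g ∈ Finset.range (M + 1), uu M X k g) -
          (M + 1) := by
    intro i k hik
    have h1 : ∀ g ∈ Finset.range (M + 1), uu M X i g * uu M X k (M - g) =
        uu M X i g + uu M X k (M - g) - 1 := by
      intro g hg
      have hg' := Finset.mem_range.1 hg
      have : uu M X i g = 1 ∨ uu M X k (M - g) = 1 := by
        by_contra hcon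
        push Not at hcon
        exact h.pair hik (uu_eq_zero (by omega) hcon.1) (uu_eq_zero (by omega) hcon.2) (by omega)
      rcases this with h2 | h2 <;> rw [h2] <;> ring
    rw [Finset.sum_congr rfl h1, Finset.sum_sub_distrib, Finset.sum_add_distrib]
    have h3 : ∑ g ∈ Finset.range (M + 1), uu M X k (M - g) =
        ∑ g ∈ Finset.range (M + 1), uu M X k g := by
      have := Finset.sum_range_reflect (fun g => uu M X k g) (M + 1)
      rw [← this]
      refine Finset.sum_congr rfl fun g hg => ?_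
      congr 1
    rw [h3]
    simp
  have hsplit : ∀ i : Fin 3, ∑ g ∈ Finset.range (M + 1), uu M X i g * mm M X i (M - g) =
      ((∑ g ∈ Finset.range (M + 1), uu M X i g * uu M X (i + 1) (M - g)) +
        (∑ g ∈ Finset.range (M + 1), uu M X i g * uu M X (i + 2) (M - g))) / 2 := by
    intro i
    rw [← Finset.sum_add_distrib, Finset.sum_div]
    refine Finset.sum_congr rfl fun g _ => ?_
    unfold mm
    ring
  have n1 : ∀ i : Fin 3, i ≠ i + 1 := by decide
  have n2 : ∀ i : Fin 3, i ≠ i + 2 := by decide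
  have hi : ∀ i : Fin 3, ∑ g ∈ Finset.range (M + 1), uu M X i g * mm M X i (M - g) =
      ((∑ g ∈ Finset.range (M + 1), uu M X i g) + (∑ g ∈ Finset.range (M + 1), uu M X (i + 1) g) -
          (M + 1) + ((∑ g ∈ Finset.range (M + 1), uu M X i g) +
            (∑ g ∈ Finset.range (M + 1), uu M X (i + 2) g) - (M + 1))) / 2 := by
    intro i
    rw [hsplit i, key i (i + 1) (n1 i), key i (i + 2) (n2 i)]
  unfold VV
  simp only [hi, Fin.sum_univ_three]
  have a1 : (0 : Fin 3) + 1 = 1 := rfl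
  have a2 : (0 : Fin 3) + 2 = 2 := rfl
  have b1 : (1 : Fin 3) + 1 = 2 := rfl
  have b2 : (1 : Fin 3) + 2 = 0 := rfl
  have c1 : (2 : Fin 3) + 1 = 0 := rfl
  have c2 : (2 : Fin 3) + 2 = 1 := rfl
  rw [a1, a2, b1, b2, c1, c2]
  ring

/-- **The certificate inequality.** -/
theorem certIneq {ι : Type*} (S : Finset ι) (c : Fin 3 → ι → ℕ) (h : Tri M X) (a : Fin 3 → ℕ)
    (hsum : ∀ q ∈ S, ∑ i, c i q = M + ∑ i, a i) (ha : ∀ i, ∀ l < a i, ∃ q ∈ S, c i q = l)
    (hX : ∀ i, ∀ g ≤ M, g ∉ X i → ∃ q ∈ S, c i q = a i + g) {b e : ℚ} (he : 0 ≤ e)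
    (heb : e ≤ b) : CertIneq S.card M X a b e := by
  classical
  have hrook : ∑ q ∈ S, ∑ i, wt M X b e i ((c i q : ℤ) - a i) ≤ ∑ q ∈ S, 2 * ((M : ℚ) + 3 * b) := by
    refine Finset.sum_le_sum fun q hq => ?_
    refine rook_le h he heb (fun i => (c i q : ℤ) - a i) ?_
    have := hsum q hq
    have h2 : ((∑ i, c i q : ℕ) : ℤ) = (M : ℤ) + ((∑ i, a i : ℕ) : ℤ) := by exact_mod_cast this
    push_cast at h2
    rw [Finset.sum_sub_distrib, h2]; ring
  rw [Finset.sum_const, nsmul_eq_mul, Finset.sum_comm] at hrook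
  have hline : ∀ i : Fin 3, (∑ j ∈ Finset.Icc 1 (a i), wt M X b e i (-(j : ℤ))) +
      (∑ g ∈ (Finset.range (M + 1)).filter (fun g => g ∉ X i), wt M X b e i (g : ℤ)) ≤
      ∑ q ∈ S, wt M X b e i ((c i q : ℤ) - a i) := fun i =>
    line_sum S (c i) (wt M X b e i) (wt_nonneg he heb i) (a i) M (X i) (ha i) (hX i)
  have hneg : ∀ i : Fin 3, ∑ j ∈ Finset.Icc 1 (a i), wt M X b e i (-(j : ℤ)) =
      (a i : ℚ) * (M + 3 * b) - ∑ j ∈ Finset.Icc 1 (a i),
        (max (b - j) 0 * mm M X i j + max (e - j) 0 * (1 - mm M X i j)) := by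
    intro i
    have : ∀ j ∈ Finset.Icc 1 (a i), wt M X b e i (-(j : ℤ)) = (M + 3 * b) -
        (max (b - j) 0 * mm M X i j + max (e - j) 0 * (1 - mm M X i j)) := by
      intro j hj
      have := (Finset.mem_Icc.1 hj).1
      rw [wt_neg b e i j (by omega)]
      ring
    rw [Finset.sum_congr rfl this, Finset.sum_sub_distrib]
    simp only [Finset.sum_const, Nat.card_Icc, nsmul_eq_mul]
    simp
  have hpos : ∀ i : Fin 3,
      ∑ g ∈ (Finset.range (M + 1)).filter (fun g => g ∉ X i), wt M X b e i (g : ℤ) =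
      (∑ g ∈ Finset.range (M + 1), uu M X i g * ((M : ℚ) - g)) +
        2 * b * (∑ g ∈ Finset.range (M + 1), uu M X i g) -
        (b - e) * ∑ g ∈ Finset.range (M + 1), uu M X i g * mm M X i (M - g) := by
    intro i
    rw [Finset.sum_filter, Finset.mul_sum, Finset.mul_sum, ← Finset.sum_add_distrib,
      ← Finset.sum_sub_distrib]
    refine Finset.sum_congr rfl fun g hg => ?_
    have hg' : g ≤ M := by have := Finset.mem_range.1 hg; omega
    by_cases hgX : g ∈ X i
    · have : uu M X i g = 0 := by unfold uu; rw [if_neg (by tauto)]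
      rw [if_neg (by tauto), this]; ring
    · have : uu M X i g = 1 := by unfold uu; rw [if_pos ⟨hg', hgX⟩]
      rw [if_pos hgX, this, wt_nat b e i g hg']; ring
  have hfin : ∑ i, ((∑ j ∈ Finset.Icc 1 (a i), wt M X b e i (-(j : ℤ))) +
      (∑ g ∈ (Finset.range (M + 1)).filter (fun g => g ∉ X i), wt M X b e i (g : ℤ))) ≤
      ∑ i, ∑ q ∈ S, wt M X b e i ((c i q : ℤ) - a i) := Finset.sum_le_sum fun i _ => hline i
  have hcalc : ∑ i, ((∑ j ∈ Finset.Icc 1 (a i), wt M X b e i (-(j : ℤ))) +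
      (∑ g ∈ (Finset.range (M + 1)).filter (fun g => g ∉ X i), wt M X b e i (g : ℤ))) =
      3 * b * (M + 1) + PP M X + 2 * e * VV M X + (∑ i, (a i : ℚ)) * (M + 3 * b) -
        JJ M X a b e := by
    simp only [hneg, hpos]
    have h2 := sum_uu_mm h
    rw [Finset.sum_add_distrib, Finset.sum_sub_distrib, Finset.sum_sub_distrib,
      Finset.sum_add_distrib, ← Finset.mul_sum, ← Finset.mul_sum, h2, ← Finset.sum_mul]
    have h3 : (∑ i, ∑ g ∈ Finset.range (M + 1), uu M X i g) = VV M X + 3 * (M + 1) / 2 := by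
      unfold VV; ring
    rw [h3]
    unfold PP JJ
    ring
  rw [hcalc] at hfin
  unfold CertIneq
  linarith

end Pool.Agent.LibA338c1f
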