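import Pool.Agent.Lib_MP_a338c1_f.NearParity

/-!
# Nested triples and the inequality `T2`

The inequality `T2` for the nested triple gives the bound for all numbers of small lines.
-/

namespace Pool.Agent.LibA338c1f

/-- Nested triples `Z ⊆ Y ⊆ X ⊆ [0, M]` with `0 ∈ Z` and no `x + y + z = M`. -/
structure Nest (M : ℕ) (X Y Z : Finset ℕ) : Prop where
  zero : 0 ∈ Z
  ZY : Z ⊆ Y
  YX : Y ⊆ X
  le : ∀ x ∈ X, x ≤ M
  free : ∀ x ∈ X, ∀ y ∈ Y, ∀ z ∈ Z, x + y + z ≠ M

/-- The deficit `U = 3 (M + 1) - 2 (|X| + |Y| + |Z|)`. -/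
def U2 (M : ℕ) (X Y Z : Finset ℕ) : ℤ := 3 * (M + 1) - 2 * (X.card + Y.card + Z.card)

/-- The first moment. -/
def Q1 (M : ℕ) (X Y Z : Finset ℕ) : ℤ :=
  ∑ r ∈ X, ((M : ℤ) - r) + ∑ r ∈ Y, ((M : ℤ) - r) + ∑ r ∈ Z, ((M : ℤ) - r)

/-- The inequality `T2`. -/
def T2 (M : ℕ) (X Y Z : Finset ℕ) : Prop :=
  54 * Q1 M X Y Z < 34 * (M : ℤ) ^ 2 + 92 * M + 112 + 14 * M * U2 M X Y Z +
    92 * U2 M X Y Z + 16 * (U2 M X Y Z) ^ 2

/-- The far case for large `M`. -/
def FarStatement : Prop :=
  ∀ (M : ℕ) (X Y Z : Finset ℕ), 29 ≤ M → Nest M X Y Z →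
    (M % 2 = 0 ∨ ∃ x ∈ X, x % 2 = 1 ∧ 2 * x < M) → T2 M X Y Z

variable {M : ℕ} {X : Fin 3 → Finset ℕ}

/-- The number of sets containing `g`. -/
def cnt (X : Fin 3 → Finset ℕ) (g : ℕ) : ℕ := ∑ i, if g ∈ X i then 1 else 0

/-- The level sets of the number of sets. -/
def lev (M : ℕ) (X : Fin 3 → Finset ℕ) (j : ℕ) : Finset ℕ :=
  (Finset.range (M + 1)).filter fun g => j ≤ cnt X g

theorem cnt_le (g : ℕ) : cnt X g ≤ 3 := by
  unfold cnt
  rw [Fin.sum_univ_three]
  split_ifs <;> omega

theorem nest_of_tri (h : Tri M X) : Nest M (lev M X 1) (lev M X 2) (lev M X 3) where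
  zero := by
    refine Finset.mem_filter.2 ⟨Finset.mem_range.2 (by omega), ?_⟩
    unfold cnt
    rw [Fin.sum_univ_three, if_pos (h.zero 0), if_pos (h.zero 1), if_pos (h.zero 2)]
  ZY := by
    intro x hx
    rw [lev, Finset.mem_filter] at hx ⊢
    exact ⟨hx.1, by omega⟩
  YX := by
    intro x hx
    rw [lev, Finset.mem_filter] at hx ⊢
    exact ⟨hx.1, by omega⟩
  le := by
    intro x hx
    rw [lev, Finset.mem_filter, Finset.mem_range] at hx
    omega
  free := by
    intro x hx y hy z hz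
    have hx' := (Finset.mem_filter.1 hx).2
    have hy' := (Finset.mem_filter.1 hy).2
    have hz' := (Finset.mem_filter.1 hz).2
    unfold cnt at hx' hy' hz'
    rw [Fin.sum_univ_three] at hx' hy' hz'
    have z0 : z ∈ X 0 := by by_contra hn; rw [if_neg hn] at hz'; split_ifs at hz' <;> omega
    have z1 : z ∈ X 1 := by by_contra hn; rw [if_neg hn] at hz'; split_ifs at hz' <;> omega
    have z2 : z ∈ X 2 := by by_contra hn; rw [if_neg hn] at hz'; split_ifs at hz' <;> omega
    intro hs
    by_cases x0 : x ∈ X 0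
    · by_cases y1 : y ∈ X 1
      · exact h.free x x0 y y1 z z2 hs
      · by_cases y2 : y ∈ X 2
        · exact h.free x x0 z z1 y y2 (by omega)
        · rw [if_neg y1, if_neg y2] at hy'; split_ifs at hy' <;> omega
    · by_cases x1 : x ∈ X 1
      · by_cases y0 : y ∈ X 0
        · exact h.free y y0 x x1 z z2 (by omega)
        · by_cases y2 : y ∈ X 2
          · exact h.free z z0 x x1 y y2 (by omega)
          · rw [if_neg y0, if_neg y2] at hy'; split_ifs at hy' <;> omega
      · by_cases x2 : x ∈ X 2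
        · by_cases y0 : y ∈ X 0
          · exact h.free y y0 z z1 x x2 (by omega)
          · by_cases y1 : y ∈ X 1
            · exact h.free z z0 y y1 x x2 (by omega)
            · rw [if_neg y0, if_neg y1] at hy'; split_ifs at hy' <;> omega
        · rw [if_neg x0, if_neg x1, if_neg x2] at hx'; omega

/-- Sums over the level sets. -/
theorem sum_lev (h : Tri M X) (w : ℕ → ℤ) :
    ∑ r ∈ lev M X 1, w r + ∑ r ∈ lev M X 2, w r + ∑ r ∈ lev M X 3, w r =
      ∑ i, ∑ r ∈ X i, w r := by
  have h1 : ∀ i, ∑ r ∈ X i, w r = ∑ g ∈ Finset.range (M + 1), if g ∈ X i then w g else 0 := by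
    intro i
    rw [← Finset.sum_filter]
    refine Finset.sum_congr ?_ fun _ _ => rfl
    ext x
    rw [Finset.mem_filter, Finset.mem_range]
    constructor
    · intro hx; have := h.le i x hx; exact ⟨by omega, hx⟩
    · intro hx; exact hx.2
  rw [Finset.sum_congr rfl fun i _ => h1 i, Finset.sum_comm]
  unfold lev
  rw [Finset.sum_filter, Finset.sum_filter, Finset.sum_filter, ← Finset.sum_add_distrib,
    ← Finset.sum_add_distrib]
  refine Finset.sum_congr rfl fun g _ => ?_
  rw [Fin.sum_univ_three]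
  unfold cnt
  rw [Fin.sum_univ_three]
  by_cases h0 : g ∈ X 0 <;> by_cases h1 : g ∈ X 1 <;> by_cases h2 : g ∈ X 2 <;>
    simp [h0, h1, h2] <;> ring

theorem card_lev (h : Tri M X) :
    ((lev M X 1).card : ℤ) + (lev M X 2).card + (lev M X 3).card = ∑ i, ((X i).card : ℤ) := by
  have := sum_lev h (fun _ => 1)
  simpa using this

/-- The number of used lines in terms of the unused ones. -/
theorem sum_uu (h : Tri M X) (i : Fin 3) (w : ℕ → ℚ) :
    ∑ g ∈ Finset.range (M + 1), uu M X i g * w g =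
      ∑ g ∈ Finset.range (M + 1), w g - ∑ r ∈ X i, w r := by
  have h1 : ∑ r ∈ X i, w r = ∑ g ∈ Finset.range (M + 1), if g ∈ X i then w g else 0 := by
    rw [← Finset.sum_filter]
    refine Finset.sum_congr ?_ fun _ _ => rfl
    ext x
    rw [Finset.mem_filter, Finset.mem_range]
    constructor
    · intro hx; have := h.le i x hx; exact ⟨by omega, hx⟩
    · intro hx; exact hx.2
  rw [h1, ← Finset.sum_sub_distrib]
  refine Finset.sum_congr rfl fun g hg => ?_
  have hg' : g ≤ M := by have := Finset.mem_range.1 hg; omega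
  unfold uu
  by_cases hx : g ∈ X i
  · rw [if_neg (fun hh => hh.2 hx), if_pos hx]; ring
  · rw [if_pos ⟨hg', hx⟩, if_neg hx]; ring

theorem sum_M (M : ℕ) : ∑ g ∈ Finset.range (M + 1), ((M : ℚ) - g) = M * (M + 1) / 2 := by
  have h1 : ∀ n : ℕ, ∑ g ∈ Finset.range (n + 1), ((M : ℚ) - g) = (n + 1) * M - n * (n + 1) / 2 := by
    intro n
    induction n with
    | zero => simp
    | succ n ih => rw [Finset.sum_range_succ, ih]; push_cast; ring
  rw [h1]; ring

theorem VV_eq (h : Tri M X) :
    2 * VV M X = (U2 M (lev M X 1) (lev M X 2) (lev M X 3) : ℚ) := by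
  have h1 : ∀ i, ∑ g ∈ Finset.range (M + 1), uu M X i g = (M + 1) - ((X i).card : ℚ) := by
    intro i
    have := sum_uu h i (fun _ => 1)
    simpa using this
  unfold VV U2
  rw [Finset.sum_congr rfl fun i _ => h1 i]
  have h2 := card_lev h
  have h3 : ((lev M X 1).card : ℚ) + (lev M X 2).card + (lev M X 3).card =
      ∑ i, ((X i).card : ℚ) := by exact_mod_cast h2
  push_cast
  rw [h3, Finset.sum_sub_distrib]
  simp
  ring

theorem PP_eq (h : Tri M X) :
    PP M X = 3 * (M * (M + 1) / 2) - (Q1 M (lev M X 1) (lev M X 2) (lev M X 3) : ℚ) := by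
  unfold PP Q1
  rw [Finset.sum_congr rfl fun i _ => sum_uu h i (fun g => (M : ℚ) - g)]
  have h2 := sum_lev h (fun r => (M : ℤ) - r)
  rw [h2, Finset.sum_sub_distrib, sum_M]
  push_cast
  simp

/-- The number of used lines is at least half of all. -/
theorem VV_nonneg (h : Tri M X) : 0 ≤ VV M X := by
  have hpair : ∀ i k : Fin 3, i ≠ k → ((X i).card : ℚ) + (X k).card ≤ M + 1 := by
    intro i k hik
    have h1 : (X i).card + (X k).card ≤ M + 1 := by
      have e1 : ((X k).image fun x => M - x).card = (X k).card := by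
        refine Finset.card_image_of_injOn ?_
        intro x hx y hy hxy
        have h1 := h.le k x hx
        have h2 := h.le k y hy
        simp only at hxy
        omega
      rw [← e1, ← Finset.card_union_of_disjoint]
      · calc _ ≤ (Finset.range (M + 1)).card := Finset.card_le_card ?_
          _ = M + 1 := Finset.card_range _
        intro x hx
        rw [Finset.mem_range]
        rcases Finset.mem_union.1 hx with hx | hx
        · have := h.le i x hx; omega
        · obtain ⟨y, hy, rfl⟩ := Finset.mem_image.1 hx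
          omega
      · rw [Finset.disjoint_left]
        intro x hx hx'
        obtain ⟨y, hy, hyx⟩ := Finset.mem_image.1 hx'
        have h2 := h.le k y hy
        exact h.pair hik hx hy (by omega)
    exact_mod_cast h1
  have h1 : ∀ i, ∑ g ∈ Finset.range (M + 1), uu M X i g = (M + 1) - ((X i).card : ℚ) := by
    intro i
    have := sum_uu h i (fun _ => 1)
    simpa using this
  unfold VV
  rw [Finset.sum_congr rfl fun i _ => h1 i, Fin.sum_univ_three]
  have a1 := hpair 0 1 (by decide)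
  have a2 := hpair 1 2 (by decide)
  have a3 := hpair 0 2 (by decide)
  linarith

/-- The loss minus the gain of `n` small lines. -/
theorem loss_le (M b : ℚ) (hM : 0 ≤ M) (hb : 0 ≤ b) (n : ℕ) :
    ∑ j ∈ Finset.Icc 1 n, (12 * max (b - j) 0 - (M + 3 * b)) ≤ (9 * b - M - 6) ^ 2 / 24 := by
  have key : ∀ n : ℕ, ∃ m : ℕ, ∑ j ∈ Finset.Icc 1 n, (12 * max (b - j) 0 - (M + 3 * b)) ≤
      m * (9 * b - M) - 6 * m * (m + 1) ∧ m ≤ n ∧ (m < n → b ≤ m + 1) := by
    intro n
    induction n with
    | zero => exact ⟨0, by simp⟩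
    | succ n ih =>
      obtain ⟨m, hm, hmn, hmb⟩ := ih
      rw [Finset.sum_Icc_succ_top (by omega)]
      rcases Nat.lt_or_ge m n with h1 | h1
      · refine ⟨m, ?_, by omega, fun _ => hmb h1⟩
        have h2 := hmb h1
        have h3 : (m : ℚ) + 1 ≤ ((n + 1 : ℕ) : ℚ) := by exact_mod_cast (by omega : m + 1 ≤ n + 1)
        rw [max_eq_right (by linarith)]
        linarith
      · have hmn' : m = n := by omega
        subst hmn'
        rcases le_or_gt b ((m + 1 : ℕ) : ℚ) with h2 | h2
        · refine ⟨m, ?_, by omega, fun _ => by push_cast at h2; exact h2⟩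
          rw [max_eq_right (by linarith)]
          linarith
        · refine ⟨m + 1, ?_, le_rfl, fun h => absurd h (lt_irrefl _)⟩
          rw [max_eq_left (by linarith)]
          push_cast
          nlinarith
  obtain ⟨m, hm, _, _⟩ := key n
  nlinarith [sq_nonneg (12 * (m : ℚ) - (9 * b - M - 6))]

/-- `T2` gives the bound, for all numbers of small lines. -/
theorem bound_of_T2 (h : Tri M X) (hM : 0 < M) {k : ℕ} {a : Fin 3 → ℕ} (hc : Certs k M X a)
    (hT : T2 M (lev M X 1) (lev M X 2) (lev M X 3)) : 11 * (M + ∑ i, a i + 1) ≤ 24 * k + 5 := by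
  have hV := VV_nonneg h
  have hM' : (0 : ℚ) ≤ M := Nat.cast_nonneg M
  set V := VV M X with hVdef
  have hVe := VV_eq h
  have hPe := PP_eq h
  set U : ℤ := U2 M (lev M X 1) (lev M X 2) (lev M X 3) with hU
  set Q : ℤ := Q1 M (lev M X 1) (lev M X 2) (lev M X 3) with hQ
  have hT' : (54 * (Q : ℚ)) < 34 * (M : ℚ) ^ 2 + 92 * M + 112 + 14 * M * U + 92 * U +
      16 * (U : ℚ) ^ 2 := by
    have := hT
    unfold T2 at this
    rw [← hU, ← hQ] at this
    exact_mod_cast this
  rw [← hVe] at hT'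
  set b : ℚ := (7 * M + 46 + 32 * V) / 27 with hb
  have hb0 : 0 ≤ b := by rw [hb]; positivity
  refine hc.bound hM (b := b) (e := b) hb0 le_rfl ?_
  have hJ : 12 * JJ M X a b b - (∑ i, (a i : ℚ)) * (M + 3 * b) ≤ 3 * ((9 * b - M - 6) ^ 2 / 24) := by
    have h1 : 12 * JJ M X a b b - (∑ i, (a i : ℚ)) * (M + 3 * b) =
        ∑ i, ∑ j ∈ Finset.Icc 1 (a i), (12 * max (b - j) 0 - (M + 3 * b)) := by
      unfold JJ
      rw [Finset.mul_sum, Finset.sum_mul, ← Finset.sum_sub_distrib]
      refine Finset.sum_congr rfl fun i _ => ?_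
      rw [Finset.sum_sub_distrib, Finset.mul_sum, Finset.sum_const, Nat.card_Icc, nsmul_eq_mul,
        Nat.add_sub_cancel]
      congr 1
      refine Finset.sum_congr rfl fun j _ => ?_
      ring
    rw [h1]
    calc _ ≤ ∑ i : Fin 3, ((9 * b - M - 6) ^ 2 / 24 : ℚ) :=
          Finset.sum_le_sum fun i _ => loss_le M b hM' hb0 (a i)
      _ = 3 * ((9 * b - M - 6) ^ 2 / 24) := by simp
  rw [hPe]
  have key : 0 < (M + 3 * b) * (M + 7) + 24 * b * V - 12 * (Q - M * (M + 1) / 2) -
      3 * ((9 * b - M - 6) ^ 2 / 24) := by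
    rw [hb]
    nlinarith
  nlinarith

end Pool.Agent.LibA338c1f
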