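import Mathlib

/-!
# Kneser's addition theorem in finite abelian groups
-/

open scoped Pointwise

namespace Pool.Agent.LibA338c1f

variable {G : Type*} [AddCommGroup G]

/-- The group of periods of a finite set. -/
def per (C : Finset G) : AddSubgroup G where
  carrier := {g | ∀ x, g + x ∈ C ↔ x ∈ C}
  zero_mem' := fun x => by simp
  add_mem' := by
    intro a b ha hb x
    rw [add_assoc]
    exact (ha _).trans (hb _)
  neg_mem' := by
    intro a ha x
    have := ha (-a + x)
    rw [add_neg_cancel_left] at this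
    exact this.symm

theorem mem_per {C : Finset G} {g : G} : g ∈ per C ↔ ∀ x, g + x ∈ C ↔ x ∈ C := Iff.rfl

theorem mem_per_of_subset {C : Finset G} {g : G} (h : ∀ x ∈ C, g + x ∈ C) : g ∈ per C := by
  classical
  have him : C.image (fun x => g + x) = C := by
    apply Finset.eq_of_subset_of_card_le
    · intro y hy
      obtain ⟨x, hx, rfl⟩ := Finset.mem_image.1 hy
      exact h x hx
    · rw [Finset.card_image_of_injective _ (add_right_injective g)]
  intro x
  constructor
  · intro hx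
    rw [← him] at hx
    obtain ⟨y, hy, hyx⟩ := Finset.mem_image.1 hx
    have : y = x := add_left_cancel hyx
    exact this ▸ hy
  · exact h x

variable [Finite G]

theorem card_le_of_stable (H : AddSubgroup G) (S : Finset G) (hS : ∀ k ∈ H, ∀ x ∈ S, k + x ∈ S)
    (x : G) (hx : x ∈ S) : Nat.card H ≤ S.card := by
  classical
  have : Fintype H := Fintype.ofFinite H
  rw [Nat.card_eq_fintype_card, ← Finset.card_univ]
  refine Finset.card_le_card_of_injOn (fun k : H => (k : G) + x) ?_ ?_
  · intro k _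
    exact hS k k.2 x hx
  · intro k _ k' _ hkk
    exact Subtype.ext (add_right_cancel hkk)

/-- Counting in one grid. -/
theorem grid (C₁ C₂ : Finset G) (c : G) (hc₁ : c ∈ C₁) (hc₂ : c ∉ C₂) [DecidableEq G] :
    ∃ α β : ℕ, Nat.card ↥(per C₁ ⊓ per C₂) ≤ α ∧
      (α = Nat.card (per C₂) ∨ α + Nat.card ↥(per C₁ ⊓ per C₂) ≤ Nat.card (per C₂)) ∧
      (β = 0 ∨ Nat.card ↥(per C₁ ⊓ per C₂) ≤ β) ∧
      β + Nat.card ↥(per C₁ ⊓ per C₂) ≤ Nat.card (per C₁) ∧
      α * (Nat.card (per C₁) - β) ≤ Nat.card ↥(per C₁ ⊓ per C₂) * (C₁ \ C₂).card ∧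
      β * (Nat.card (per C₂) - α) ≤ Nat.card ↥(per C₁ ⊓ per C₂) * (C₂ \ C₁).card := by
  classical
  have : Fintype G := Fintype.ofFinite G
  set H := per C₁ ⊓ per C₂ with hH
  have hcard : ∀ K : AddSubgroup G, Nat.card K = (Finset.univ.filter (fun g => g ∈ K)).card := by
    intro K
    rw [Nat.card_eq_fintype_card, Fintype.card_subtype]
  set F₁ : Finset G := Finset.univ.filter (fun g => g ∈ per C₁) with hF₁
  set F₂ : Finset G := Finset.univ.filter (fun g => g ∈ per C₂) with hF₂
  have hc1 : Nat.card (per C₁) = F₁.card := hcard (per C₁)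
  have hc2 : Nat.card (per C₂) = F₂.card := hcard (per C₂)
  set U₁ : Finset G := F₂.filter (fun g => c + g ∈ C₁) with hU₁
  set U₂ : Finset G := F₁.filter (fun g => c + g ∈ C₂) with hU₂
  set V₁ : Finset G := F₂.filter (fun g => ¬ c + g ∈ C₁) with hV₁
  set V₂ : Finset G := F₁.filter (fun g => ¬ c + g ∈ C₂) with hV₂
  have hUV₁ : U₁.card + V₁.card = F₂.card := Finset.card_filter_add_card_filter_not _
  have hUV₂ : U₂.card + V₂.card = F₁.card := Finset.card_filter_add_card_filter_not _
  have hmemH : ∀ k ∈ H, k ∈ per C₁ ∧ k ∈ per C₂ := fun k hk => AddSubgroup.mem_inf.1 hk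
  have stU₁ : ∀ k ∈ H, ∀ x ∈ U₁, k + x ∈ U₁ := by
    intro k hk x hx
    obtain ⟨h1, h2⟩ := Finset.mem_filter.1 hx
    obtain ⟨k1, k2⟩ := hmemH k hk
    refine Finset.mem_filter.2 ⟨Finset.mem_filter.2 ⟨Finset.mem_univ _, ?_⟩, ?_⟩
    · exact (per C₂).add_mem k2 (Finset.mem_filter.1 h1).2
    · rw [add_left_comm]; exact (mem_per.1 k1 _).2 h2
  have stU₂ : ∀ k ∈ H, ∀ x ∈ U₂, k + x ∈ U₂ := by
    intro k hk x hx
    obtain ⟨h1, h2⟩ := Finset.mem_filter.1 hx
    obtain ⟨k1, k2⟩ := hmemH k hk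
    refine Finset.mem_filter.2 ⟨Finset.mem_filter.2 ⟨Finset.mem_univ _, ?_⟩, ?_⟩
    · exact (per C₁).add_mem k1 (Finset.mem_filter.1 h1).2
    · rw [add_left_comm]; exact (mem_per.1 k2 _).2 h2
  have stV₁ : ∀ k ∈ H, ∀ x ∈ V₁, k + x ∈ V₁ := by
    intro k hk x hx
    obtain ⟨h1, h2⟩ := Finset.mem_filter.1 hx
    obtain ⟨k1, k2⟩ := hmemH k hk
    refine Finset.mem_filter.2 ⟨Finset.mem_filter.2 ⟨Finset.mem_univ _, ?_⟩, ?_⟩
    · exact (per C₂).add_mem k2 (Finset.mem_filter.1 h1).2
    · rw [add_left_comm]; exact fun h => h2 ((mem_per.1 k1 _).1 h)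
  have stV₂ : ∀ k ∈ H, ∀ x ∈ V₂, k + x ∈ V₂ := by
    intro k hk x hx
    obtain ⟨h1, h2⟩ := Finset.mem_filter.1 hx
    obtain ⟨k1, k2⟩ := hmemH k hk
    refine Finset.mem_filter.2 ⟨Finset.mem_filter.2 ⟨Finset.mem_univ _, ?_⟩, ?_⟩
    · exact (per C₁).add_mem k1 (Finset.mem_filter.1 h1).2
    · rw [add_left_comm]; exact fun h => h2 ((mem_per.1 k2 _).1 h)
  have h0U₁ : (0 : G) ∈ U₁ := Finset.mem_filter.2
    ⟨Finset.mem_filter.2 ⟨Finset.mem_univ _, (per C₂).zero_mem⟩, by rwa [add_zero]⟩
  have h0V₂ : (0 : G) ∈ V₂ := Finset.mem_filter.2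
    ⟨Finset.mem_filter.2 ⟨Finset.mem_univ _, (per C₁).zero_mem⟩, by rwa [add_zero]⟩
  -- the fibres of the sum map
  have fib : ∀ (P : Finset (G × G)), (∀ p ∈ P, p.1 ∈ per C₁ ∧ p.2 ∈ per C₂) → ∀ b : G,
      (P.filter (fun p => c + p.1 + p.2 = b)).card ≤ Nat.card H := by
    intro P hP b
    rcases (P.filter (fun p => c + p.1 + p.2 = b)).eq_empty_or_nonempty with h0 | ⟨q, hq⟩
    · rw [h0]; simp
    · rw [hcard H]
      obtain ⟨hqP, hqb⟩ := Finset.mem_filter.1 hq
      have key : ∀ p ∈ P.filter (fun p => c + p.1 + p.2 = b), p.1 - q.1 = q.2 - p.2 := by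
        intro p hp
        obtain ⟨hpP, hpb⟩ := Finset.mem_filter.1 hp
        have : c + p.1 + p.2 = c + q.1 + q.2 := hpb.trans hqb.symm
        rw [sub_eq_sub_iff_add_eq_add]
        have h2 : c + (p.1 + p.2) = c + (q.1 + q.2) := by rw [← add_assoc, ← add_assoc]; exact this
        have h3 := add_left_cancel h2
        rw [h3, add_comm]
      refine Finset.card_le_card_of_injOn (fun p => p.1 - q.1) ?_ ?_
      · intro p hp
        have hpP := (Finset.mem_filter.1 hp).1
        refine Finset.mem_filter.2 ⟨Finset.mem_univ _, AddSubgroup.mem_inf.2 ⟨?_, ?_⟩⟩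
        · exact (per C₁).sub_mem (hP p hpP).1 (hP q hqP).1
        · show p.1 - q.1 ∈ per C₂
          rw [key p hp]
          exact (per C₂).sub_mem (hP q hqP).2 (hP p hpP).2
      · intro p hp p' hp' hpp
        have e1 : p.1 - q.1 = p'.1 - q.1 := hpp
        have e2 := key p hp
        have e3 := key p' hp'
        have e4 : q.2 - p.2 = q.2 - p'.2 := by rw [← e2, ← e3, e1]
        exact Prod.ext (sub_left_injective e1) (sub_right_injective e4)
  refine ⟨U₁.card, U₂.card, card_le_of_stable H U₁ stU₁ 0 h0U₁, ?_, ?_, ?_, ?_, ?_⟩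
  · rw [hc2]
    rcases V₁.eq_empty_or_nonempty with h0 | ⟨x, hx⟩
    · left; rw [h0] at hUV₁; simpa using hUV₁
    · right; have := card_le_of_stable H V₁ stV₁ x hx; omega
  · rcases U₂.eq_empty_or_nonempty with h0 | ⟨x, hx⟩
    · left; rw [h0]; rfl
    · right; exact card_le_of_stable H U₂ stU₂ x hx
  · rw [hc1]
    have := card_le_of_stable H V₂ stV₂ 0 h0V₂; omega
  · rw [hc1]
    have e : F₁.card - U₂.card = V₂.card := by omega
    rw [e, mul_comm, ← Finset.card_product]
    refine Finset.card_le_mul_card_image_of_maps_to (f := fun p : G × G => c + p.1 + p.2) ?_ _ ?_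
    · intro p hp
      obtain ⟨hp1, hp2⟩ := Finset.mem_product.1 hp
      obtain ⟨a1, a2⟩ := Finset.mem_filter.1 hp1
      obtain ⟨b1, b2⟩ := Finset.mem_filter.1 hp2
      have a3 := (Finset.mem_filter.1 a1).2
      have b3 := (Finset.mem_filter.1 b1).2
      refine Finset.mem_sdiff.2 ⟨?_, ?_⟩
      · show c + p.1 + p.2 ∈ C₁
        have : c + p.1 + p.2 = p.1 + (c + p.2) := by abel
        rw [this]; exact (mem_per.1 a3 _).2 b2
      · show ¬ c + p.1 + p.2 ∈ C₂
        have : c + p.1 + p.2 = p.2 + (c + p.1) := by abel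
        rw [this]; exact fun h => a2 ((mem_per.1 b3 _).1 h)
    · intro b _
      exact fib _ (fun p hp => by
        obtain ⟨hp1, hp2⟩ := Finset.mem_product.1 hp
        exact ⟨(Finset.mem_filter.1 (Finset.mem_filter.1 hp1).1).2,
          (Finset.mem_filter.1 (Finset.mem_filter.1 hp2).1).2⟩) b
  · rw [hc2]
    have e : F₂.card - U₁.card = V₁.card := by omega
    rw [e, ← Finset.card_product]
    refine Finset.card_le_mul_card_image_of_maps_to (f := fun p : G × G => c + p.1 + p.2) ?_ _ ?_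
    · intro p hp
      obtain ⟨hp1, hp2⟩ := Finset.mem_product.1 hp
      obtain ⟨a1, a2⟩ := Finset.mem_filter.1 hp1
      obtain ⟨b1, b2⟩ := Finset.mem_filter.1 hp2
      have a3 := (Finset.mem_filter.1 a1).2
      have b3 := (Finset.mem_filter.1 b1).2
      refine Finset.mem_sdiff.2 ⟨?_, ?_⟩
      · show c + p.1 + p.2 ∈ C₂
        have : c + p.1 + p.2 = p.2 + (c + p.1) := by abel
        rw [this]; exact (mem_per.1 b3 _).2 a2
      · show ¬ c + p.1 + p.2 ∈ C₁
        have : c + p.1 + p.2 = p.1 + (c + p.2) := by abel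
        rw [this]; exact fun h => b2 ((mem_per.1 a3 _).1 h)
    · intro b _
      exact fib _ (fun p hp => by
        obtain ⟨hp1, hp2⟩ := Finset.mem_product.1 hp
        exact ⟨(Finset.mem_filter.1 (Finset.mem_filter.1 hp1).1).2,
          (Finset.mem_filter.1 (Finset.mem_filter.1 hp2).1).2⟩) b

/-- The arithmetic behind the union lemma. -/
theorem union_arith (h M₁ M₂ α β s t : ℕ) (hM : M₂ ≤ M₁) (h0 : 0 < h) (h1 : h ≤ α)
    (h2 : α = M₂ ∨ α + h ≤ M₂) (h3 : β = 0 ∨ h ≤ β) (h4 : β + h ≤ M₁)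
    (h5 : α * (M₁ - β) ≤ h * s) (h6 : β * (M₂ - α) ≤ h * t) : M₂ ≤ s + h ∨ M₁ ≤ t + h := by
  rcases h2 with h2 | h2
  · left
    subst h2
    have : h * α ≤ h * s := by
      calc h * α = α * h := mul_comm _ _
        _ ≤ α * (M₁ - β) := Nat.mul_le_mul_left _ (by omega)
        _ ≤ h * s := h5
    have := Nat.le_of_mul_le_mul_left this h0
    omega
  rcases h3 with h3 | h3
  · left
    subst h3
    have : h * M₁ ≤ h * s := by
      calc h * M₁ ≤ α * M₁ := Nat.mul_le_mul_right _ h1
        _ = α * (M₁ - 0) := by rw [Nat.sub_zero]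
        _ ≤ h * s := h5
    have := Nat.le_of_mul_le_mul_left this h0
    omega
  by_contra hcon
  push Not at hcon
  obtain ⟨c1, c2⟩ := hcon
  obtain ⟨a, rfl⟩ : ∃ a, α = h + a := ⟨α - h, by omega⟩
  obtain ⟨b, rfl⟩ : ∃ b, β = h + b := ⟨β - h, by omega⟩
  obtain ⟨p, rfl⟩ : ∃ p, M₂ = h + a + h + p := ⟨M₂ - (h + a + h), by omega⟩
  obtain ⟨q, rfl⟩ : ∃ q, M₁ = h + b + h + q := ⟨M₁ - (h + b + h), by omega⟩
  have e1 : h + b + h + q - (h + b) = h + q := by omega
  have e2 : h + a + h + p - (h + a) = h + p := by omega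
  rw [e1] at h5
  rw [e2] at h6
  -- (h+a)(h+q) ≤ h s, (h+b)(h+p) ≤ h t, s < h + a + p, t < h + b + q
  have c1' : s + 1 ≤ h + a + p := by omega
  have c2' : t + 1 ≤ h + b + q := by omega
  have k1 : (h + a) * (h + q) * ((h + b) * (h + p)) ≤ h * s * (h * t) := Nat.mul_le_mul h5 h6
  have k2 : h * (h + a + p) ≤ (h + a) * (h + p) := by nlinarith [Nat.zero_le (a * p)]
  have k3 : h * (h + b + q) ≤ (h + b) * (h + q) := by nlinarith [Nat.zero_le (b * q)]
  have k4 : h * (h + a + p) * (h * (h + b + q)) ≤ (h + a) * (h + p) * ((h + b) * (h + q)) :=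
    Nat.mul_le_mul k2 k3
  have k5 : s * t < (h + a + p) * (h + b + q) := by
    calc s * t ≤ s * (h + b + q) := Nat.mul_le_mul_left _ (by omega)
      _ < (h + a + p) * (h + b + q) := Nat.mul_lt_mul_of_pos_right (by omega) (by omega)
  have k6 : h * h * (s * t) < h * h * ((h + a + p) * (h + b + q)) :=
    Nat.mul_lt_mul_of_pos_left k5 (Nat.mul_pos h0 h0)
  have k7 : (h + a) * (h + q) * ((h + b) * (h + p)) = (h + a) * (h + p) * ((h + b) * (h + q)) := by
    ring
  have k8 : h * s * (h * t) = h * h * (s * t) := by ring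
  have k9 : h * (h + a + p) * (h * (h + b + q)) = h * h * ((h + a + p) * (h + b + q)) := by ring
  omega

omit [Finite G] in
theorem per_inf_le (C₁ C₂ : Finset G) [DecidableEq G] : per C₁ ⊓ per C₂ ≤ per (C₁ ∪ C₂) := by
  intro g hg
  obtain ⟨h1, h2⟩ := AddSubgroup.mem_inf.1 hg
  intro x
  rw [Finset.mem_union, Finset.mem_union, mem_per.1 h1, mem_per.1 h2]

theorem union_aux (C₁ C₂ : Finset G) [DecidableEq G]
    (hcard : Nat.card (per C₂) ≤ Nat.card (per C₁)) (h12 : ¬ C₁ ⊆ C₂) :
    C₁.card + Nat.card (per C₁) ≤ (C₁ ∪ C₂).card + Nat.card (per (C₁ ∪ C₂)) ∨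
      C₂.card + Nat.card (per C₂) ≤ (C₁ ∪ C₂).card + Nat.card (per (C₁ ∪ C₂)) := by
  obtain ⟨c, hc₁, hc₂⟩ := Finset.not_subset.1 h12
  obtain ⟨α, β, h1, h2, h3, h4, h5, h6⟩ := grid C₁ C₂ c hc₁ hc₂
  have h0 : 0 < Nat.card ↥(per C₁ ⊓ per C₂) := Nat.card_pos
  have hle : Nat.card ↥(per C₁ ⊓ per C₂) ≤ Nat.card ↥(per (C₁ ∪ C₂)) :=
    AddSubgroup.card_le_of_le (per_inf_le C₁ C₂)
  have e1 : (C₁ ∪ C₂).card = C₂.card + (C₁ \ C₂).card := by
    rw [Finset.union_comm, ← Finset.union_sdiff_self_eq_union, Finset.card_union_of_disjoint]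
    exact Finset.disjoint_sdiff
  have e2 : (C₁ ∪ C₂).card = C₁.card + (C₂ \ C₁).card := by
    rw [← Finset.union_sdiff_self_eq_union, Finset.card_union_of_disjoint]
    exact Finset.disjoint_sdiff
  rcases union_arith _ _ _ _ _ _ _ hcard h0 h1 h2 h3 h4 h5 h6 with h | h
  · right; omega
  · left; omega

/-- **The union lemma** (Kneser, Kemperman). -/
theorem union_lemma (C₁ C₂ : Finset G) [DecidableEq G] (n : ℕ)
    (h₁ : n ≤ C₁.card + Nat.card (per C₁)) (h₂ : n ≤ C₂.card + Nat.card (per C₂)) :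
    n ≤ (C₁ ∪ C₂).card + Nat.card (per (C₁ ∪ C₂)) := by
  by_cases a : C₁ ⊆ C₂
  · rw [Finset.union_eq_right.2 a]; exact h₂
  by_cases b : C₂ ⊆ C₁
  · rw [Finset.union_eq_left.2 b]; exact h₁
  rcases le_total (Nat.card (per C₂)) (Nat.card (per C₁)) with h | h
  · rcases union_aux C₁ C₂ h a with h' | h' <;> omega
  · have := union_aux C₂ C₁ h b
    rw [Finset.union_comm C₂ C₁] at this
    rcases this with h' | h' <;> omega

theorem kneser_aux [DecidableEq G] : ∀ (n : ℕ) (A B : Finset G) (c : G), B.card = n → c ∈ A →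
    (0 : G) ∈ B → ∃ C : Finset G, C ⊆ A + B ∧ c ∈ C ∧
      A.card + B.card ≤ C.card + Nat.card (per C) := by
  intro n
  induction n using Nat.strong_induction_on with
  | _ n ih =>
    intro A B c hn hc h0
    by_cases hst : ∀ e ∈ A, ∀ b ∈ B, e + b ∈ A
    · refine ⟨A, ?_, hc, ?_⟩
      · intro x hx
        have := Finset.add_mem_add hx h0
        rwa [add_zero] at this
      · have hBper : ∀ b ∈ B, b ∈ per A := by
          intro b hb
          refine mem_per_of_subset (fun x hx => ?_)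
          rw [add_comm]
          exact hst x hx b hb
        have : B.card ≤ Nat.card (per A) := by
          classical
          have : Fintype (per A) := Fintype.ofFinite _
          rw [Nat.card_eq_fintype_card, ← Finset.card_attach, ← Finset.card_univ]
          refine Finset.card_le_card_of_injOn
            (fun b : {x // x ∈ B} => (⟨b.1, hBper b.1 b.2⟩ : per A)) (fun _ _ => Finset.mem_univ _) ?_
          intro b _ b' _ hbb
          exact Subtype.ext (congrArg (fun z : per A => (z : G)) hbb)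
        omega
    · push Not at hst
      obtain ⟨e, he, b, hb, heb⟩ := hst
      set E := B.image (fun x => e + x) with hE
      set A' := A ∪ E with hA'
      set B' := B.filter (fun x => e + x ∈ A) with hB'
      have hEcard : E.card = B.card := Finset.card_image_of_injective _ (add_right_injective e)
      have hinter : (A ∩ E).card = B'.card := by
        have : A ∩ E = B'.image (fun x => e + x) := by
          ext y
          rw [Finset.mem_inter, hE, Finset.mem_image, Finset.mem_image]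
          constructor
          · rintro ⟨hy, x, hx, rfl⟩
            exact ⟨x, Finset.mem_filter.2 ⟨hx, hy⟩, rfl⟩
          · rintro ⟨x, hx, rfl⟩
            obtain ⟨h1, h2⟩ := Finset.mem_filter.1 hx
            exact ⟨h2, x, h1, rfl⟩
        rw [this, Finset.card_image_of_injective _ (add_right_injective e)]
      have hcard : A'.card + B'.card = A.card + B.card := by
        rw [← hinter, hA', ← hEcard]
        exact Finset.card_union_add_card_inter A E
      have hlt : B'.card < n := by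
        rw [← hn]
        refine Finset.card_lt_card (Finset.filter_ssubset.2 ⟨b, hb, heb⟩)
      have h0' : (0 : G) ∈ B' := Finset.mem_filter.2 ⟨h0, by rwa [add_zero]⟩
      have hc' : c ∈ A' := Finset.mem_union_left _ hc
      obtain ⟨C, hC1, hC2, hC3⟩ := ih B'.card hlt A' B' c rfl hc' h0'
      refine ⟨C, ?_, hC2, by omega⟩
      refine hC1.trans ?_
      intro y hy
      obtain ⟨a, ha, x, hx, rfl⟩ := Finset.mem_add.1 hy
      obtain ⟨hx1, hx2⟩ := Finset.mem_filter.1 hx
      rcases Finset.mem_union.1 ha with ha | ha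
      · exact Finset.add_mem_add ha hx1
      · obtain ⟨z, hz, rfl⟩ := Finset.mem_image.1 ha
        have : e + z + x = (e + x) + z := by abel
        rw [this]
        exact Finset.add_mem_add hx2 hz

/-- **Kneser's theorem**, weak form. -/
theorem kneser_weak [DecidableEq G] (A B : Finset G) (hA : A.Nonempty) (hB : B.Nonempty) :
    A.card + B.card ≤ (A + B).card + Nat.card (per (A + B)) := by
  classical
  have step1 : ∀ c ∈ A + B, ∃ C : Finset G, C ⊆ A + B ∧ c ∈ C ∧
      A.card + B.card ≤ C.card + Nat.card (per C) := by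
    intro c hc
    obtain ⟨a, ha, b, hb, rfl⟩ := Finset.mem_add.1 hc
    have h := kneser_aux _ (A.image (fun x => x + b)) (B.image (fun x => x - b)) (a + b) rfl
      (Finset.mem_image.2 ⟨a, ha, rfl⟩) (Finset.mem_image.2 ⟨b, hb, sub_self b⟩)
    have hsum : A.image (fun x => x + b) + B.image (fun x => x - b) = A + B := by
      ext y
      constructor
      · intro hy
        obtain ⟨p, hp, q, hq, rfl⟩ := Finset.mem_add.1 hy
        obtain ⟨x, hx, rfl⟩ := Finset.mem_image.1 hp
        obtain ⟨z, hz, rfl⟩ := Finset.mem_image.1 hq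
        have : x + b + (z - b) = x + z := by abel
        rw [this]
        exact Finset.add_mem_add hx hz
      · intro hy
        obtain ⟨x, hx, z, hz, rfl⟩ := Finset.mem_add.1 hy
        have : x + z = x + b + (z - b) := by abel
        rw [this]
        exact Finset.add_mem_add (Finset.mem_image.2 ⟨x, hx, rfl⟩) (Finset.mem_image.2 ⟨z, hz, rfl⟩)
    rw [hsum, Finset.card_image_of_injective _ (add_left_injective b),
      Finset.card_image_of_injective _ (sub_left_injective)] at h
    exact h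
  have step2 : ∀ T : Finset G, T.Nonempty → T ⊆ A + B → ∃ U : Finset G, T ⊆ U ∧ U ⊆ A + B ∧
      A.card + B.card ≤ U.card + Nat.card (per U) := by
    intro T hT
    induction hT using Finset.Nonempty.cons_induction with
    | singleton a =>
      intro hT
      obtain ⟨C, h1, h2, h3⟩ := step1 a (Finset.singleton_subset_iff.1 hT)
      exact ⟨C, Finset.singleton_subset_iff.2 h2, h1, h3⟩
    | cons a s ha hs ih =>
      intro hT
      have hs' : s ⊆ A + B := fun x hx => hT (Finset.mem_cons_of_mem hx)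
      obtain ⟨U, h1, h2, h3⟩ := ih hs'
      obtain ⟨C, k1, k2, k3⟩ := step1 a (hT (Finset.mem_cons_self _ _))
      refine ⟨C ∪ U, ?_, Finset.union_subset k1 h2, union_lemma C U _ k3 h3⟩
      intro x hx
      rcases Finset.mem_cons.1 hx with rfl | hx
      · exact Finset.mem_union_left _ k2
      · exact Finset.mem_union_right _ (h1 hx)
  obtain ⟨U, h1, h2, h3⟩ := step2 (A + B) (hA.add hB) (Finset.Subset.refl _)
  have : U = A + B := Finset.Subset.antisymm h2 h1
  rwa [this] at h3

/-- The saturation `A + H`. -/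
noncomputable def sat [Fintype G] (H : AddSubgroup G) (A : Finset G) : Finset G := by
  classical
  exact Finset.univ.filter (fun x => ∃ a ∈ A, x - a ∈ H)

omit [Finite G] in
theorem mem_sat [Fintype G] {H : AddSubgroup G} {A : Finset G} {x : G} :
    x ∈ sat H A ↔ ∃ a ∈ A, x - a ∈ H := by
  simp [sat]

omit [Finite G] in
theorem subset_sat [Fintype G] (H : AddSubgroup G) (A : Finset G) : A ⊆ sat H A := by
  intro x hx
  rw [mem_sat]
  exact ⟨x, hx, by rw [sub_self]; exact H.zero_mem⟩

/-- **Kneser's theorem.** -/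
theorem kneser [Fintype G] [DecidableEq G] (A B : Finset G) (hA : A.Nonempty) (hB : B.Nonempty) :
    (sat (per (A + B)) A).card + (sat (per (A + B)) B).card ≤
      (A + B).card + Nat.card (per (A + B)) := by
  set H := per (A + B) with hH
  have hsum : sat H A + sat H B = A + B := by
    ext y
    constructor
    · intro hy
      obtain ⟨p, hp, q, hq, rfl⟩ := Finset.mem_add.1 hy
      obtain ⟨a, ha, ha'⟩ := mem_sat.1 hp
      obtain ⟨b, hb, hb'⟩ := mem_sat.1 hq
      have : p + q = ((p - a) + (q - b)) + (a + b) := by abel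
      rw [this]
      exact (mem_per.1 (H.add_mem ha' hb') _).2 (Finset.add_mem_add ha hb)
    · intro hy
      obtain ⟨x, hx, z, hz, rfl⟩ := Finset.mem_add.1 hy
      exact Finset.add_mem_add (subset_sat H A hx) (subset_sat H B hz)
  have := kneser_weak (sat H A) (sat H B) (hA.mono (subset_sat H A)) (hB.mono (subset_sat H B))
  rwa [hsum] at this

end Pool.Agent.LibA338c1f
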