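import Pool.Agent.Lib_MP_a338c1_f.Kneser

/-!
# The theorem of Lev and Smeliansky on sums of two sets of integers
-/

open scoped Pointwise

namespace Pool.Agent.LibA338c1f

/-- A subgroup of `ZMod l` that contains the residues of a set of naturals with gcd `1`
containing `l` is everything. -/
theorem mem_of_gcd (l : ℕ) [NeZero l] (A : Finset ℕ) (hl : l ∈ A)
    (hg : ∀ d, (∀ a ∈ A, d ∣ a) → d = 1) (K : AddSubgroup (ZMod l))
    (hK : ∀ a ∈ A, (a : ZMod l) ∈ K) (x : ZMod l) : x ∈ K := by
  classical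
  have hex : ∃ d : ℕ, 0 < d ∧ (d : ZMod l) ∈ K := ⟨l, Nat.pos_of_ne_zero (NeZero.ne l), hK l hl⟩
  set d := Nat.find hex with hd
  obtain ⟨hd0, hdK⟩ := Nat.find_spec hex
  have hdiv : ∀ a ∈ A, d ∣ a := by
    intro a ha
    by_contra hnd
    have hmod : 0 < a % d := Nat.pos_of_ne_zero (fun h => hnd (Nat.dvd_of_mod_eq_zero h))
    have hlt : a % d < d := Nat.mod_lt _ hd0
    refine Nat.find_min hex hlt ⟨hmod, ?_⟩
    have e : ((a % d : ℕ) : ZMod l) = (a : ZMod l) - (a / d) • (d : ZMod l) := by
      rw [eq_sub_iff_add_eq, nsmul_eq_mul, ← Nat.cast_mul, ← Nat.cast_add, mul_comm]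
      congr 1
      exact Nat.mod_add_div a d
    rw [e]
    exact K.sub_mem (hK a ha) (K.nsmul_mem hdK _)
  have h1 : d = 1 := hg d hdiv
  have h1K : (1 : ZMod l) ∈ K := by
    have : (d : ZMod l) ∈ K := hdK
    rw [h1] at this
    simpa using this
  have : x = (x.val) • (1 : ZMod l) := by
    rw [nsmul_eq_mul, mul_one, ZMod.natCast_val, ZMod.cast_id]
  rw [this]
  exact K.nsmul_mem h1K _

/-- Counting the sumset outside of some residue classes. -/
theorem count_outside (l : ℕ) [NeZero l] (A B : Finset ℕ) (hl : l ∈ A) (h0 : 0 ∈ A)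
    (K : Finset (ZMod l)) (hK : ∀ b ∈ B, (b : ZMod l) ∉ K) :
    (((A + B).image (fun c : ℕ => (c : ZMod l))) \ K).card + B.card ≤
      ((A + B).filter (fun c : ℕ => (c : ZMod l) ∉ K)).card := by
  classical
  set C := A + B with hC
  set D := (C.image (fun c : ℕ => (c : ZMod l))) \ K with hD
  have hlpos : 0 < l := Nat.pos_of_ne_zero (NeZero.ne l)
  have hex : ∀ x : ZMod l, x ∈ D → ∃ c : ℕ, c ∈ C ∧ (c : ZMod l) = x := by
    intro x hx
    obtain ⟨c, hc, hcx⟩ := Finset.mem_image.1 (Finset.mem_sdiff.1 hx).1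
    exact ⟨c, hc, hcx⟩
  -- the least representative
  let r : ZMod l → ℕ := fun x => if h : ∃ c : ℕ, c ∈ C ∧ (c : ZMod l) = x then Nat.find h else 0
  have hr : ∀ x ∈ D, r x ∈ C ∧ (r x : ZMod l) = x ∧ ∀ c ∈ C, (c : ZMod l) = x → r x ≤ c := by
    intro x hx
    have h := hex x hx
    have e : r x = Nat.find h := dif_pos h
    refine ⟨?_, ?_, ?_⟩
    · rw [e]; exact (Nat.find_spec h).1
    · rw [e]; exact (Nat.find_spec h).2
    · intro c hc hcx
      rw [e]; exact Nat.find_min' h ⟨hc, hcx⟩
  have hsub : D.image r ∪ B.image (fun b => l + b) ⊆ C.filter (fun c : ℕ => (c : ZMod l) ∉ K) := by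
    intro y hy
    rcases Finset.mem_union.1 hy with hy | hy
    · obtain ⟨x, hx, rfl⟩ := Finset.mem_image.1 hy
      obtain ⟨h1, h2, -⟩ := hr x hx
      refine Finset.mem_filter.2 ⟨h1, ?_⟩
      rw [h2]; exact (Finset.mem_sdiff.1 hx).2
    · obtain ⟨b, hb, rfl⟩ := Finset.mem_image.1 hy
      refine Finset.mem_filter.2 ⟨Finset.add_mem_add hl hb, ?_⟩
      have : ((l + b : ℕ) : ZMod l) = (b : ZMod l) := by
        rw [Nat.cast_add, ZMod.natCast_self, zero_add]
      show ((l + b : ℕ) : ZMod l) ∉ K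
      rw [this]; exact hK b hb
  have hdisj : Disjoint (D.image r) (B.image (fun b => l + b)) := by
    rw [Finset.disjoint_left]
    intro y hy hy'
    obtain ⟨x, hx, rfl⟩ := Finset.mem_image.1 hy
    obtain ⟨b, hb, hbx⟩ := Finset.mem_image.1 hy'
    obtain ⟨h1, h2, h3⟩ := hr x hx
    have hbx' : l + b = r x := hbx
    have hbC : b ∈ C := by
      have := Finset.add_mem_add h0 hb
      rwa [zero_add] at this
    have : (b : ZMod l) = x := by
      rw [← h2, ← hbx', Nat.cast_add, ZMod.natCast_self, zero_add]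
    have := h3 b hbC this
    omega
  have hinj : Set.InjOn r D := by
    intro x hx y hy hxy
    rw [← (hr x hx).2.1, ← (hr y hy).2.1, hxy]
  calc D.card + B.card = (D.image r).card + (B.image (fun b => l + b)).card := by
        rw [Finset.card_image_of_injOn hinj, Finset.card_image_of_injective _ (add_right_injective l)]
    _ = (D.image r ∪ B.image (fun b => l + b)).card := (Finset.card_union_of_disjoint hdisj).symm
    _ ≤ _ := Finset.card_le_card hsub

theorem cast_inj_lt (l : ℕ) {a b : ℕ} (ha : a < l) (hb : b < l) (h : (a : ZMod l) = (b : ZMod l)) :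
    a = b := by
  have := (ZMod.natCast_eq_natCast_iff a b l).1 h
  exact Nat.ModEq.eq_of_lt_of_lt this ha hb

/-- **Theorem of Lev and Smeliansky.** -/
theorem lev_smeliansky (A B : Finset ℕ) (l : ℕ) (hlpos : 0 < l) (hl : l ∈ A)
    (hA : ∀ a ∈ A, a ≤ l) (hB : ∀ b ∈ B, b ≤ l) (h0A : 0 ∈ A) (h0B : 0 ∈ B)
    (hg : ∀ d, (∀ a ∈ A, d ∣ a) → d = 1) :
    l + B.card ≤ (A + B).card ∨
      A.card + 2 * B.card ≤ (A + B).card + 2 + (if l ∈ B then 1 else 0) := by
  classical
  have : NeZero l := ⟨hlpos.ne'⟩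
  set φ : ℕ → ZMod l := fun c => (c : ZMod l) with hφ
  set A' := A.image φ with hA'
  set B' := B.image φ with hB'
  set C := A + B with hC
  set C' := C.image φ with hC'
  have hφadd : ∀ x y, φ (x + y) = φ x + φ y := fun x y => Nat.cast_add x y
  have hφl : φ l = φ 0 := by simp [hφ]
  have hC'eq : C' = A' + B' := by
    ext y
    constructor
    · intro hy
      obtain ⟨c, hc, rfl⟩ := Finset.mem_image.1 hy
      obtain ⟨a, ha, b, hb, rfl⟩ := Finset.mem_add.1 hc
      rw [hφadd]
      exact Finset.add_mem_add (Finset.mem_image_of_mem _ ha) (Finset.mem_image_of_mem _ hb)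
    · intro hy
      obtain ⟨p, hp, q, hq, rfl⟩ := Finset.mem_add.1 hy
      obtain ⟨a, ha, rfl⟩ := Finset.mem_image.1 hp
      obtain ⟨b, hb, rfl⟩ := Finset.mem_image.1 hq
      rw [← hφadd]
      exact Finset.mem_image_of_mem _ (Finset.add_mem_add ha hb)
  have hcardgen : ∀ S : Finset ℕ, (∀ s ∈ S, s ≤ l) → 0 ∈ S →
      (S.image φ).card + (if l ∈ S then 1 else 0) = S.card := by
    intro S hS h0
    have himg : S.image φ = (S.erase l).image φ := by
      ext y
      constructor
      · intro hy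
        obtain ⟨s, hs, rfl⟩ := Finset.mem_image.1 hy
        by_cases hsl : s = l
        · rw [hsl, hφl]
          exact Finset.mem_image_of_mem _ (Finset.mem_erase.2 ⟨hlpos.ne, h0⟩)
        · exact Finset.mem_image_of_mem _ (Finset.mem_erase.2 ⟨hsl, hs⟩)
      · intro hy
        obtain ⟨s, hs, rfl⟩ := Finset.mem_image.1 hy
        exact Finset.mem_image_of_mem _ (Finset.mem_of_mem_erase hs)
    have hinj : Set.InjOn φ (S.erase l : Finset ℕ) := by
      intro x hx y hy hxy
      have hx' := Finset.mem_erase.1 (Finset.mem_coe.1 hx)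
      have hy' := Finset.mem_erase.1 (Finset.mem_coe.1 hy)
      exact cast_inj_lt l (lt_of_le_of_ne (hS x hx'.2) hx'.1) (lt_of_le_of_ne (hS y hy'.2) hy'.1) hxy
    rw [himg, Finset.card_image_of_injOn hinj]
    split_ifs with h
    · exact Finset.card_erase_add_one h
    · rw [Finset.erase_eq_of_notMem h]; rfl
  have cA : A'.card + 1 = A.card := by
    have := hcardgen A hA h0A
    rwa [if_pos hl] at this
  have cB : B'.card + (if l ∈ B then 1 else 0) = B.card := hcardgen B hB h0B
  have h0A' : (0 : ZMod l) ∈ A' := Finset.mem_image.2 ⟨0, h0A, by simp [hφ]⟩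
  have h0B' : (0 : ZMod l) ∈ B' := Finset.mem_image.2 ⟨0, h0B, by simp [hφ]⟩
  set H := per C' with hH
  by_cases huniv : C' = Finset.univ
  · left
    have h := count_outside l A B hl h0A ∅ (fun b _ => Finset.notMem_empty _)
    rw [Finset.sdiff_empty] at h
    have h1 : (C.image (fun c : ℕ => (c : ZMod l))).card = l := by
      have : C.image (fun c : ℕ => (c : ZMod l)) = Finset.univ := huniv
      rw [this, Finset.card_univ, ZMod.card]
    rw [h1] at h
    exact h.trans (Finset.card_le_card (Finset.filter_subset _ _))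
  right
  -- a class of the sumset that does not meet B'
  have hcex : ∃ c ∈ C', c ∉ sat H B' := by
    by_contra hcon
    push Not at hcon
    apply huniv
    have hS : ∀ x ∈ sat H B', ∀ a ∈ A', a + x ∈ C' := by
      intro x hx a ha
      obtain ⟨b, hb, hxb⟩ := mem_sat.1 hx
      have e : a + x = (x - b) + (a + b) := by abel
      rw [e]
      refine (mem_per.1 hxb _).2 ?_
      rw [hC'eq]
      exact Finset.add_mem_add ha hb
    have hper : ∀ a ∈ A', a ∈ per (sat H B') := fun a ha =>
      mem_per_of_subset (fun x hx => hcon _ (hS x hx a ha))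
    have hall := mem_of_gcd l A hl hg (per (sat H B')) (fun a ha => hper _ (Finset.mem_image_of_mem _ ha))
    rw [Finset.eq_univ_iff_forall]
    intro x
    have h0S : (0 : ZMod l) ∈ sat H B' := subset_sat H B' h0B'
    have hx : x ∈ sat H B' := by
      have := (mem_per.1 (hall x) 0).2 h0S
      rwa [add_zero] at this
    have := hS x hx 0 h0A'
    rwa [zero_add] at this
  obtain ⟨c, hcC, hcS⟩ := hcex
  obtain ⟨a, ha, b, hb, hab⟩ : ∃ a ∈ A', ∃ b ∈ B', a + b = c := by
    rw [hC'eq] at hcC
    exact Finset.mem_add.1 hcC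
  have hkn := kneser A' B' ⟨0, h0A'⟩ ⟨0, h0B'⟩
  rw [← hC'eq, ← hH] at hkn
  -- cosets
  set K : Finset (ZMod l) := Finset.univ.filter (fun x => x - c ∈ H) with hK
  have hcoset : ∀ z : ZMod l, (Finset.univ.filter (fun x => x - z ∈ H)).card = Nat.card H := by
    intro z
    rw [Nat.card_eq_fintype_card, Fintype.card_subtype]
    refine Finset.card_bij (fun x _ => x - z) ?_ ?_ ?_
    · intro x hx
      exact Finset.mem_filter.2 ⟨Finset.mem_univ _, (Finset.mem_filter.1 hx).2⟩
    · intro x _ y _ hxy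
      exact sub_left_injective hxy
    · intro y hy
      exact ⟨y + z, Finset.mem_filter.2 ⟨Finset.mem_univ _, by
        rw [add_sub_cancel_right]; exact (Finset.mem_filter.1 hy).2⟩, add_sub_cancel_right y z⟩
  have hKB : ∀ x ∈ B, (x : ZMod l) ∉ K := by
    intro x hx hxK
    apply hcS
    refine mem_sat.2 ⟨φ x, Finset.mem_image_of_mem _ hx, ?_⟩
    have := H.neg_mem (Finset.mem_filter.1 hxK).2
    rwa [neg_sub] at this
  have hout := count_outside l A B hl h0A K hKB
  have hCK : C'.card ≤ (C' \ K).card + Nat.card H := by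
    have h1 : C'.card ≤ (C' \ K).card + K.card := Finset.card_le_card_sdiff_add_card
    rw [hcoset c] at h1
    exact h1
  -- the classes of a and of b
  have hclass : ∀ (S : Finset ℕ) (z : ZMod l), z ∈ S.image φ →
      Nat.card H + (S.image φ).card ≤
        (S.filter (fun x => φ x - z ∈ H)).card + (sat H (S.image φ)).card := by
    intro S z hz
    set S' := S.image φ with hS'
    set F := Finset.univ.filter (fun x : ZMod l => x - z ∈ H) with hF
    have hFs : F ⊆ sat H S' := by
      intro x hx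
      exact mem_sat.2 ⟨z, hz, (Finset.mem_filter.1 hx).2⟩
    have h1 : (F \ S').card ≤ (sat H S' \ S').card :=
      Finset.card_le_card (Finset.sdiff_subset_sdiff hFs (Finset.Subset.refl _))
    have h2 : (sat H S' \ S').card + S'.card = (sat H S').card :=
      Finset.card_sdiff_add_card_eq_card (subset_sat H S')
    have h3 : (F \ S').card + (F ∩ S').card = F.card := Finset.card_sdiff_add_card_inter F S'
    have h4 : (F ∩ S').card ≤ (S.filter (fun x => φ x - z ∈ H)).card := by
      have : F ∩ S' ⊆ (S.filter (fun x => φ x - z ∈ H)).image φ := by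
        intro x hx
        obtain ⟨hx1, hx2⟩ := Finset.mem_inter.1 hx
        obtain ⟨s, hs, rfl⟩ := Finset.mem_image.1 hx2
        exact Finset.mem_image_of_mem _ (Finset.mem_filter.2 ⟨hs, (Finset.mem_filter.1 hx1).2⟩)
      exact (Finset.card_le_card this).trans Finset.card_image_le
    have h5 : F.card = Nat.card H := hcoset z
    omega
  have hclA0 := hclass A a ha
  have hclB0 := hclass B b hb
  set AK := A.filter (fun x => φ x - a ∈ H) with hAK
  set BK := B.filter (fun x => φ x - b ∈ H) with hBK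
  have hAKne : AK.Nonempty := by
    obtain ⟨x, hx, hxa⟩ := Finset.mem_image.1 ha
    exact ⟨x, Finset.mem_filter.2 ⟨hx, by rw [hxa, sub_self]; exact H.zero_mem⟩⟩
  have hBKne : BK.Nonempty := by
    obtain ⟨x, hx, hxb⟩ := Finset.mem_image.1 hb
    exact ⟨x, Finset.mem_filter.2 ⟨hx, by rw [hxb, sub_self]; exact H.zero_mem⟩⟩
  have hsumK : AK + BK ⊆ C.filter (fun x : ℕ => ¬ (x : ZMod l) ∉ K) := by
    intro y hy
    obtain ⟨p, hp, q, hq, rfl⟩ := Finset.mem_add.1 hy
    obtain ⟨hp1, hp2⟩ := Finset.mem_filter.1 hp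
    obtain ⟨hq1, hq2⟩ := Finset.mem_filter.1 hq
    refine Finset.mem_filter.2 ⟨Finset.add_mem_add hp1 hq1, ?_⟩
    rw [not_not]
    refine Finset.mem_filter.2 ⟨Finset.mem_univ _, ?_⟩
    have e : ((p + q : ℕ) : ZMod l) - c = (φ p - a) + (φ q - b) := by
      rw [← hab]
      show φ (p + q) - (a + b) = _
      rw [hφadd]; abel
    rw [e]
    exact H.add_mem hp2 hq2
  have hCD : AK.card + BK.card - 1 ≤ (AK + BK).card :=
    cauchy_davenport_add_of_linearOrder_isCancelAdd hAKne hBKne
  have hin : (AK + BK).card ≤ (C.filter (fun x : ℕ => ¬ (x : ZMod l) ∉ K)).card :=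
    Finset.card_le_card hsumK
  have hsplit : (C.filter (fun x : ℕ => (x : ZMod l) ∉ K)).card +
      (C.filter (fun x : ℕ => ¬ (x : ZMod l) ∉ K)).card = C.card :=
    Finset.card_filter_add_card_filter_not _
  have hAKpos := hAKne.card_pos
  have hout' : (C' \ K).card + B.card ≤ (C.filter (fun x : ℕ => (x : ZMod l) ∉ K)).card := hout
  have hHpos : 0 < Nat.card H := Nat.card_pos
  have hclA : Nat.card H + A'.card ≤ AK.card + (sat H A').card := hclA0
  have hclB : Nat.card H + B'.card ≤ BK.card + (sat H B').card := hclB0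
  clear hclA0 hclB0 hout
  omega

end Pool.Agent.LibA338c1f
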