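import Pool.Agent.Lib_MP_a338c1_f.SearchSound

/-!
# Runs of the search: `M = 23, 24, 25, 26`
-/

namespace Pool.Agent.LibA338c1f
namespace Search

theorem run23 : srch 23 13806 414 (leafO 2730) 11 1 0 0 1 1 1 (2 ^ 23) (2 ^ 23) (2 ^ 23) =
    true := by decide +kernel

theorem T2_23 (X Y Z : Finset ℕ) (hN : Nest 23 X Y Z)
    (hfar : ∃ x ∈ X, x % 2 = 1 ∧ 2 * x < 23) : T2 23 X Y Z :=
  t2_odd (h := 11) (K := 13806) (c := 414) (lo := 2730) (by norm_num) (by norm_num)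
    (by decide) run23 X Y Z hN hfar

theorem run24 : srch 24 14708 428 (leafE 11 14708 428) 11 1 (428 + 16) 1 1 1 1 (2 ^ 24)
    (2 ^ 24) (2 ^ 24) = true := by decide +kernel

theorem T2_24 (X Y Z : Finset ℕ) (hN : Nest 24 X Y Z) : T2 24 X Y Z :=
  t2_even (h := 11) (K := 14708) (c := 428) (by norm_num) (by norm_num) run24 X Y Z hN

theorem run25 : srch 25 16352 442 (leafO 2730) 12 1 0 0 1 1 1 (2 ^ 25) (2 ^ 25) (2 ^ 25) =
    true := by decide +kernel

theorem T2_25 (X Y Z : Finset ℕ) (hN : Nest 25 X Y Z)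
    (hfar : ∃ x ∈ X, x % 2 = 1 ∧ 2 * x < 25) : T2 25 X Y Z :=
  t2_odd (h := 12) (K := 16352) (c := 442) (lo := 2730) (by norm_num) (by norm_num)
    (by decide) run25 X Y Z hN hfar

end Search
end Pool.Agent.LibA338c1f
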