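import Pool.Agent.Lib_MP_a338c1_f.SearchSound

/-!
# Runs of the search: `M = 26`
-/

namespace Pool.Agent.LibA338c1f
namespace Search

theorem run26 : srch 26 17334 456 (leafE 12 17334 456) 12 1 (456 + 16) 1 1 1 1 (2 ^ 26)
    (2 ^ 26) (2 ^ 26) = true := by decide +kernel

theorem T2_26 (X Y Z : Finset ℕ) (hN : Nest 26 X Y Z) : T2 26 X Y Z :=
  t2_even (h := 12) (K := 17334) (c := 456) (by norm_num) (by norm_num) run26 X Y Z hN

end Search
end Pool.Agent.LibA338c1f
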