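import Pool.Agent.Lib_MP_a338c1_f.SearchSound

/-!
# Runs of the search: `M = 27`
-/

namespace Pool.Agent.LibA338c1f
namespace Search

theorem run27_0 :
    br3 (srch 27 19112 470 (leafO 10922) 12) 19112 (1 + 1) 0 0 1 1 1 (2 ^ 27) (2 ^ 27) (2 ^ 27) 1 (Nat.shiftLeft 1 1) (Nat.shiftLeft 1 (27 - 1)) = true := by
  decide +kernel

theorem run27_1 :
    br3 (srch 27 19112 470 (leafO 10922) 12) 19112 (1 + 1) (0 + 162 * (27 - 1 - 1)) 0 1 1 1 (2 ^ 27) (2 ^ 27) (2 ^ 27) (27 - 1) (Nat.shiftLeft 1 (27 - 1)) (Nat.shiftLeft 1 1) = true := by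
  decide +kernel

theorem run27_2 :
    br2 (srch 27 19112 470 (leafO 10922) 12) 19112 (1 + 1) (0 + (54 * (27 - 1) + (2 * 470 + (64 * 0 + 64)))) 0 1 1 1 (2 ^ 27) (2 ^ 27) (2 ^ 27) 1 (Nat.shiftLeft 1 1) (Nat.shiftLeft 1 (27 - 1)) = true := by
  decide +kernel

theorem run27_3 :
    br2 (srch 27 19112 470 (leafO 10922) 12) 19112 (1 + 1) (0 + (54 * (3 * (27 - 1) - 2 * 1) + (2 * 470 + (64 * 0 + 64)))) 0 1 1 1 (2 ^ 27) (2 ^ 27) (2 ^ 27) (27 - 1) (Nat.shiftLeft 1 (27 - 1)) (Nat.shiftLeft 1 1) = true := by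
  decide +kernel

theorem run27_4 :
    br11 (srch 27 19112 470 (leafO 10922) 12) 19112 (1 + 1) (0 + (54 * (2 * (27 - 1) - 1) + (2 * 470 + (64 * 0 + 64)))) 0 1 1 1 (2 ^ 27) (2 ^ 27) (2 ^ 27) 1 (Nat.shiftLeft 1 1) (Nat.shiftLeft 1 (27 - 1)) (27 - 1) = true := by
  decide +kernel

theorem run27_5 :
    br1 (srch 27 19112 470 (leafO 10922) 12) 19112 (1 + 1) (0 + (108 * (27 - 1) + (4 * 470 + (128 * 0 + 256)))) 0 1 1 1 (2 ^ 27) (2 ^ 27) (2 ^ 27) 1 (Nat.shiftLeft 1 1) (Nat.shiftLeft 1 (27 - 1)) = true := by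
  decide +kernel

theorem run27_6 :
    br1 (srch 27 19112 470 (leafO 10922) 12) 19112 (1 + 1) (0 + (54 * (3 * (27 - 1) - 1) + (4 * 470 + (128 * 0 + 256)))) 0 1 1 1 (2 ^ 27) (2 ^ 27) (2 ^ 27) (27 - 1) (Nat.shiftLeft 1 (27 - 1)) (Nat.shiftLeft 1 1) = true := by
  decide +kernel

theorem run27_7 :
    br0 (srch 27 19112 470 (leafO 10922) 12) 19112 (1 + 1) (0 + (162 * (27 - 1) + (6 * 470 + (192 * 0 + 576)))) 0 1 1 1 (2 ^ 27) (2 ^ 27) (2 ^ 27) = true := by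
  decide +kernel

theorem run27 : srch 27 19112 470 (leafO 10922) 13 1 0 0 1 1 1 (2 ^ 27) (2 ^ 27) (2 ^ 27) = true :=
  srch_succ.2 ⟨run27_0, run27_1, run27_2, run27_3, run27_4, run27_5, run27_6, run27_7⟩

theorem T2_27 (X Y Z : Finset ℕ) (hN : Nest 27 X Y Z)
    (hfar : ∃ x ∈ X, x % 2 = 1 ∧ 2 * x < 27) : T2 27 X Y Z :=
  t2_odd (h := 13) (K := 19112) (c := 470) (lo := 10922) (by norm_num) (by norm_num)
    (by decide) run27 X Y Z hN hfar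

end Search
end Pool.Agent.LibA338c1f
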