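import Pool.Agent.Lib_MP_a338c1_f.SearchSound

/-!
# Runs of the search: `M = 28`
-/

namespace Pool.Agent.LibA338c1f
namespace Search

theorem run28_0 :
    br3 (srch 28 20174 484 (leafE 13 20174 484) 12) 20174 (1 + 1) (484 + 16) 1 1 1 1 (2 ^ 28) (2 ^ 28) (2 ^ 28) 1 (Nat.shiftLeft 1 1) (Nat.shiftLeft 1 (28 - 1)) = true := by
  decide +kernel

theorem run28_1 :
    br3 (srch 28 20174 484 (leafE 13 20174 484) 12) 20174 (1 + 1) ((484 + 16) + 162 * (28 - 1 - 1)) 1 1 1 1 (2 ^ 28) (2 ^ 28) (2 ^ 28) (28 - 1) (Nat.shiftLeft 1 (28 - 1)) (Nat.shiftLeft 1 1) = true := by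
  decide +kernel

theorem run28_2 :
    br2 (srch 28 20174 484 (leafE 13 20174 484) 12) 20174 (1 + 1) ((484 + 16) + (54 * (28 - 1) + (2 * 484 + (64 * 1 + 64)))) 1 1 1 1 (2 ^ 28) (2 ^ 28) (2 ^ 28) 1 (Nat.shiftLeft 1 1) (Nat.shiftLeft 1 (28 - 1)) = true := by
  decide +kernel

theorem run28_3 :
    br2 (srch 28 20174 484 (leafE 13 20174 484) 12) 20174 (1 + 1) ((484 + 16) + (54 * (3 * (28 - 1) - 2 * 1) + (2 * 484 + (64 * 1 + 64)))) 1 1 1 1 (2 ^ 28) (2 ^ 28) (2 ^ 28) (28 - 1) (Nat.shiftLeft 1 (28 - 1)) (Nat.shiftLeft 1 1) = true := by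
  decide +kernel

theorem run28_4 :
    br11 (srch 28 20174 484 (leafE 13 20174 484) 12) 20174 (1 + 1) ((484 + 16) + (54 * (2 * (28 - 1) - 1) + (2 * 484 + (64 * 1 + 64)))) 1 1 1 1 (2 ^ 28) (2 ^ 28) (2 ^ 28) 1 (Nat.shiftLeft 1 1) (Nat.shiftLeft 1 (28 - 1)) (28 - 1) = true := by
  decide +kernel

theorem run28_5 :
    br1 (srch 28 20174 484 (leafE 13 20174 484) 12) 20174 (1 + 1) ((484 + 16) + (108 * (28 - 1) + (4 * 484 + (128 * 1 + 256)))) 1 1 1 1 (2 ^ 28) (2 ^ 28) (2 ^ 28) 1 (Nat.shiftLeft 1 1) (Nat.shiftLeft 1 (28 - 1)) = true := by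
  decide +kernel

theorem run28_6 :
    br1 (srch 28 20174 484 (leafE 13 20174 484) 12) 20174 (1 + 1) ((484 + 16) + (54 * (3 * (28 - 1) - 1) + (4 * 484 + (128 * 1 + 256)))) 1 1 1 1 (2 ^ 28) (2 ^ 28) (2 ^ 28) (28 - 1) (Nat.shiftLeft 1 (28 - 1)) (Nat.shiftLeft 1 1) = true := by
  decide +kernel

theorem run28_7 :
    br0 (srch 28 20174 484 (leafE 13 20174 484) 12) 20174 (1 + 1) ((484 + 16) + (162 * (28 - 1) + (6 * 484 + (192 * 1 + 576)))) 1 1 1 1 (2 ^ 28) (2 ^ 28) (2 ^ 28) = true := by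
  decide +kernel

theorem run28 : srch 28 20174 484 (leafE 13 20174 484) 13 1 (484 + 16) 1 1 1 1 (2 ^ 28) (2 ^ 28) (2 ^ 28) = true :=
  srch_succ.2 ⟨run28_0, run28_1, run28_2, run28_3, run28_4, run28_5, run28_6, run28_7⟩

theorem T2_28 (X Y Z : Finset ℕ) (hN : Nest 28 X Y Z) : T2 28 X Y Z :=
  t2_even (h := 13) (K := 20174) (c := 484) (by norm_num) (by norm_num) run28 X Y Z hN

end Search
end Pool.Agent.LibA338c1f
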