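import Pool.Agent.Lib_MP_a338c1_f.RunA
import Pool.Agent.Lib_MP_a338c1_f.RunB
import Pool.Agent.Lib_MP_a338c1_f.RunC
import Pool.Agent.Lib_MP_a338c1_f.RunD
import Pool.Agent.Lib_MP_a338c1_f.RunE

/-!
# The main statement from the far case
-/

namespace Pool.Agent.LibA338c1f

variable {M : ℕ} {X : Fin 3 → Finset ℕ}

/-- The exact parity structure. -/
theorem exact_parity {h : ℕ} (hh : 1 ≤ h) (htri : Tri (2 * h + 1) X)
    (hX : ∀ i x, x ∈ X i ↔ (x < 2 * h + 1 ∧ x % 2 = 0)) (a : Fin 3 → ℕ) (k : ℕ)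
    (hc : Certs k (2 * h + 1) X a) : 11 * (2 * h + 1 + ∑ i, a i + 1) ≤ 24 * k + 5 := by
  have hmf : ∀ i t, NP.mf h X i t = 0 := by
    intro i t
    unfold NP.mf uu
    rw [if_neg]
    rintro ⟨h1, h2⟩
    exact h2 ((hX i (2 * t)).2 ⟨by omega, by omega⟩)
  have hef : ∀ i t, NP.ef h X i t = 0 := by
    intro i t
    unfold NP.ef
    rw [if_neg]
    rintro ⟨h1, h2⟩
    have := ((hX i _).1 h2).2
    omega
  have hmu : ∀ i t, NP.mu (NP.mf h X) i t = 0 := by
    intro i t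
    unfold NP.mu
    rw [hmf, hmf]
    norm_num
  have hOm : ∀ c T, NP.Om (NP.mf h X) c T = 0 := by
    intro c T
    unfold NP.Om NP.ww
    refine Finset.sum_eq_zero fun i _ => Finset.sum_eq_zero fun t _ => ?_
    rw [hmu]
    split_ifs <;> rfl
  have hdd : ∀ c T, NP.dd h (NP.mf h X) (NP.ef h X) c T = 0 := by
    intro c T
    unfold NP.dd
    refine Finset.sum_eq_zero fun i _ => Finset.sum_eq_zero fun t _ => ?_
    rw [hmu, hef]
    split_ifs <;> ring
  have hM' : ((2 * h + 1 : ℕ) : ℚ) = 2 * h + 1 := by push_cast; ring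
  have hpj := NP.pp_jj htri a (2 * h + 1) le_rfl
  rw [hOm, hdd] at hpj
  refine hc.bound (by omega) (b := ((2 * h + 1 : ℕ) : ℚ)) (e := 0) le_rfl (Nat.cast_nonneg _) ?_
  -- parity indicators
  have hE : ∀ i, ∃ E : ℚ, (E = 0 ∨ E = 1) ∧
      ((min (a i) (2 * h + 1) : ℕ) : ℚ) = 2 * (((min (a i) (2 * h + 1) + 1) / 2 : ℕ) : ℚ) - 1 + E := by
    intro i
    rcases Nat.even_or_odd' (min (a i) (2 * h + 1)) with ⟨k, hk | hk⟩
    · refine ⟨1, Or.inr rfl, ?_⟩
      rw [hk, show (2 * k + 1) / 2 = k by omega]; push_cast; ring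
    · refine ⟨0, Or.inl rfl, ?_⟩
      rw [hk, show (2 * k + 1 + 1) / 2 = k + 1 by omega]; push_cast; ring
  choose E hE01 hEeq using hE
  have hEn : ∀ i, 0 ≤ E i := fun i => by rcases hE01 i with h | h <;> rw [h] <;> norm_num
  have hσ : ∑ i, ((min (a i) (2 * h + 1) : ℕ) : ℚ) ≤ ∑ i, (a i : ℚ) :=
    Finset.sum_le_sum fun i _ => by exact_mod_cast min_le_left _ _
  rw [Finset.sum_congr rfl fun i _ => hEeq i] at hσ
  simp only [Fin.sum_univ_three] at hσ hpj ⊢
  generalize (((min (a 0) (2 * h + 1) + 1) / 2 : ℕ) : ℚ) = p0 at *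
  generalize (((min (a 1) (2 * h + 1) + 1) / 2 : ℕ) : ℚ) = p1 at *
  generalize (((min (a 2) (2 * h + 1) + 1) / 2 : ℕ) : ℚ) = p2 at *
  have n0 := hEn 0
  have n1 := hEn 1
  have n2 := hEn 2
  have hid := NP.ident (2 * h + 1) (2 * h + 1) p0 p1 p2 (E 0 + E 1 + E 2) 0 0
    ((12 * 0 - 12 - 3 * (E 0 + E 1 + E 2) - (3 * (2 * (h : ℚ) + 1) - 6 * (p0 + p1 + p2))) / 12) h rfl
    (by ring)
  have h1h : (1 : ℚ) ≤ h := by exact_mod_cast hh
  have hpos : 0 < (2 * (h : ℚ) + 1 - 6 * p0) ^ 2 + (2 * h + 1 - 6 * p1) ^ 2 +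
      (2 * h + 1 - 6 * p2) ^ 2 + 12 * (2 * h + 1) - 27 + 12 * (2 * h + 1) * (E 0 + E 1 + E 2) := by
    have s0 := sq_nonneg (2 * (h : ℚ) + 1 - 6 * p0)
    have s1 := sq_nonneg (2 * (h : ℚ) + 1 - 6 * p1)
    have s2 := sq_nonneg (2 * (h : ℚ) + 1 - 6 * p2)
    have s3 : 0 ≤ 12 * (2 * (h : ℚ) + 1) * (E 0 + E 1 + E 2) := by positivity
    linarith
  have hmul : (2 * (h : ℚ) + 1 + 3 * (2 * h + 1)) * (2 * (p0 + p1 + p2) - 3 + (E 0 + E 1 + E 2)) ≤
      (2 * (h : ℚ) + 1 + 3 * (2 * h + 1)) * ((a 0 : ℚ) + a 1 + a 2) :=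
    mul_le_mul_of_nonneg_left (by linarith) (by positivity)
  rw [hM'] at hpj ⊢
  generalize JJ (2 * h + 1) X a (2 * h + 1) 0 = J at *
  generalize PP (2 * h + 1) X = P at *
  nlinarith

/-- The small parity structure from the level sets. -/
theorem parity_of_lev {n : ℕ} (h1 : ∀ x, x ∈ lev M X 1 ↔ (x < n ∧ x % 2 = 0))
    (h3 : ∀ x, x ∈ lev M X 3 ↔ (x < n ∧ x % 2 = 0)) (hle : ∀ i, ∀ x ∈ X i, x ≤ M) :
    ∀ i x, x ∈ X i ↔ (x < n ∧ x % 2 = 0) := by
  intro i x
  constructor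
  · intro hx
    rw [← h1]
    refine Finset.mem_filter.2 ⟨Finset.mem_range.2 (by have := hle i x hx; omega), ?_⟩
    unfold cnt
    have : (if x ∈ X i then 1 else 0) ≤ ∑ j, (if x ∈ X j then 1 else 0) :=
      Finset.single_le_sum (f := fun j => if x ∈ X j then 1 else 0) (fun j _ => Nat.zero_le _)
        (Finset.mem_univ i)
    rw [if_pos hx] at this
    exact this
  · intro hx
    rw [← h3] at hx
    have := (Finset.mem_filter.1 hx).2
    by_contra hn
    unfold cnt at this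
    have h4 : ∑ j, (if x ∈ X j then 1 else 0) < 3 := by
      calc ∑ j, (if x ∈ X j then 1 else 0) < ∑ j : Fin 3, 1 := by
            refine Finset.sum_lt_sum (fun j _ => by split_ifs <;> omega) ⟨i, Finset.mem_univ i, ?_⟩
            rw [if_neg hn]; omega
        _ = 3 := by simp
    omega

/-- The bound near parity, in terms of the level set. -/
theorem bound_near (htri : Tri M X) (hM : 13 ≤ M) (hM2 : M % 2 = 1) {k : ℕ} {a : Fin 3 → ℕ}
    (hc : Certs k M X a) (hn : ¬ ∃ x ∈ lev M X 1, x % 2 = 1 ∧ 2 * x < M) :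
    11 * (M + ∑ i, a i + 1) ≤ 24 * k + 5 := by
  obtain ⟨h, rfl⟩ : ∃ h, M = 2 * h + 1 := ⟨M / 2, by omega⟩
  refine NP.near_parity (by omega) htri (fun i x hx hx2 => ?_) a k hc
  by_contra hcon
  refine hn ⟨x, ?_, hx2, by omega⟩
  refine Finset.mem_filter.2 ⟨Finset.mem_range.2 (by omega), ?_⟩
  unfold cnt
  have : (if x ∈ X i then 1 else 0) ≤ ∑ j, (if x ∈ X j then 1 else 0) :=
    Finset.single_le_sum (f := fun j => if x ∈ X j then 1 else 0) (fun j _ => Nat.zero_le _)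
      (Finset.mem_univ i)
  rw [if_pos hx] at this
  exact this

/-- The bound for the small odd `M`. -/
theorem bound_small {h : ℕ} (htri : Tri (2 * h + 1) X) {k : ℕ} {a : Fin 3 → ℕ}
    (hc : Certs k (2 * h + 1) X a)
    (hT : T2 (2 * h + 1) (lev (2 * h + 1) X 1) (lev (2 * h + 1) X 2) (lev (2 * h + 1) X 3) ∨
      ((∀ x, x ∈ lev (2 * h + 1) X 1 ↔ (x < 2 * h + 1 ∧ x % 2 = 0)) ∧
        ∀ x, x ∈ lev (2 * h + 1) X 3 ↔ (x < 2 * h + 1 ∧ x % 2 = 0))) :
    11 * (2 * h + 1 + ∑ i, a i + 1) ≤ 24 * k + 5 := by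
  rcases hT with hT | ⟨h1, h3⟩
  · exact bound_of_T2 htri (by omega) hc hT
  · have hX := parity_of_lev h1 h3 htri.le
    rcases Nat.eq_zero_or_pos h with h0 | h0
    · subst h0
      have hNest := nest_of_tri htri
      have e1 : lev (2 * 0 + 1) X 1 = {0} := by
        ext x
        rw [h1, Finset.mem_singleton]
        omega
      have e3 : lev (2 * 0 + 1) X 3 = {0} := by
        ext x
        rw [h3, Finset.mem_singleton]
        omega
      have e2 : lev (2 * 0 + 1) X 2 = {0} := by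
        refine Finset.Subset.antisymm ?_ ?_
        · rw [← e1]; exact hNest.YX
        · rw [← e3]; exact hNest.ZY
      refine bound_of_T2 htri (by omega) hc ?_
      rw [e1, e2, e3]
      unfold T2 Q1 U2
      simp
    · exact exact_parity h0 htri hX a k hc

/-- The inequality for small even `M`. -/
theorem T2_even_small (hM : 0 < M) (h29 : M < 29) (hpar : M % 2 = 0) {A B C : Finset ℕ}
    (hN : Nest M A B C) : T2 M A B C := by
  obtain rfl | rfl | rfl | rfl | rfl | rfl | rfl | rfl | rfl | rfl | rfl | rfl | rfl | rfl : M = 2 ∨ M = 4 ∨ M = 6 ∨ M = 8 ∨ M = 10 ∨ M = 12 ∨ M = 14 ∨ M = 16 ∨ M = 18 ∨ M = 20 ∨ M = 22 ∨ M = 24 ∨ M = 26 ∨ M = 28 := by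
    omega
  · exact Search.T2_2 A B C hN
  · exact Search.T2_4 A B C hN
  · exact Search.T2_6 A B C hN
  · exact Search.T2_8 A B C hN
  · exact Search.T2_10 A B C hN
  · exact Search.T2_12 A B C hN
  · exact Search.T2_14 A B C hN
  · exact Search.T2_16 A B C hN
  · exact Search.T2_18 A B C hN
  · exact Search.T2_20 A B C hN
  · exact Search.T2_22 A B C hN
  · exact Search.T2_24 A B C hN
  · exact Search.T2_26 A B C hN
  · exact Search.T2_28 A B C hN

/-- The inequality for small odd `M ≥ 13`. -/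
theorem T2_odd_small (h13 : 13 ≤ M) (h29 : M < 29) (hpar : M % 2 = 1) {A B C : Finset ℕ}
    (hN : Nest M A B C) (hn : ∃ x ∈ A, x % 2 = 1 ∧ 2 * x < M) : T2 M A B C := by
  obtain rfl | rfl | rfl | rfl | rfl | rfl | rfl | rfl : M = 13 ∨ M = 15 ∨ M = 17 ∨ M = 19 ∨ M = 21 ∨ M = 23 ∨ M = 25 ∨ M = 27 := by
    omega
  · exact Search.T2_13 A B C hN hn
  · exact Search.T2_15 A B C hN hn
  · exact Search.T2_17 A B C hN hn
  · exact Search.T2_19 A B C hN hn
  · exact Search.T2_21 A B C hN hn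
  · exact Search.T2_23 A B C hN hn
  · exact Search.T2_25 A B C hN hn
  · exact Search.T2_27 A B C hN hn

/-- **The main statement from the far case.** -/
theorem main_of_far (hfar : FarStatement) : MainStatement := by
  intro M X a k hM htri hc
  have hN := nest_of_tri htri
  rcases Nat.lt_or_ge M 29 with h29 | h29
  · rcases Nat.mod_two_eq_zero_or_one M with hpar | hpar
    · exact bound_of_T2 htri hM hc (T2_even_small hM h29 hpar hN)
    · rcases Nat.lt_or_ge M 13 with h13 | h13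
      · obtain rfl | rfl | rfl | rfl | rfl | rfl :
          M = 2 * 0 + 1 ∨ M = 2 * 1 + 1 ∨ M = 2 * 2 + 1 ∨ M = 2 * 3 + 1 ∨ M = 2 * 4 + 1 ∨
            M = 2 * 5 + 1 := by omega
        · exact bound_small (h := 0) htri hc (Search.T2_1 _ _ _ hN)
        · exact bound_small (h := 1) htri hc (Search.T2_3 _ _ _ hN)
        · exact bound_small (h := 2) htri hc (Search.T2_5 _ _ _ hN)
        · exact bound_small (h := 3) htri hc (Search.T2_7 _ _ _ hN)
        · exact bound_small (h := 4) htri hc (Search.T2_9 _ _ _ hN)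
        · exact bound_small (h := 5) htri hc (Search.T2_11 _ _ _ hN)
      · by_cases hn : ∃ x ∈ lev M X 1, x % 2 = 1 ∧ 2 * x < M
        · exact bound_of_T2 htri hM hc (T2_odd_small h13 h29 hpar hN hn)
        · exact bound_near htri h13 hpar hc hn
  · by_cases hn : M % 2 = 0 ∨ ∃ x ∈ lev M X 1, x % 2 = 1 ∧ 2 * x < M
    · exact bound_of_T2 htri hM hc (hfar M _ _ _ h29 hN hn)
    · push Not at hn
      refine bound_near htri (by omega) (by omega) hc ?_
      rintro ⟨x, hx, hx1, hx2⟩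
      have := hn.2 x hx hx1
      omega

end Pool.Agent.LibA338c1f
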