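import Pool.Agent.Lib_MP_a338c1_f.Reduce

/-!
# The case near parity: `M` odd and no small odd line unused
-/

namespace Pool.Agent.LibA338c1f
namespace NP

/-- The combinatorial data near parity. -/
structure Data (h : ℕ) (m ε : Fin 3 → ℕ → ℚ) : Prop where
  m01 : ∀ i t, m i t = 0 ∨ m i t = 1
  m0 : ∀ i, m i 0 = 0
  e01 : ∀ i t, ε i t = 0 ∨ ε i t = 1
  refl : ∀ i t, ε i t = 1 → ∀ s ≤ t, 1 ≤ m (i + 1) s + m (i + 2) (t - s)
  small : ∀ i t, ε i t = 1 → 1 ≤ t ∧ 2 * t ≤ h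

/-- half sums -/
def mu (m : Fin 3 → ℕ → ℚ) (i : Fin 3) (t : ℕ) : ℚ := (m (i + 1) t + m (i + 2) t) / 2

/-- partial sums -/
def om (m : Fin 3 → ℕ → ℚ) (i : Fin 3) (T : ℕ) : ℚ := ∑ t ∈ Finset.range (T + 1), mu m i t

/-- truncated partial sums -/
def ww (m : Fin 3 → ℕ → ℚ) (c : Fin 3 → ℕ) (i : Fin 3) (T : ℕ) : ℚ :=
  ∑ t ∈ Finset.range (T + 1), if t ≤ c i then mu m i t else 0

variable {h : ℕ} {m ε : Fin 3 → ℕ → ℚ}

theorem Data.m_nonneg (hd : Data h m ε) (i : Fin 3) (t : ℕ) : 0 ≤ m i t := by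
  rcases hd.m01 i t with h | h <;> rw [h] <;> norm_num

theorem Data.m_le (hd : Data h m ε) (i : Fin 3) (t : ℕ) : m i t ≤ 1 := by
  rcases hd.m01 i t with h | h <;> rw [h] <;> norm_num

theorem Data.mu_nonneg (hd : Data h m ε) (i : Fin 3) (t : ℕ) : 0 ≤ mu m i t := by
  have h1 := hd.m_nonneg (i + 1) t
  have h2 := hd.m_nonneg (i + 2) t
  unfold mu; linarith

theorem Data.mu_le (hd : Data h m ε) (i : Fin 3) (t : ℕ) : mu m i t ≤ 1 := by
  have h1 := hd.m_le (i + 1) t
  have h2 := hd.m_le (i + 2) t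
  unfold mu; linarith

theorem f11 (i : Fin 3) : i + 1 + 1 = i + 2 := by revert i; decide
theorem f12 (i : Fin 3) : i + 1 + 2 = i := by revert i; decide
theorem f21 (i : Fin 3) : i + 2 + 1 = i := by revert i; decide
theorem f22 (i : Fin 3) : i + 2 + 2 = i + 1 := by revert i; decide

theorem Data.mu_tri (hd : Data h m ε) (i : Fin 3) (t : ℕ) :
    mu m i t ≤ mu m (i + 1) t + mu m (i + 2) t := by
  have h1 := hd.m_nonneg i t
  unfold mu
  rw [f11, f12, f21, f22]
  linarith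

theorem Data.om_tri (hd : Data h m ε) (i : Fin 3) (t : ℕ) :
    om m i t ≤ om m (i + 1) t + om m (i + 2) t := by
  unfold om
  rw [← Finset.sum_add_distrib]
  exact Finset.sum_le_sum fun s _ => hd.mu_tri i s

theorem Data.om_ge_mu (hd : Data h m ε) (i : Fin 3) (t : ℕ) : mu m i t ≤ om m i t := by
  unfold om
  exact Finset.single_le_sum (f := fun s => mu m i s) (fun s _ => hd.mu_nonneg i s)
    (Finset.mem_range.2 (Nat.lt_succ_self t))

theorem Data.ww_nonneg (hd : Data h m ε) (c : Fin 3 → ℕ) (i : Fin 3) (t : ℕ) :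
    0 ≤ ww m c i t := by
  unfold ww
  refine Finset.sum_nonneg fun s _ => ?_
  split_ifs
  · exact hd.mu_nonneg i s
  · exact le_refl _

theorem ww_eq_om (c : Fin 3 → ℕ) (i : Fin 3) (t : ℕ) (ht : t ≤ c i) : ww m c i t = om m i t := by
  unfold ww om
  refine Finset.sum_congr rfl fun s hs => ?_
  rw [if_pos]
  have := Finset.mem_range.1 hs
  omega

theorem ww_succ (c : Fin 3 → ℕ) (i : Fin 3) (t : ℕ) :
    ww m c i (t + 1) = ww m c i t + if t + 1 ≤ c i then mu m i (t + 1) else 0 := by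
  unfold ww
  rw [Finset.sum_range_succ]

theorem Data.e_mu (hd : Data h m ε) (i : Fin 3) (t : ℕ) (he : ε i t = 1) :
    m (i + 1) t = 1 ∧ m (i + 2) t = 1 := by
  have h1 := hd.refl i t he 0 (Nat.zero_le _)
  have h2 := hd.refl i t he t le_rfl
  rw [Nat.sub_zero, hd.m0] at h1
  rw [Nat.sub_self, hd.m0] at h2
  constructor
  · rcases hd.m01 (i + 1) t with h | h
    · rw [h] at h2; norm_num at h2
    · exact h
  · rcases hd.m01 (i + 2) t with h | h
    · rw [h] at h1; norm_num at h1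
    · exact h

theorem Data.e_le_mu (hd : Data h m ε) (i : Fin 3) (t : ℕ) : ε i t ≤ mu m i t := by
  rcases hd.e01 i t with he | he
  · rw [he]; exact hd.mu_nonneg i t
  · obtain ⟨h1, h2⟩ := hd.e_mu i t he
    unfold mu
    rw [he, h1, h2]; norm_num

theorem Data.e_om (hd : Data h m ε) (i : Fin 3) (t : ℕ) (he : ε i t = 1) :
    (t : ℚ) + 1 ≤ 2 * om m i t := by
  have h1 : ∑ s ∈ Finset.range (t + 1), (1 : ℚ) ≤
      ∑ s ∈ Finset.range (t + 1), (m (i + 1) s + m (i + 2) (t - s)) :=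
    Finset.sum_le_sum fun s hs => hd.refl i t he s (by have := Finset.mem_range.1 hs; omega)
  have h2 : ∑ s ∈ Finset.range (t + 1), m (i + 2) (t - s) =
      ∑ s ∈ Finset.range (t + 1), m (i + 2) s := by
    have := Finset.sum_range_reflect (fun s => m (i + 2) s) (t + 1)
    rw [← this]
    refine Finset.sum_congr rfl fun s hs => ?_
    congr 1
  rw [Finset.sum_add_distrib, h2] at h1
  have h3 : 2 * om m i t = ∑ s ∈ Finset.range (t + 1), m (i + 1) s +
      ∑ s ∈ Finset.range (t + 1), m (i + 2) s := by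
    unfold om mu
    rw [Finset.mul_sum, ← Finset.sum_add_distrib]
    refine Finset.sum_congr rfl fun s _ => ?_
    ring
  rw [h3]
  simpa using h1

/-- The total defect `∑ D_i`. -/
def dd (h : ℕ) (m ε : Fin 3 → ℕ → ℚ) (c : Fin 3 → ℕ) (T : ℕ) : ℚ :=
  ∑ t ∈ Finset.range (T + 1), ∑ i, (ε i t * (2 * t) -
    if t ≤ c i then 0 else mu m i t * (2 * h + 1 - 2 * t))

/-- `Ω`. -/
def Om (m : Fin 3 → ℕ → ℚ) (c : Fin 3 → ℕ) (T : ℕ) : ℚ := ∑ i, ww m c i T

/-! ### Case 2 -/

/-- The small part of the first sum. -/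
theorem Data.sum_small (hd : Data h m ε) (c : Fin 3 → ℕ) (i : Fin 3) (T : ℕ) :
    ∑ t ∈ Finset.range (T + 1), (if t ≤ c i then ε i t * (2 * t) else 0) ≤
      2 * ww m c i T ^ 2 := by
  induction T with
  | zero =>
    have : 0 ≤ ww m c i 0 ^ 2 := sq_nonneg _
    simp
    linarith
  | succ T ih =>
    rw [Finset.sum_range_succ, ww_succ]
    by_cases hc : T + 1 ≤ c i
    · rw [if_pos hc, if_pos hc]
      rcases hd.e01 i (T + 1) with he | he
      · rw [he]
        have h1 := hd.ww_nonneg c i T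
        have h2 := hd.mu_nonneg i (T + 1)
        nlinarith
      · obtain ⟨h1, h2⟩ := hd.e_mu i _ he
        have h3 : mu m i (T + 1) = 1 := by unfold mu; rw [h1, h2]; norm_num
        have h4 := hd.e_om i _ he
        have h5 : om m i (T + 1) = ww m c i T + 1 := by
          rw [← ww_eq_om c i (T + 1) hc, ww_succ, if_pos hc, h3]
        rw [he, h3]
        push_cast at h4 ⊢
        nlinarith
    · rw [if_neg hc, if_neg hc]
      linarith

/-- Weights concentrated at the top. -/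
theorem top_down (β : ℕ → ℚ) (hβ : ∀ t, 0 ≤ β t) (hβ2 : ∀ t, β t ≤ 2) (K : ℕ) (L : ℚ)
    (hL : 4 * (K : ℚ) + 1 ≤ L) :
    (∑ t ∈ Finset.range (K + 1), β t) ^ 2 - (∑ t ∈ Finset.range (K + 1), β t) ≤
      ∑ t ∈ Finset.range (K + 1), β t * (L - 4 * t) := by
  induction K generalizing L with
  | zero =>
    simp
    have h1 := hβ 0
    have h2 := hβ2 0
    simp at hL
    nlinarith
  | succ K ih =>
    rw [Finset.sum_range_succ β (K + 1), Finset.sum_range_succ _ (K + 1)]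
    push_cast at hL ⊢
    have h1 := ih (L - 4) (by linarith)
    have h2 : ∑ t ∈ Finset.range (K + 1), β t * (L - 4 * t) =
        ∑ t ∈ Finset.range (K + 1), β t * (L - 4 - 4 * t) +
          4 * ∑ t ∈ Finset.range (K + 1), β t := by
      rw [Finset.mul_sum, ← Finset.sum_add_distrib]
      refine Finset.sum_congr rfl fun t _ => ?_
      ring
    rw [h2]
    have h3 : 0 ≤ ∑ t ∈ Finset.range (K + 1), β t := Finset.sum_nonneg fun t _ => hβ t
    generalize ∑ t ∈ Finset.range (K + 1), β t = S at *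
    have h4 := hβ (K + 1)
    have h5 := hβ2 (K + 1)
    have h6 : 0 ≤ (2 - β (K + 1)) * (2 * S + β (K + 1)) := mul_nonneg (by linarith) (by linarith)
    have h7 : β (K + 1) * 1 ≤ β (K + 1) * (L - 4 * (K + 1)) :=
      mul_le_mul_of_nonneg_left (by linarith) h4
    nlinarith

/-- The gains. -/
def gg (h : ℕ) (m : Fin 3 → ℕ → ℚ) (c : Fin 3 → ℕ) (K : ℕ) : ℚ :=
  ∑ t ∈ Finset.range (K + 1), ∑ i, if t ≤ c i then 0 else mu m i t * (2 * h + 1 - 4 * t)

theorem Data.gg_nonneg (hd : Data h m ε) (c : Fin 3 → ℕ) (K : ℕ) (hK : 2 * K ≤ h) :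
    0 ≤ gg h m c K := by
  unfold gg
  refine Finset.sum_nonneg fun t ht => Finset.sum_nonneg fun i _ => ?_
  split_ifs
  · exact le_refl _
  · refine mul_nonneg (hd.mu_nonneg i t) ?_
    have h1 := Finset.mem_range.1 ht
    have h2 : 4 * t ≤ 2 * h := by omega
    have h3 : (4 : ℚ) * t ≤ 2 * h := by exact_mod_cast h2
    linarith

theorem sum3 (f : Fin 3 → ℚ) (i : Fin 3) : ∑ j, f j = f i + f (i + 1) + f (i + 2) := by
  rw [Fin.sum_univ_three]
  fin_cases i
  · rfl
  · show f 0 + f 1 + f 2 = f 1 + f 2 + f 0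
    ring
  · show f 0 + f 1 + f 2 = f 2 + f 0 + f 1
    ring

/-- If one truncated sum exceeds the sum of the two others, then the gains are large. -/
theorem Data.gain (hd : Data h m ε) (c : Fin 3 → ℕ) (K : ℕ) (hK : 2 * K ≤ h) (i : Fin 3) :
    (ww m c i K - ww m c (i + 1) K - ww m c (i + 2) K) ^ 2 -
      (ww m c i K - ww m c (i + 1) K - ww m c (i + 2) K) ≤ gg h m c K ∨
    ww m c i K - ww m c (i + 1) K - ww m c (i + 2) K < 0 := by
  set δ := ww m c i K - ww m c (i + 1) K - ww m c (i + 2) K with hδ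
  set β : ℕ → ℚ := fun t => if t ≤ c i then
    (if t ≤ c (i + 1) then 0 else mu m (i + 1) t) + (if t ≤ c (i + 2) then 0 else mu m (i + 2) t)
    else 0 with hβ
  have b0 : ∀ t, 0 ≤ β t := by
    intro t
    have h1 := hd.mu_nonneg (i + 1) t
    have h2 := hd.mu_nonneg (i + 2) t
    simp only [hβ]
    split_ifs <;> linarith
  have b2 : ∀ t, β t ≤ 2 := by
    intro t
    have h1 := hd.mu_le (i + 1) t
    have h2 := hd.mu_le (i + 2) t
    simp only [hβ]
    split_ifs <;> linarith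
  have hδβ : δ ≤ ∑ t ∈ Finset.range (K + 1), β t := by
    rw [hδ]
    unfold ww
    rw [← Finset.sum_sub_distrib, ← Finset.sum_sub_distrib]
    refine Finset.sum_le_sum fun t _ => ?_
    have h1 := hd.mu_nonneg (i + 1) t
    have h2 := hd.mu_nonneg (i + 2) t
    have h3 := hd.mu_tri i t
    simp only [hβ]
    split_ifs <;> linarith
  have hG : ∑ t ∈ Finset.range (K + 1), β t * ((2 * h + 1 : ℚ) - 4 * t) ≤ gg h m c K := by
    unfold gg
    refine Finset.sum_le_sum fun t ht => ?_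
    rw [sum3 _ i]
    have h1 := Finset.mem_range.1 ht
    have h2 : 4 * t ≤ 2 * h := by omega
    have h3 : (4 : ℚ) * t ≤ 2 * h := by exact_mod_cast h2
    have h4 : (0 : ℚ) ≤ 2 * h + 1 - 4 * t := by linarith
    have m1 := mul_nonneg (hd.mu_nonneg (i + 1) t) h4
    have m2 := mul_nonneg (hd.mu_nonneg (i + 2) t) h4
    have m3 := mul_nonneg (hd.mu_nonneg i t) h4
    simp only [hβ]
    split_ifs <;> linarith
  have htd := top_down β b0 b2 K (2 * h + 1) (by
    have h2 : 4 * K ≤ 2 * h := by omega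
    have h3 : (4 : ℚ) * K ≤ 2 * h := by exact_mod_cast h2
    linarith)
  have hg0 := hd.gg_nonneg c K hK
  rcases lt_or_ge δ 0 with h0 | h0
  · right; exact h0
  left
  rcases le_or_gt δ 1 with h1 | h1
  · nlinarith
  · generalize ∑ t ∈ Finset.range (K + 1), β t = S at *
    nlinarith

/-- The final form of the bound in case 2. -/
theorem Data.case2 (hd : Data h m ε) (c : Fin 3 → ℕ) :
    dd h m ε c h ≤ Om m c h ^ 2 + Om m c h := by
  set K := h / 2 with hKdef
  have hK : 2 * K ≤ h := by omega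
  have hwmono : ∀ i, ww m c i K ≤ ww m c i h := by
    intro i
    unfold ww
    refine Finset.sum_le_sum_of_subset_of_nonneg ?_ ?_
    · intro t ht
      rw [Finset.mem_range] at ht ⊢
      omega
    · intro t _ _
      split_ifs
      · exact hd.mu_nonneg i t
      · exact le_refl _
  -- the sum over `t ≤ K`
  have h1 : dd h m ε c h ≤ dd h m ε c K := by
    unfold dd
    rw [← Finset.sum_range_add_sum_Ico _ (show K + 1 ≤ h + 1 by omega)]
    have : ∑ k ∈ Finset.Ico (K + 1) (h + 1), ∑ i, (ε i k * (2 * k) -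
        if k ≤ c i then 0 else mu m i k * (2 * h + 1 - 2 * k)) ≤ 0 := by
      refine Finset.sum_nonpos fun t ht => Finset.sum_nonpos fun i _ => ?_
      rw [Finset.mem_Ico] at ht
      have he : ε i t = 0 := by
        rcases hd.e01 i t with h | h
        · exact h
        · have := hd.small i t h
          omega
      rw [he, zero_mul, zero_sub, neg_nonpos]
      split_ifs
      · exact le_refl _
      · refine mul_nonneg (hd.mu_nonneg i t) ?_
        have h2 : 2 * t ≤ 2 * h := by omega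
        have h3 : (2 : ℚ) * t ≤ 2 * h := by exact_mod_cast h2
        linarith
    linarith
  have h2 : dd h m ε c K ≤ (∑ i, ∑ t ∈ Finset.range (K + 1),
      (if t ≤ c i then ε i t * (2 * t) else 0)) - gg h m c K := by
    unfold dd gg
    rw [Finset.sum_comm, Finset.sum_comm (s := Finset.range (K + 1)), ← Finset.sum_sub_distrib]
    refine Finset.sum_le_sum fun i _ => ?_
    rw [← Finset.sum_sub_distrib]
    refine Finset.sum_le_sum fun t ht => ?_
    split_ifs with hc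
    · linarith
    · have h3 := hd.e_le_mu i t
      have h4 : (0 : ℚ) ≤ 2 * t := by positivity
      have h5 : ε i t * (2 * t) ≤ mu m i t * (2 * t) := mul_le_mul_of_nonneg_right h3 h4
      linarith
  have h3 : ∑ i, ∑ t ∈ Finset.range (K + 1), (if t ≤ c i then ε i t * (2 * (t : ℚ)) else 0) ≤
      ∑ i, 2 * ww m c i K ^ 2 := Finset.sum_le_sum fun i _ => hd.sum_small c i K
  have hg0 := hd.gg_nonneg c K hK
  have h4 : Om m c K ≤ Om m c h := Finset.sum_le_sum fun i _ => hwmono i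
  have h5 : 0 ≤ Om m c K := Finset.sum_nonneg fun i _ => hd.ww_nonneg c i K
  have h6 : ∑ i, 2 * ww m c i K ^ 2 - gg h m c K ≤ Om m c K ^ 2 + Om m c K := by
    have g0 := hd.gain c K hK 0
    have g1 := hd.gain c K hK 1
    have g2 := hd.gain c K hK 2
    have n0 := hd.ww_nonneg c 0 K
    have n1 := hd.ww_nonneg c 1 K
    have n2 := hd.ww_nonneg c 2 K
    unfold Om
    rw [Fin.sum_univ_three, Fin.sum_univ_three]
    have e1 : (1 : Fin 3) + 1 = 2 := rfl
    have e2 : (1 : Fin 3) + 2 = 0 := rfl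
    have e3 : (2 : Fin 3) + 1 = 0 := rfl
    have e4 : (2 : Fin 3) + 2 = 1 := rfl
    have e5 : (0 : Fin 3) + 1 = 1 := rfl
    have e6 : (0 : Fin 3) + 2 = 2 := rfl
    rw [e5, e6] at g0
    rw [e1, e2] at g1
    rw [e3, e4] at g2
    generalize ww m c 0 K = u0 at *
    generalize ww m c 1 K = u1 at *
    generalize ww m c 2 K = u2 at *
    rcases g0 with g0 | g0
    · nlinarith [mul_nonneg n1 n2, mul_nonneg n0 n1, mul_nonneg n0 n2]
    · rcases g1 with g1 | g1
      · nlinarith [mul_nonneg n1 n2, mul_nonneg n0 n1, mul_nonneg n0 n2]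
      · rcases g2 with g2 | g2
        · nlinarith [mul_nonneg n1 n2, mul_nonneg n0 n1, mul_nonneg n0 n2]
        · nlinarith [mul_nonneg n0 (show 0 ≤ u1 + u2 - u0 by linarith),
            mul_nonneg n1 (show 0 ≤ u2 + u0 - u1 by linarith),
            mul_nonneg n2 (show 0 ≤ u0 + u1 - u2 by linarith)]
  have h7 : Om m c K ^ 2 ≤ Om m c h ^ 2 := by nlinarith
  linarith

/-! ### Case 1 -/

/-- One step of the induction in case 1 (the values of the `m`, `ε`, and which `c i ≥ t`). -/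
theorem step_one (t Ω m0 m1 m2 e0 e1 e2 o0 o1 o2 : ℚ) (c0 c1 c2 : Prop) [Decidable c0]
    [Decidable c1] [Decidable c2] (ht : 1 ≤ t)
    (hm0 : m0 = 0 ∨ m0 = 1) (hm1 : m1 = 0 ∨ m1 = 1) (hm2 : m2 = 0 ∨ m2 = 1)
    (he0 : e0 = 0 ∨ (e0 = 1 ∧ m1 = 1 ∧ m2 = 1 ∧ t + 1 ≤ 2 * o0))
    (he1 : e1 = 0 ∨ (e1 = 1 ∧ m2 = 1 ∧ m0 = 1 ∧ t + 1 ≤ 2 * o1))
    (he2 : e2 = 0 ∨ (e2 = 1 ∧ m0 = 1 ∧ m1 = 1 ∧ t + 1 ≤ 2 * o2))
    (ho0 : (m1 + m2) / 2 ≤ o0) (ho1 : (m2 + m0) / 2 ≤ o1) (ho2 : (m0 + m1) / 2 ≤ o2)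
    (t0 : o0 ≤ o1 + o2) (t1 : o1 ≤ o2 + o0) (t2 : o2 ≤ o0 + o1)
    (hΩ : (if c0 then o0 else 0) + (if c1 then o1 else 0) + (if c2 then o2 else 0) ≤ Ω) :
    (e0 + e1 + e2) * (2 * t) - 5 / 3 * (2 * t) *
      ((if c0 then 0 else (m1 + m2) / 2) + (if c1 then 0 else (m2 + m0) / 2) +
        (if c2 then 0 else (m0 + m1) / 2)) ≤
    2 / 3 * ((if c0 then (m1 + m2) / 2 else 0) + (if c1 then (m2 + m0) / 2 else 0) +
        (if c2 then (m0 + m1) / 2 else 0)) *
      (2 * Ω - ((if c0 then (m1 + m2) / 2 else 0) + (if c1 then (m2 + m0) / 2 else 0) +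
        (if c2 then (m0 + m1) / 2 else 0))) := by
  by_cases h0 : c0 <;> by_cases h1 : c1 <;> by_cases h2 : c2 <;>
    simp only [h0, h1, h2, if_true, if_false] at hΩ ⊢ <;>
    rcases he0 with he0 | ⟨he0, a1, a2, a3⟩ <;> rcases he1 with he1 | ⟨he1, b1, b2, b3⟩ <;>
      rcases he2 with he2 | ⟨he2, d1, d2, d3⟩ <;> (subst he0 he1 he2) <;>
      rcases hm0 with hm0 | hm0 <;> rcases hm1 with hm1 | hm1 <;> rcases hm2 with hm2 | hm2 <;>
      (subst hm0 hm1 hm2) <;> first | linarith | (exfalso; linarith)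

/-- The bound in case 1. -/
theorem Data.case1 (hd : Data h m ε) (c : Fin 3 → ℕ) (hc : ∀ i, 16 * c i ≤ 6 * h + 3) (T : ℕ)
    (hT : T ≤ h) : dd h m ε c T ≤ 2 / 3 * Om m c T ^ 2 := by
  induction T with
  | zero =>
    have h1 : 0 ≤ Om m c 0 ^ 2 := sq_nonneg _
    have h2 : dd h m ε c 0 ≤ 0 := by
      unfold dd
      rw [zero_add, Finset.sum_range_one]
      refine Finset.sum_nonpos fun i _ => ?_
      rw [if_pos (Nat.zero_le _)]
      simp
    linarith
  | succ T ih =>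
    have ih' := ih (by omega)
    have hdd : dd h m ε c (T + 1) = dd h m ε c T + ∑ i, (ε i (T + 1) * (2 * ((T + 1 : ℕ) : ℚ)) -
        if T + 1 ≤ c i then 0 else mu m i (T + 1) * (2 * h + 1 - 2 * ((T + 1 : ℕ) : ℚ))) := by
      unfold dd
      rw [Finset.sum_range_succ]
    have hOm : Om m c (T + 1) = Om m c T + ∑ i, (if T + 1 ≤ c i then mu m i (T + 1) else 0) := by
      unfold Om
      rw [← Finset.sum_add_distrib]
      exact Finset.sum_congr rfl fun i _ => ww_succ c i T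
    have hOm0 : 0 ≤ Om m c T := Finset.sum_nonneg fun i _ => hd.ww_nonneg c i T
    set t : ℕ := T + 1 with htdef
    have ht1 : (1 : ℚ) ≤ t := by exact_mod_cast (by omega : 1 ≤ t)
    have hth : (2 : ℚ) * t ≤ 2 * h := by exact_mod_cast (by omega : 2 * t ≤ 2 * h)
    set w : ℚ := ∑ i, (if t ≤ c i then mu m i t else 0) with hw
    have hw0 : 0 ≤ w := Finset.sum_nonneg fun i _ => by
      split_ifs
      · exact hd.mu_nonneg i t
      · exact le_refl _
    by_cases hex : ∃ i, t ≤ c i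
    · obtain ⟨i, hi⟩ := hex
      have h16 : 16 * t ≤ 6 * h + 3 := le_trans (by omega) (hc i)
      have h16' : (16 : ℚ) * t ≤ 6 * h + 3 := by exact_mod_cast h16
      have k1 : ∑ i, (ε i t * (2 * (t : ℚ)) -
          if t ≤ c i then 0 else mu m i t * (2 * h + 1 - 2 * (t : ℚ))) ≤
          ∑ i, (ε i t * (2 * (t : ℚ)) -
          if t ≤ c i then 0 else mu m i t * (5 / 3 * (2 * (t : ℚ)))) := by
        refine Finset.sum_le_sum fun i _ => ?_
        have := hd.mu_nonneg i t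
        split_ifs
        · exact le_refl _
        · have : mu m i t * (5 / 3 * (2 * (t : ℚ))) ≤ mu m i t * (2 * h + 1 - 2 * (t : ℚ)) :=
            mul_le_mul_of_nonneg_left (by linarith) this
          linarith
      have hΩge : (if t ≤ c 0 then om m 0 t else 0) + (if t ≤ c 1 then om m 1 t else 0) +
          (if t ≤ c 2 then om m 2 t else 0) ≤ Om m c t := by
        unfold Om
        rw [Fin.sum_univ_three]
        have q : ∀ i, (if t ≤ c i then om m i t else 0) ≤ ww m c i t := by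
          intro i
          split_ifs with hh
          · rw [ww_eq_om c i t hh]
          · exact hd.ww_nonneg c i t
        have q0 := q 0
        have q1 := q 1
        have q2 := q 2
        linarith
      have e1 : (1 : Fin 3) + 1 = 2 := rfl
      have e2 : (1 : Fin 3) + 2 = 0 := rfl
      have e3 : (2 : Fin 3) + 1 = 0 := rfl
      have e4 : (2 : Fin 3) + 2 = 1 := rfl
      have e5 : (0 : Fin 3) + 1 = 1 := rfl
      have e6 : (0 : Fin 3) + 2 = 2 := rfl
      have hE : ∀ i, ε i t = 0 ∨ (ε i t = 1 ∧ m (i + 1) t = 1 ∧ m (i + 2) t = 1 ∧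
          (t : ℚ) + 1 ≤ 2 * om m i t) := by
        intro i
        rcases hd.e01 i t with he | he
        · exact Or.inl he
        · exact Or.inr ⟨he, (hd.e_mu i t he).1, (hd.e_mu i t he).2, hd.e_om i t he⟩
      have E0 := hE 0
      have E1 := hE 1
      have E2 := hE 2
      have O0 := hd.om_ge_mu 0 t
      have O1 := hd.om_ge_mu 1 t
      have O2 := hd.om_ge_mu 2 t
      have T0 := hd.om_tri 0 t
      have T1 := hd.om_tri 1 t
      have T2 := hd.om_tri 2 t
      unfold mu at O0 O1 O2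
      rw [e5, e6] at E0 O0 T0
      rw [e1, e2] at E1 O1 T1
      rw [e3, e4] at E2 O2 T2
      have key := step_one t (Om m c t) (m 0 t) (m 1 t) (m 2 t) (ε 0 t) (ε 1 t) (ε 2 t)
        (om m 0 t) (om m 1 t) (om m 2 t) (t ≤ c 0) (t ≤ c 1) (t ≤ c 2) ht1 (hd.m01 0 t)
        (hd.m01 1 t) (hd.m01 2 t) E0 E1 E2 O0 O1 O2 T0 T1 T2 hΩge
      have k2 : ∑ i, (ε i t * (2 * (t : ℚ)) -
          if t ≤ c i then 0 else mu m i t * (5 / 3 * (2 * (t : ℚ)))) =
          (ε 0 t + ε 1 t + ε 2 t) * (2 * t) - 5 / 3 * (2 * t) *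
      ((if t ≤ c 0 then 0 else (m 1 t + m 2 t) / 2) + (if t ≤ c 1 then 0 else (m 2 t + m 0 t) / 2) +
        (if t ≤ c 2 then 0 else (m 0 t + m 1 t) / 2)) := by
        rw [Fin.sum_univ_three]
        unfold mu
        rw [e1, e2, e3, e4, e5, e6]
        split_ifs <;> ring
      have k3 : w = (if t ≤ c 0 then (m 1 t + m 2 t) / 2 else 0) +
          (if t ≤ c 1 then (m 2 t + m 0 t) / 2 else 0) +
          (if t ≤ c 2 then (m 0 t + m 1 t) / 2 else 0) := by
        rw [hw, Fin.sum_univ_three]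
        unfold mu
        rw [e1, e2, e3, e4, e5, e6]
      rw [← k3, ← k2] at key
      rw [hdd]
      have k4 : 2 / 3 * w * (2 * Om m c t - w) = 2 / 3 * (Om m c t ^ 2 - Om m c T ^ 2) := by
        rw [hOm]; ring
      rw [k4] at key
      linarith
    · push Not at hex
      have hle : ∑ i, (ε i t * (2 * (t : ℚ)) -
          if t ≤ c i then 0 else mu m i t * (2 * h + 1 - 2 * (t : ℚ))) ≤ 0 := by
        refine Finset.sum_nonpos fun i _ => ?_
        rw [if_neg (by have := hex i; omega)]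
        rcases hd.e01 i t with he | he
        · rw [he]
          have := mul_nonneg (hd.mu_nonneg i t) (show (0 : ℚ) ≤ 2 * h + 1 - 2 * t by linarith)
          linarith
        · obtain ⟨m1, m2⟩ := hd.e_mu i t he
          have h3 : mu m i t = 1 := by unfold mu; rw [m1, m2]; norm_num
          have h4 := (hd.small i t he).2
          have h5 : (4 : ℚ) * t ≤ 2 * h := by exact_mod_cast (by omega : 4 * t ≤ 2 * h)
          rw [he, h3]
          linarith
      rw [hdd, hOm]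
      nlinarith

/-! ### Final numerical inequalities -/

/-- Final numerical inequality, case 1. -/
theorem final1 (M b E y Ω D p0 p1 p2 : ℚ) (hM : 13 ≤ M) (hb : 8 * b ≤ 3 * M)
    (hE0 : 0 ≤ E) (hE3 : E ≤ 3) (hy0 : 0 ≤ y) (hy2 : y ≤ 2)
    (hy : 12 * y = 12 * Ω - 12 - 3 * E - (3 * M - 6 * (p0 + p1 + p2)))
    (hD : D ≤ 2 / 3 * Ω ^ 2) :
    0 < (M - 6 * p0) ^ 2 + (M - 6 * p1) ^ 2 + (M - 6 * p2) ^ 2 + 12 * M - 27 + 12 * M * E +
      36 * (M - b) * y - 36 * D := by
  have hΩ : Ω = (12 + 3 * E + 12 * y + (3 * M - 6 * (p0 + p1 + p2))) / 12 := by linarith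
  have h1 : 36 * D ≤ 24 * Ω ^ 2 := by linarith
  have h2 : 24 * Ω ^ 2 = (12 + 3 * E + 12 * y + (3 * M - 6 * (p0 + p1 + p2))) ^ 2 / 6 := by
    rw [hΩ]; ring
  have h3 : 0 ≤ (3 * M - 6 * (p0 + p1 + p2) - (12 + 3 * E + 12 * y)) ^ 2 := sq_nonneg _
  have h4 : 0 ≤ (p0 - p1) ^ 2 := sq_nonneg _
  have h5 : 0 ≤ (p1 - p2) ^ 2 := sq_nonneg _
  have h6 : 0 ≤ (p0 - p2) ^ 2 := sq_nonneg _
  have h7 : 0 ≤ E * (12 * M - 24 - 3 * E - 24 * y) := mul_nonneg hE0 (by linarith)
  have h8 : 0 ≤ y * (36 * (M - b) - 96 - 48 * y) := mul_nonneg hy0 (by linarith)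
  nlinarith

/-- Final numerical inequality, case 2. -/
theorem final2 (M b E y Ω D p0 p1 p2 : ℚ)
    (hy : 12 * y = 12 * Ω - 12 - 3 * E - (3 * M - 6 * (p0 + p1 + p2)))
    (hD : D ≤ Ω ^ 2 + Ω)
    (hT : 0 < (6 * p0 - M) ^ 2 / 2 + 18 * (6 * p0 - M) + 12 * M - 180 +
      E * (3 * (6 * p0 - M) + 12 * M - 54 - 9 / 2 * E - 36 * y) +
      y * (12 * (6 * p0 - M) + 36 * (M - b) - 216 - 72 * y)) :
    0 < (M - 6 * p0) ^ 2 + (M - 6 * p1) ^ 2 + (M - 6 * p2) ^ 2 + 12 * M - 27 + 12 * M * E +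
      36 * (M - b) * y - 36 * D := by
  have hΩ : Ω = (12 + 3 * E + 12 * y + (3 * M - 6 * (p0 + p1 + p2))) / 12 := by linarith
  have h1 : 36 * D ≤ 36 * (Ω ^ 2 + Ω) := by linarith
  have h2 : 36 * (Ω ^ 2 + Ω) = (12 + 3 * E + 12 * y + (3 * M - 6 * (p0 + p1 + p2))) ^ 2 / 4 +
      3 * (12 + 3 * E + 12 * y + (3 * M - 6 * (p0 + p1 + p2))) := by
    rw [hΩ]; ring
  have h3 : 0 ≤ ((M - 6 * p1) + (M - 6 * p2) - 6 + (6 * p0 - M) - (12 + 3 * E + 12 * y)) ^ 2 :=
    sq_nonneg _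
  have h4 : 0 ≤ (p1 - p2) ^ 2 := sq_nonneg _
  nlinarith

theorem final2T (M b : ℕ) (E E0 y p0 : ℚ) (hM : 13 ≤ M) (hodd : M % 2 = 1) (hb : 3 * M < 8 * b)
    (hE : E0 ≤ E) (hE3 : E ≤ 3) (hy0 : 0 ≤ y) (hy2 : y ≤ 2)
    (hE0 : (b % 2 = 1 ∧ E0 = 0) ∨ (b % 2 = 0 ∧ E0 = 1)) (hp0 : 2 * p0 = b + 1 - E0) :
    0 < (6 * p0 - M) ^ 2 / 2 + 18 * (6 * p0 - M) + 12 * M - 180 +
      E * (3 * (6 * p0 - M) + 12 * M - 54 - 9 / 2 * E - 36 * y) +
      y * (12 * (6 * p0 - M) + 36 * (M - b) - 216 - 72 * y) := by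
  have hE0' : 0 ≤ E0 := by rcases hE0 with h | h <;> rw [h.2] <;> norm_num
  have hE01 : E0 ≤ 1 := by rcases hE0 with h | h <;> rw [h.2] <;> norm_num
  have hb' : (3 : ℚ) * M < 8 * b := by exact_mod_cast hb
  have hp : p0 = (b + 1 - E0) / 2 := by linarith
  subst hp
  rcases Nat.lt_or_ge M 15 with h15 | h15
  · have hM13 : M = 13 := by omega
    subst hM13
    rcases hE0 with ⟨hbo, rfl⟩ | ⟨hbe, rfl⟩
    · have hb5 : (5 : ℚ) ≤ b := by exact_mod_cast (by omega : 5 ≤ b)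
      have h1 : 0 ≤ E * (3 * (6 * (((b : ℚ) + 1 - 0) / 2) - (13 : ℕ)) + 12 * (13 : ℕ) - 54 -
        9 / 2 * E - 36 * y) := mul_nonneg hE (by push_cast; linarith)
      push_cast at h1 ⊢
      nlinarith
    · have hb6 : (6 : ℚ) ≤ b := by exact_mod_cast (by omega : 6 ≤ b)
      have h1 : 1 * (63 / 2) ≤ E * (3 * (6 * (((b : ℚ) + 1 - 1) / 2) - (13 : ℕ)) + 12 * (13 : ℕ) - 54 -
        9 / 2 * E - 36 * y) := by
        refine mul_le_mul hE ?_ (by norm_num) (by linarith)
        push_cast; linarith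
      push_cast at h1 ⊢
      nlinarith
  · have hM15 : (15 : ℚ) ≤ M := by exact_mod_cast h15
    have hθ : (15 : ℚ) / 8 ≤ 6 * (((b : ℚ) + 1 - E0) / 2) - M := by linarith
    have h1 : 0 ≤ E * (3 * (6 * (((b : ℚ) + 1 - E0) / 2) - M) + 12 * M - 54 -
        9 / 2 * E - 36 * y) := mul_nonneg (by linarith) (by linarith)
    have h2 : 0 ≤ y * (12 * (6 * (((b : ℚ) + 1 - E0) / 2) - M) + 36 * (M - b) - 216 - 72 * y) :=
      mul_nonneg hy0 (by linarith)
    nlinarith

/-! ### The data from the triple and the reduction to the critical `b` -/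

variable {X : Fin 3 → Finset ℕ}

/-- used even lines -/
def mf (h : ℕ) (X : Fin 3 → Finset ℕ) (i : Fin 3) (t : ℕ) : ℚ := uu (2 * h + 1) X i (2 * t)

/-- unused complementary odd lines -/
def ef (h : ℕ) (X : Fin 3 → Finset ℕ) (i : Fin 3) (t : ℕ) : ℚ :=
  if 2 * t ≤ 2 * h + 1 ∧ 2 * h + 1 - 2 * t ∈ X i then 1 else 0

theorem data (htri : Tri (2 * h + 1) X) (hodd : ∀ i, ∀ x ∈ X i, x % 2 = 1 → 2 * h + 1 < 2 * x) :
    Data h (mf h X) (ef h X) where
  m01 i t := uu_eq i (2 * t)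
  m0 i := by
    unfold mf uu
    rw [if_neg]
    rintro ⟨_, h2⟩
    exact h2 (htri.zero i)
  e01 i t := by
    unfold ef
    split_ifs
    · right; rfl
    · left; rfl
  refl i t he s hs := by
    unfold ef at he
    split_ifs at he with h1
    · obtain ⟨h1, h2⟩ := h1
      unfold mf
      rcases uu_eq (M := 2 * h + 1) (X := X) (i + 1) (2 * s) with k1 | k1
      · rcases uu_eq (M := 2 * h + 1) (X := X) (i + 2) (2 * (t - s)) with k2 | k2
        · exfalso
          have m1 := uu_eq_zero (M := 2 * h + 1) (X := X) (i := i + 1) (g := 2 * s) (by omega)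
            (by rw [k1]; norm_num)
          have m2 := uu_eq_zero (M := 2 * h + 1) (X := X) (i := i + 2) (g := 2 * (t - s)) (by omega)
            (by rw [k2]; norm_num)
          exact htri.free' i h2 m1 m2 (by omega)
        · rw [k1, k2]; norm_num
      · rw [k1]
        have := uu_nonneg (M := 2 * h + 1) (X := X) (i + 2) (2 * (t - s))
        linarith
    · norm_num at he
  small i t he := by
    unfold ef at he
    split_ifs at he with h1
    · obtain ⟨h1, h2⟩ := h1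
      have h3 := hodd i _ h2 (by omega)
      refine ⟨?_, by omega⟩
      rcases Nat.eq_zero_or_pos t with h0 | h0
      · exfalso
        subst h0
        exact htri.free' i h2 (htri.zero _) (htri.zero _) (by omega)
      · exact h0
    · norm_num at he

theorem sum_parity (f o g : ℕ → ℚ) (hg : g 0 = 0) (n : ℕ)
    (ho : ∀ t, 2 * t + 1 ≤ n → f (2 * t + 1) ≤ o t) (he : ∀ t, 2 * t ≤ n → f (2 * t) ≤ g t) :
    ∑ j ∈ Finset.Icc 1 n, f j ≤
      ∑ t ∈ Finset.range ((n + 1) / 2), o t + ∑ t ∈ Finset.range (n / 2 + 1), g t := by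
  induction n with
  | zero => simp [hg]
  | succ n ih =>
    have ih' := ih (fun t ht => ho t (by omega)) (fun t ht => he t (by omega))
    rw [Finset.sum_Icc_succ_top (by omega)]
    rcases Nat.even_or_odd' n with ⟨k, hk | hk⟩
    · have e1 : (n + 1 + 1) / 2 = (n + 1) / 2 + 1 := by omega
      have e2 : (n + 1) / 2 = n / 2 := by omega
      have e3 : n / 2 = k := by omega
      rw [e1, Finset.sum_range_succ, e2, e3]
      rw [e2, e3] at ih'
      have := ho k (by omega)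
      rw [← hk] at this
      linarith
    · have e1 : (n + 1 + 1) / 2 = (n + 1) / 2 := by omega
      have e2 : (n + 1) / 2 = n / 2 + 1 := by omega
      have e3 : n / 2 + 1 = k + 1 := by omega
      rw [e1, e2, Finset.sum_range_succ g, e3]
      rw [e2, e3] at ih'
      have := he (k + 1) (by omega)
      have e4 : 2 * (k + 1) = n + 1 := by omega
      rw [e4] at this
      linarith

theorem sum_odd (b : ℚ) (p : ℕ) :
    ∑ t ∈ Finset.range p, (b - (2 * t + 1)) = p * b - (p : ℚ) ^ 2 := by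
  induction p with
  | zero => simp
  | succ p ih => rw [Finset.sum_range_succ, ih]; push_cast; ring

/-- The sum of the halves over the small lines. -/
theorem gamma_le (htri : Tri (2 * h + 1) X) (i : Fin 3) (n : ℕ) :
    ∑ j ∈ Finset.Icc 1 n, mm (2 * h + 1) X i j ≤
      (((min n (2 * h + 1) + 1) / 2 : ℕ) : ℚ) + om (mf h X) i (min n (2 * h + 1) / 2) := by
  have h1 : ∑ j ∈ Finset.Icc 1 n, mm (2 * h + 1) X i j =
      ∑ j ∈ Finset.Icc 1 (min n (2 * h + 1)), mm (2 * h + 1) X i j := by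
    symm
    refine Finset.sum_subset (fun x hx => ?_) (fun x hx hx' => ?_)
    · rw [Finset.mem_Icc] at hx ⊢; omega
    · rw [Finset.mem_Icc] at hx hx'
      have hgt : ¬ x ≤ 2 * h + 1 := by omega
      unfold mm uu
      rw [if_neg (fun hh => hgt hh.1), if_neg (fun hh => hgt hh.1)]
      norm_num
  rw [h1]
  have h2 := sum_parity (fun j => mm (2 * h + 1) X i j) (fun _ => 1) (fun t => mu (mf h X) i t)
    (by
      show mu (mf h X) i 0 = 0
      unfold mu mf uu
      rw [if_neg (fun hh => hh.2 (htri.zero _)), if_neg (fun hh => hh.2 (htri.zero _))]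
      norm_num) (min n (2 * h + 1)) (fun t _ => mm_le_one _ _) (fun t _ => by
        show mm (2 * h + 1) X i (2 * t) ≤ mu (mf h X) i t
        unfold mm mu mf
        exact le_refl _)
  unfold om
  simpa using h2

theorem jj_le (htri : Tri (2 * h + 1) X) (i : Fin 3) (n b : ℕ) :
    ∑ j ∈ Finset.Icc 1 n, (max ((b : ℚ) - j) 0 * mm (2 * h + 1) X i j +
      max ((0 : ℚ) - j) 0 * (1 - mm (2 * h + 1) X i j)) ≤
      (((min n b + 1) / 2 : ℕ) : ℚ) * b - (((min n b + 1) / 2 : ℕ) : ℚ) ^ 2 +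
      ∑ t ∈ Finset.range (min n b / 2 + 1), ((b : ℚ) - 2 * t) * mu (mf h X) i t := by
  have h1 : ∑ j ∈ Finset.Icc 1 n, (max ((b : ℚ) - j) 0 * mm (2 * h + 1) X i j +
      max ((0 : ℚ) - j) 0 * (1 - mm (2 * h + 1) X i j)) =
      ∑ j ∈ Finset.Icc 1 (min n b), ((b : ℚ) - j) * mm (2 * h + 1) X i j := by
    symm
    rw [← Finset.sum_subset (s₁ := Finset.Icc 1 (min n b)) (s₂ := Finset.Icc 1 n)
      (f := fun j => (max ((b : ℚ) - j) 0 * mm (2 * h + 1) X i j +
      max ((0 : ℚ) - j) 0 * (1 - mm (2 * h + 1) X i j)))]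
    · refine Finset.sum_congr rfl fun j hj => ?_
      have hj' : j ≤ b := by rw [Finset.mem_Icc] at hj; omega
      have hjb : (j : ℚ) ≤ b := by exact_mod_cast hj'
      have hj0 : (0 : ℚ) ≤ j := Nat.cast_nonneg j
      rw [max_eq_left (by linarith), max_eq_right (by linarith)]
      ring
    · intro x hx
      rw [Finset.mem_Icc] at hx ⊢; omega
    · intro x hx hx'
      rw [Finset.mem_Icc] at hx hx'
      have hxb : (b : ℚ) ≤ x := by exact_mod_cast (by omega : b ≤ x)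
      have hx0 : (0 : ℚ) ≤ x := Nat.cast_nonneg x
      rw [max_eq_right (by linarith), max_eq_right (by linarith)]
      ring
  rw [h1]
  have h2 := sum_parity (fun j => ((b : ℚ) - j) * mm (2 * h + 1) X i j)
    (fun t => (b : ℚ) - (2 * t + 1)) (fun t => ((b : ℚ) - 2 * t) * mu (mf h X) i t)
    (by
      show ((b : ℚ) - 2 * ((0 : ℕ) : ℚ)) * mu (mf h X) i 0 = 0
      unfold mu mf uu
      rw [if_neg (fun hh => hh.2 (htri.zero _)), if_neg (fun hh => hh.2 (htri.zero _))]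
      norm_num) (min n b) (fun t ht => by
        have h3 : (((2 * t + 1 : ℕ)) : ℚ) ≤ b := by exact_mod_cast (by omega : 2 * t + 1 ≤ b)
        have h4 := mm_le_one (M := 2 * h + 1) (X := X) i (2 * t + 1)
        show ((b : ℚ) - ((2 * t + 1 : ℕ) : ℚ)) * mm (2 * h + 1) X i (2 * t + 1) ≤ b - (2 * t + 1)
        push_cast at h3 ⊢
        nlinarith) (fun t _ => by
        show ((b : ℚ) - ((2 * t : ℕ) : ℚ)) * mm (2 * h + 1) X i (2 * t) ≤
          ((b : ℚ) - 2 * t) * mu (mf h X) i t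
        unfold mm mu mf
        push_cast
        exact le_refl _)
  rw [sum_odd] at h2
  exact h2

theorem sum_even_odd (F : ℕ → ℚ) (h : ℕ) : ∑ g ∈ Finset.range (2 * h + 2), F g =
    ∑ t ∈ Finset.range (h + 1), (F (2 * t) + F (2 * t + 1)) := by
  induction h with
  | zero => simp [Finset.sum_range_succ]
  | succ h ih =>
    rw [show 2 * (h + 1) + 2 = 2 * h + 2 + 1 + 1 by ring, Finset.sum_range_succ,
      Finset.sum_range_succ, ih, Finset.sum_range_succ _ (h + 1),
      show 2 * (h + 1) = 2 * h + 2 by ring]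
    ring

theorem sum_two (h : ℕ) : ∑ t ∈ Finset.range (h + 1), (2 * (t : ℚ)) = h * (h + 1) := by
  induction h with
  | zero => simp
  | succ h ih => rw [Finset.sum_range_succ, ih]; push_cast; ring

theorem pp_eq :
    PP (2 * h + 1) X = 3 * h * (h + 1) +
      ∑ i, ∑ t ∈ Finset.range (h + 1), (mf h X i t * (2 * h + 1 - 2 * t) - ef h X i t * (2 * t)) := by
  have key : ∀ i : Fin 3, ∑ g ∈ Finset.range (2 * h + 1 + 1), uu (2 * h + 1) X i g *
      (((2 * h + 1 : ℕ) : ℚ) - g) = h * (h + 1) +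
      ∑ t ∈ Finset.range (h + 1), (mf h X i t * (2 * h + 1 - 2 * t) - ef h X i t * (2 * t)) := by
    intro i
    have h1 := sum_even_odd (fun g => uu (2 * h + 1) X i g * (((2 * h + 1 : ℕ) : ℚ) - g)) h
    have h2 : ∑ t ∈ Finset.range (h + 1), uu (2 * h + 1) X i (2 * t + 1) *
        (((2 * h + 1 : ℕ) : ℚ) - ((2 * t + 1 : ℕ) : ℚ)) =
        ∑ t ∈ Finset.range (h + 1), (1 - ef h X i t) * (2 * t) := by
      rw [← Finset.sum_range_reflect]
      refine Finset.sum_congr rfl fun t ht => ?_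
      have ht' : t ≤ h := by have := Finset.mem_range.1 ht; omega
      have e1 : 2 * (h + 1 - 1 - t) + 1 = 2 * h + 1 - 2 * t := by omega
      rw [e1]
      have e2 : ((2 * h + 1 - 2 * t : ℕ) : ℚ) = 2 * h + 1 - 2 * t := by
        rw [Nat.cast_sub (by omega)]; push_cast; ring
      rw [e2]
      have e3 : uu (2 * h + 1) X i (2 * h + 1 - 2 * t) = 1 - ef h X i t := by
        unfold uu ef
        by_cases hmem : 2 * h + 1 - 2 * t ∈ X i
        · rw [if_neg (fun hh => hh.2 hmem), if_pos ⟨by omega, hmem⟩]; norm_num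
        · rw [if_pos ⟨by omega, hmem⟩, if_neg (fun hh => hmem hh.2)]; norm_num
      rw [e3]
      push_cast
      ring
    have h3 := sum_two h
    rw [show 2 * h + 1 + 1 = 2 * h + 2 by ring, h1, Finset.sum_add_distrib, h2, ← h3,
      ← Finset.sum_add_distrib, ← Finset.sum_add_distrib]
    refine Finset.sum_congr rfl fun t _ => ?_
    unfold mf
    push_cast
    ring
  unfold PP
  rw [Finset.sum_congr rfl fun i _ => key i, Finset.sum_add_distrib, Finset.sum_const]
  simp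
  ring

theorem Om_dd (m ε : Fin 3 → ℕ → ℚ) (c : Fin 3 → ℕ) (hc : ∀ i, c i ≤ h) (b : ℚ) :
    (2 * h + 1 - b) * Om m c h - dd h m ε c h =
      ∑ i, (∑ t ∈ Finset.range (h + 1), (mu m i t * (2 * h + 1 - 2 * t) - ε i t * (2 * t)) -
        ∑ t ∈ Finset.range (c i + 1), (b - 2 * t) * mu m i t) := by
  unfold Om dd ww
  rw [Finset.sum_comm (s := Finset.range (h + 1)), Finset.mul_sum, ← Finset.sum_sub_distrib]
  refine Finset.sum_congr rfl fun i _ => ?_
  have h1 : ∑ t ∈ Finset.range (c i + 1), (b - 2 * t) * mu m i t =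
      ∑ t ∈ Finset.range (h + 1), if t ≤ c i then (b - 2 * t) * mu m i t else 0 := by
    rw [← Finset.sum_subset (s₁ := Finset.range (c i + 1)) (s₂ := Finset.range (h + 1))
      (f := fun t => if t ≤ c i then (b - 2 * t) * mu m i t else 0)]
    · refine Finset.sum_congr rfl fun t ht => ?_
      rw [if_pos (by have := Finset.mem_range.1 ht; omega)]
    · intro x hx
      rw [Finset.mem_range] at hx ⊢
      have := hc i
      omega
    · intro x hx hx'
      rw [if_neg]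
      intro hh
      exact hx' (Finset.mem_range.2 (by omega))
  rw [h1, Finset.mul_sum, ← Finset.sum_sub_distrib, ← Finset.sum_sub_distrib]
  refine Finset.sum_congr rfl fun t _ => ?_
  split_ifs <;> ring

theorem sum_mf_mu (f : ℕ → ℚ) (n : ℕ) :
    ∑ i, ∑ t ∈ Finset.range n, mf h X i t * f t =
      ∑ i, ∑ t ∈ Finset.range n, mu (mf h X) i t * f t := by
  rw [Finset.sum_comm, Finset.sum_comm (s := Finset.univ)]
  refine Finset.sum_congr rfl fun t _ => ?_
  rw [Fin.sum_univ_three, Fin.sum_univ_three]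
  unfold mu
  have e1 : (1 : Fin 3) + 1 = 2 := rfl
  have e2 : (1 : Fin 3) + 2 = 0 := rfl
  have e3 : (2 : Fin 3) + 1 = 0 := rfl
  have e4 : (2 : Fin 3) + 2 = 1 := rfl
  have e5 : (0 : Fin 3) + 1 = 1 := rfl
  have e6 : (0 : Fin 3) + 2 = 2 := rfl
  rw [e1, e2, e3, e4, e5, e6]
  ring

/-- The lower bound for `PP - JJ`. -/
theorem pp_jj (htri : Tri (2 * h + 1) X) (a : Fin 3 → ℕ) (b : ℕ) (hb : b ≤ 2 * h + 1) :
    3 * (h : ℚ) * (h + 1) -
      (∑ i, ((((min (a i) b + 1) / 2 : ℕ) : ℚ) * b - (((min (a i) b + 1) / 2 : ℕ) : ℚ) ^ 2)) +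
      ((2 * h + 1 - b) * Om (mf h X) (fun i => min (a i) b / 2) h -
        dd h (mf h X) (ef h X) (fun i => min (a i) b / 2) h) ≤
    PP (2 * h + 1) X - JJ (2 * h + 1) X a b 0 := by
  rw [Om_dd (mf h X) (ef h X) (fun i => min (a i) b / 2) (fun i => by
    show min (a i) b / 2 ≤ h; omega) b, pp_eq]
  have h1 : JJ (2 * h + 1) X a b 0 ≤ ∑ i, ((((min (a i) b + 1) / 2 : ℕ) : ℚ) * b -
      (((min (a i) b + 1) / 2 : ℕ) : ℚ) ^ 2 +
      ∑ t ∈ Finset.range (min (a i) b / 2 + 1), ((b : ℚ) - 2 * t) * mu (mf h X) i t) :=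
    Finset.sum_le_sum fun i _ => jj_le htri i (a i) b
  have h2 := sum_mf_mu (h := h) (X := X) (fun t => (2 * h + 1 - 2 * (t : ℚ))) (h + 1)
  simp only [Finset.sum_sub_distrib, Finset.sum_add_distrib] at h1 h2 ⊢
  linarith

theorem ident (M b p0 p1 p2 E Ω D y h : ℚ) (hh : M = 2 * h + 1)
    (hy : 12 * y = 12 * Ω - 12 - 3 * E - (3 * M - 6 * (p0 + p1 + p2))) :
    3 * ((M + 3 * b) * (2 * (p0 + p1 + p2) - 3 + E + M + 7) - 12 * M * (M + 1) +
      12 * (3 * h * (h + 1) - ((p0 * b - p0 ^ 2) + (p1 * b - p1 ^ 2) + (p2 * b - p2 ^ 2)) +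
        ((2 * h + 1 - b) * Ω - D))) =
    (M - 6 * p0) ^ 2 + (M - 6 * p1) ^ 2 + (M - 6 * p2) ^ 2 + 12 * M - 27 + 12 * M * E +
      36 * (M - b) * y - 36 * D := by
  have h1 : y = (12 * Ω - 12 - 3 * E - (3 * M - 6 * (p0 + p1 + p2))) / 12 := by linarith
  have h2 : h = (M - 1) / 2 := by linarith
  rw [h1, h2]
  ring

theorem ww_full (m : Fin 3 → ℕ → ℚ) (c : Fin 3 → ℕ) (i : Fin 3) (hc : c i ≤ h) :
    ww m c i h = om m i (c i) := by
  unfold ww om
  rw [← Finset.sum_subset (s₁ := Finset.range (c i + 1)) (s₂ := Finset.range (h + 1))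
      (f := fun t => if t ≤ c i then mu m i t else 0)]
  · refine Finset.sum_congr rfl fun t ht => ?_
    rw [if_pos (by have := Finset.mem_range.1 ht; omega)]
  · intro x hx
    rw [Finset.mem_range] at hx ⊢
    omega
  · intro x hx hx'
    rw [if_neg]
    intro hh
    exact hx' (Finset.mem_range.2 (by omega))

/-- The certificate inequality for the critical `b`. -/
theorem core (hh : 6 ≤ h) (htri : Tri (2 * h + 1) X)
    (hodd : ∀ i, ∀ x ∈ X i, x % 2 = 1 → 2 * h + 1 < 2 * x) (a : Fin 3 → ℕ) (b : ℕ)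
    (hb : b ≤ 2 * h + 1) (i : Fin 3) (hi : b ≤ a i)
    (hy0 : ((2 * h + 1 : ℕ) : ℚ) + ∑ i, ((min (a i) b : ℕ) : ℚ) + 7 ≤
      4 * ∑ i, ((((min (a i) b + 1) / 2 : ℕ) : ℚ) + om (mf h X) i (min (a i) b / 2)))
    (hy2 : 4 * ∑ i, ((((min (a i) b + 1) / 2 : ℕ) : ℚ) + om (mf h X) i (min (a i) b / 2)) ≤
      ((2 * h + 1 : ℕ) : ℚ) + ∑ i, ((min (a i) b : ℕ) : ℚ) + 15) :
    (11 * (((2 * h + 1 : ℕ) : ℚ) + (∑ i, (a i : ℚ)) + 1) - 6) * (((2 * h + 1 : ℕ) : ℚ) + 3 * b) <
      12 * (3 * b * (((2 * h + 1 : ℕ) : ℚ) + 1) + PP (2 * h + 1) X + 2 * 0 * VV (2 * h + 1) X +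
        (∑ i, (a i : ℚ)) * (((2 * h + 1 : ℕ) : ℚ) + 3 * b) - JJ (2 * h + 1) X a b 0) := by
  have hd := data htri hodd
  have hpj := pp_jj htri a b hb
  set c : Fin 3 → ℕ := fun i => min (a i) b / 2 with hc
  have hch : ∀ i, c i ≤ h := by intro i; simp only [hc]; omega
  have hOm : Om (mf h X) c h = ∑ i, om (mf h X) i (min (a i) b / 2) := by
    unfold Om
    exact Finset.sum_congr rfl fun i _ => ww_full _ c i (hch i)
  have hσ : ∑ i, ((min (a i) b : ℕ) : ℚ) ≤ ∑ i, (a i : ℚ) :=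
    Finset.sum_le_sum fun i _ => by exact_mod_cast min_le_left _ _
  -- parity indicators
  have hE : ∀ i, ∃ E : ℚ, (E = 0 ∨ E = 1) ∧
      ((min (a i) b : ℕ) : ℚ) = 2 * (((min (a i) b + 1) / 2 : ℕ) : ℚ) - 1 + E ∧
      ((min (a i) b % 2 = 1 ∧ E = 0) ∨ (min (a i) b % 2 = 0 ∧ E = 1)) := by
    intro i
    rcases Nat.even_or_odd' (min (a i) b) with ⟨k, hk | hk⟩
    · refine ⟨1, Or.inr rfl, ?_, Or.inr ⟨by omega, rfl⟩⟩
      rw [hk, show (2 * k + 1) / 2 = k by omega]; push_cast; ring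
    · refine ⟨0, Or.inl rfl, ?_, Or.inl ⟨by omega, rfl⟩⟩
      rw [hk, show (2 * k + 1 + 1) / 2 = k + 1 by omega]; push_cast; ring
  choose E hE01 hEeq hEpar using hE
  have hEn : ∀ i, 0 ≤ E i := fun i => by rcases hE01 i with h | h <;> rw [h] <;> norm_num
  have hE1 : ∀ i, E i ≤ 1 := fun i => by rcases hE01 i with h | h <;> rw [h] <;> norm_num
  set p : Fin 3 → ℚ := fun i => (((min (a i) b + 1) / 2 : ℕ) : ℚ) with hp
  set M : ℚ := ((2 * h + 1 : ℕ) : ℚ) with hM
  have hMh : M = 2 * h + 1 := by rw [hM]; push_cast; ring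
  have hM13 : (13 : ℚ) ≤ M := by rw [hM]; exact_mod_cast (by omega : 13 ≤ 2 * h + 1)
  have hbM : (b : ℚ) ≤ M := by rw [hM]; exact_mod_cast hb
  have hb0 : (0 : ℚ) ≤ b := Nat.cast_nonneg b
  have hS : ∑ i, ((min (a i) b : ℕ) : ℚ) =
      2 * (p i + p (i + 1) + p (i + 2)) - 3 + (E i + E (i + 1) + E (i + 2)) := by
    rw [sum3 _ i, hEeq i, hEeq (i + 1), hEeq (i + 2)]; ring
  have hP : ∑ i, ((((min (a i) b + 1) / 2 : ℕ) : ℚ) + om (mf h X) i (min (a i) b / 2)) =
      (p i + p (i + 1) + p (i + 2)) + Om (mf h X) c h := by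
    rw [Finset.sum_add_distrib, ← hOm, sum3 _ i]
  rw [hS, hP] at hy0 hy2
  rw [hS] at hσ
  rw [sum3 (fun i => (((min (a i) b + 1) / 2 : ℕ) : ℚ) * b - (((min (a i) b + 1) / 2 : ℕ) : ℚ) ^ 2) i]
    at hpj
  change 3 * (h : ℚ) * (h + 1) - ((p i * b - p i ^ 2) + (p (i + 1) * b - p (i + 1) ^ 2) +
    (p (i + 2) * b - p (i + 2) ^ 2)) + _ ≤ _ at hpj
  set Ω : ℚ := Om (mf h X) c h with hΩ
  set D : ℚ := dd h (mf h X) (ef h X) c h with hD
  set E' : ℚ := E i + E (i + 1) + E (i + 2) with hE'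
  set y : ℚ := (12 * Ω - 12 - 3 * E' - (3 * M - 6 * (p i + p (i + 1) + p (i + 2)))) / 12 with hy
  have hyy : 12 * y = 12 * Ω - 12 - 3 * E' - (3 * M - 6 * (p i + p (i + 1) + p (i + 2))) := by
    rw [hy]; ring
  have hid := ident M b (p i) (p (i + 1)) (p (i + 2)) E' Ω D y h hMh hyy
  have n0 := hEn i
  have n1 := hEn (i + 1)
  have n2 := hEn (i + 2)
  have l0 := hE1 i
  have l1 := hE1 (i + 1)
  have l2 := hE1 (i + 2)
  have hpos : 0 < (M - 6 * p i) ^ 2 + (M - 6 * p (i + 1)) ^ 2 + (M - 6 * p (i + 2)) ^ 2 +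
      12 * M - 27 + 12 * M * E' + 36 * (M - b) * y - 36 * D := by
    have y0 : 0 ≤ y := by linarith
    have y2 : y ≤ 2 := by linarith
    rcases Nat.lt_or_ge (3 * (2 * h + 1)) (8 * b) with hcase | hcase
    · refine final2 M b E' y Ω D (p i) (p (i + 1)) (p (i + 2)) hyy (hd.case2 c) ?_
      have hmin : min (a i) b = b := by omega
      refine final2T (2 * h + 1) b E' (E i) y (p i) (by omega) (by omega) hcase (by linarith)
        (by linarith) y0 y2 ?_ ?_
      · have := hEpar i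
        rw [hmin] at this
        exact this
      · have := hEeq i
        rw [hmin] at this
        have h3 : p i = (((b + 1) / 2 : ℕ) : ℚ) := by simp only [hp]; rw [hmin]
        rw [h3]; linarith
    · refine final1 M b E' y Ω D (p i) (p (i + 1)) (p (i + 2)) hM13 ?_ (by linarith) (by linarith)
        y0 y2 hyy (hd.case1 c (fun i => ?_) h le_rfl)
      · rw [hM]; exact_mod_cast hcase
      · simp only [hc]; omega
  rw [← hid] at hpos
  have hL : 0 ≤ M + 3 * b := by linarith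
  have hmul : (M + 3 * b) * (2 * (p i + p (i + 1) + p (i + 2)) - 3 + E') ≤
      (M + 3 * b) * ∑ i, (a i : ℚ) := by
    exact mul_le_mul_of_nonneg_left (by linarith) hL
  linarith

/-- Four times the bound for the sum of the halves, minus the number of small lines. -/
def phi (h : ℕ) (X : Fin 3 → Finset ℕ) (i : Fin 3) (n : ℕ) : ℚ :=
  4 * ((((n + 1) / 2 : ℕ) : ℚ) + om (mf h X) i (n / 2)) - n

theorem phi_step (i : Fin 3) (n : ℕ) : phi h X i (n + 1) ≤ phi h X i n + 3 := by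
  unfold phi
  rcases Nat.even_or_odd' n with ⟨k, hk | hk⟩
  · rw [show (n + 1 + 1) / 2 = k + 1 by omega, show (n + 1) / 2 = k by omega,
      show n / 2 = k by omega]
    push_cast
    linarith
  · rw [show (n + 1 + 1) / 2 = k + 1 by omega, show (n + 1) / 2 = k + 1 by omega,
      show n / 2 = k by omega]
    have h1 : om (mf h X) i (k + 1) = om (mf h X) i k + mu (mf h X) i (k + 1) := by
      unfold om
      rw [Finset.sum_range_succ]
    have h2 : mu (mf h X) i (k + 1) ≤ 1 := by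
      have h3 := uu_le_one (M := 2 * h + 1) (X := X) (i + 1) (2 * (k + 1))
      have h4 := uu_le_one (M := 2 * h + 1) (X := X) (i + 2) (2 * (k + 1))
      unfold mu mf
      linarith
    rw [h1]
    push_cast
    linarith

theorem phi_int (i : Fin 3) (n : ℕ) : ∃ z : ℤ, phi h X i n = z := by
  have h1 : ∀ t, ∃ z : ℤ, 4 * mu (mf h X) i t = z := by
    intro t
    unfold mu mf
    rcases uu_eq (M := 2 * h + 1) (X := X) (i + 1) (2 * t) with k1 | k1 <;>
      rcases uu_eq (M := 2 * h + 1) (X := X) (i + 2) (2 * t) with k2 | k2 <;> rw [k1, k2]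
    · exact ⟨0, by norm_num⟩
    · exact ⟨2, by norm_num⟩
    · exact ⟨2, by norm_num⟩
    · exact ⟨4, by norm_num⟩
  choose z hz using h1
  unfold phi om
  generalize (n + 1) / 2 = q
  refine ⟨4 * (q : ℤ) + ∑ t ∈ Finset.range (n / 2 + 1), z t - n, ?_⟩
  rw [mul_add, Finset.mul_sum, Finset.sum_congr rfl fun t _ => hz t]
  push_cast
  ring

theorem phi_zero (htri : Tri (2 * h + 1) X) (i : Fin 3) : phi h X i 0 = 0 := by
  unfold phi om mu mf uu
  simp [htri.zero]

/-- **The case near parity.** -/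
theorem near_parity (hh : 6 ≤ h) (htri : Tri (2 * h + 1) X)
    (hodd : ∀ i, ∀ x ∈ X i, x % 2 = 1 → 2 * h + 1 < 2 * x) (a : Fin 3 → ℕ) (k : ℕ)
    (hc : Certs k (2 * h + 1) X a) : 11 * (2 * h + 1 + ∑ i, a i + 1) ≤ 24 * k + 5 := by
  by_contra hcon
  push Not at hcon
  set M : ℕ := 2 * h + 1 with hM
  set Δ : ℕ → ℚ := fun b => ∑ i, phi h X i (min (a i) b) - ((M : ℚ) + 7) with hΔ
  -- `Δ M ≥ 0`
  have hΔM : 0 ≤ Δ M := by
    have h1 := hc.boundA
    have h2 : ∑ i, ∑ j ∈ Finset.Icc 1 (a i), mm (2 * h + 1) X i j ≤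
        ∑ i, ((((min (a i) (2 * h + 1) + 1) / 2 : ℕ) : ℚ) +
          om (mf h X) i (min (a i) (2 * h + 1) / 2)) :=
      Finset.sum_le_sum fun i _ => gamma_le htri i (a i)
    have h3 : ((24 * k + 6 : ℕ) : ℚ) ≤ ((11 * (M + ∑ i, a i + 1) : ℕ) : ℚ) := by
      exact_mod_cast (by omega : 24 * k + 6 ≤ 11 * (M + ∑ i, a i + 1))
    push_cast at h3
    have h4 : ∑ i, ((min (a i) M : ℕ) : ℚ) ≤ ∑ i, (a i : ℚ) :=
      Finset.sum_le_sum fun i _ => by exact_mod_cast min_le_left _ _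
    have h5 : Δ M = 4 * ∑ i, ((((min (a i) M + 1) / 2 : ℕ) : ℚ) +
          om (mf h X) i (min (a i) M / 2)) - ∑ i, ((min (a i) M : ℕ) : ℚ) - ((M : ℚ) + 7) := by
      simp only [hΔ]
      unfold phi
      rw [Finset.sum_sub_distrib, Finset.mul_sum]
    rw [h5]
    linarith
  have hΔ0 : Δ 0 < 0 := by
    have h1 : Δ 0 = -((M : ℚ) + 7) := by
      simp only [hΔ]
      rw [Finset.sum_eq_zero fun i _ => by rw [Nat.min_zero]; exact phi_zero htri i]
      ring
    rw [h1]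
    have : (0 : ℚ) ≤ M := Nat.cast_nonneg M
    linarith
  have hex : ∃ b, 0 ≤ Δ b := ⟨M, hΔM⟩
  classical
  set b := Nat.find hex with hb
  have hb1 : 0 ≤ Δ b := Nat.find_spec hex
  have hbM : b ≤ M := Nat.find_min' hex hΔM
  have hb0 : b ≠ 0 := by
    intro h0
    rw [h0] at hb1
    linarith
  obtain ⟨n, hn⟩ := Nat.exists_eq_succ_of_ne_zero hb0
  rw [Nat.succ_eq_add_one] at hn
  have hn1 : Δ n < 0 := by
    have := Nat.find_min hex (show n < Nat.find hex by rw [← hb]; omega)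
    push Not at this
    exact this
  have hn2 : Δ n ≤ -1 := by
    have hint : ∃ z : ℤ, Δ n = z := by
      choose z hz using fun i => phi_int (h := h) (X := X) i (min (a i) n)
      refine ⟨∑ i, z i - (M + 7), ?_⟩
      simp only [hΔ]
      rw [Finset.sum_congr rfl fun i _ => hz i]
      push_cast
      ring
    obtain ⟨z, hz⟩ := hint
    rw [hz] at hn1 ⊢
    have : z < 0 := by exact_mod_cast hn1
    exact_mod_cast (by omega : z ≤ -1)
  have hstep : ∀ i, phi h X i (min (a i) (n + 1)) ≤ phi h X i (min (a i) n) + 3 := by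
    intro i
    rcases Nat.lt_or_ge n (a i) with hi | hi
    · rw [Nat.min_eq_right (by omega), Nat.min_eq_right (by omega)]
      exact phi_step i n
    · rw [Nat.min_eq_left (by omega), Nat.min_eq_left (by omega)]
      linarith
  have hex2 : ∃ i, b ≤ a i := by
    by_contra hno
    push Not at hno
    have : Δ b = Δ n := by
      simp only [hΔ]
      congr 1
      refine Finset.sum_congr rfl fun i _ => ?_
      have := hno i
      rw [Nat.min_eq_left (by omega), Nat.min_eq_left (by omega)]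
    linarith
  obtain ⟨i, hi⟩ := hex2
  have hb8 : Δ b ≤ 8 := by
    have : Δ b ≤ Δ n + 9 := by
      simp only [hΔ]
      rw [hn]
      have h1 : ∑ i, phi h X i (min (a i) (n + 1)) ≤ ∑ i, (phi h X i (min (a i) n) + 3) :=
        Finset.sum_le_sum fun i _ => hstep i
      rw [Finset.sum_add_distrib] at h1
      simp at h1
      linarith
    linarith
  have h5 : Δ b = 4 * ∑ i, ((((min (a i) b + 1) / 2 : ℕ) : ℚ) +
          om (mf h X) i (min (a i) b / 2)) - ∑ i, ((min (a i) b : ℕ) : ℚ) - ((M : ℚ) + 7) := by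
    simp only [hΔ]
    unfold phi
    rw [Finset.sum_sub_distrib, Finset.mul_sum]
  have hcore := core hh htri hodd a b hbM i hi (by rw [← hM]; linarith) (by rw [← hM]; linarith)
  have := hc.bound (by omega) (b := b) (e := 0) le_rfl (Nat.cast_nonneg b) hcore
  omega

end NP
end Pool.Agent.LibA338c1f
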