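import Pool.Agent.Lib_MP_a338c1_f.Cert

/-!
# From coverings to certificates, and the consequences of the certificates
-/

namespace Pool.Agent.LibA338c1f

variable {M : ℕ} {X : Fin 3 → Finset ℕ}

/-- All certificate inequalities. -/
def Certs (k M : ℕ) (X : Fin 3 → Finset ℕ) (a : Fin 3 → ℕ) : Prop :=
  ∀ b e : ℚ, 0 ≤ e → e ≤ b → CertIneq k M X a b e

/-- The certificate with parameters `b ≥ e ≥ 0` proves the bound. -/
theorem Certs.bound {k : ℕ} {a : Fin 3 → ℕ} (hc : Certs k M X a) (hM : 0 < M) {b e : ℚ}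
    (he : 0 ≤ e) (heb : e ≤ b)
    (h : (11 * ((M : ℚ) + (∑ i, (a i : ℚ)) + 1) - 6) * (M + 3 * b) <
      12 * (3 * b * (M + 1) + PP M X + 2 * e * VV M X + (∑ i, (a i : ℚ)) * (M + 3 * b) -
        JJ M X a b e)) :
    11 * (M + ∑ i, a i + 1) ≤ 24 * k + 5 := by
  have h1 := hc b e he heb
  unfold CertIneq at h1
  have hM' : (0 : ℚ) < M := by exact_mod_cast hM
  have hL : (0 : ℚ) < M + 3 * b := by linarith
  have h2 : (11 * ((M : ℚ) + (∑ i, (a i : ℚ)) + 1) - 6) * (M + 3 * b) < (24 * k) * (M + 3 * b) := by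
    linarith
  have h3 := lt_of_mul_lt_mul_right h2 hL.le
  have h4 : ((11 * (M + ∑ i, a i + 1) : ℕ) : ℚ) < ((24 * k + 6 : ℕ) : ℚ) := by
    push_cast; linarith
  have h5 : 11 * (M + ∑ i, a i + 1) < 24 * k + 6 := by exact_mod_cast h4
  omega

theorem le_zero_of_forall (α β c : ℚ) (h : ∀ b : ℚ, c ≤ b → b * α ≤ β) : α ≤ 0 := by
  by_contra hcon
  push Not at hcon
  have h1 := h (max c (β / α + 1)) (le_max_left _ _)
  have h2 : (β / α + 1) * α ≤ max c (β / α + 1) * α :=
    mul_le_mul_of_nonneg_right (le_max_right _ _) hcon.le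
  have h3 : (β / α + 1) * α = β + α := by field_simp
  linarith

/-- Certificate `A`. -/
theorem Certs.boundA {k : ℕ} {a : Fin 3 → ℕ} (hc : Certs k M X a) :
    3 * ((M : ℚ) + 1 + ∑ i, (a i : ℚ)) - (∑ i, ∑ j ∈ Finset.Icc 1 (a i), mm M X i j) ≤ 6 * k := by
  set Γ : ℚ := ∑ i, ∑ j ∈ Finset.Icc 1 (a i), mm M X i j with hΓ
  set Γ₁ : ℚ := ∑ i, ∑ j ∈ Finset.Icc 1 (a i), (j : ℚ) * mm M X i j with hΓ₁
  set σ : ℚ := ∑ i, (a i : ℚ) with hσ
  have key := le_zero_of_forall (3 * ((M : ℚ) + 1 + σ) - Γ - 6 * k)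
    (2 * M * k - PP M X - σ * M - Γ₁) σ (fun b hb => by
      have hb0 : (0 : ℚ) ≤ b := le_trans (by rw [hσ]; positivity) hb
      have h1 := hc b 0 le_rfl hb0
      unfold CertIneq at h1
      have hJ : JJ M X a b 0 = b * Γ - Γ₁ := by
        rw [hΓ, hΓ₁, Finset.mul_sum, ← Finset.sum_sub_distrib]
        unfold JJ
        refine Finset.sum_congr rfl fun i _ => ?_
        rw [Finset.mul_sum, ← Finset.sum_sub_distrib]
        refine Finset.sum_congr rfl fun j hj => ?_
        have hj' := (Finset.mem_Icc.1 hj).2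
        have hai : (a i : ℚ) ≤ σ := by
          rw [hσ]
          exact Finset.single_le_sum (f := fun i => (a i : ℚ)) (fun i _ => Nat.cast_nonneg _)
            (Finset.mem_univ i)
        have hjb : (j : ℚ) ≤ b := by
          have : (j : ℚ) ≤ a i := by exact_mod_cast hj'
          linarith
        have hj0 : (0 : ℚ) ≤ j := Nat.cast_nonneg j
        rw [max_eq_left (by linarith), max_eq_right (by linarith)]
        ring
      rw [hJ] at h1
      linarith)
  linarith

/-- Certificate `A0`. -/
theorem Certs.boundA0 {k : ℕ} {a : Fin 3 → ℕ} (hc : Certs k M X a) :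
    3 * ((M : ℚ) + 1) + 2 * VV M X + 2 * ∑ i, (a i : ℚ) ≤ 6 * k := by
  set Γ₁ : ℚ := ∑ i, ∑ j ∈ Finset.Icc 1 (a i), (j : ℚ) with hΓ₁
  set σ : ℚ := ∑ i, (a i : ℚ) with hσ
  have key := le_zero_of_forall (3 * ((M : ℚ) + 1) + 2 * VV M X + 2 * σ - 6 * k)
    (2 * M * k - PP M X - σ * M - Γ₁) σ (fun b hb => by
      have hb0 : (0 : ℚ) ≤ b := le_trans (by rw [hσ]; positivity) hb
      have h1 := hc b b hb0 le_rfl
      unfold CertIneq at h1
      have hJ : JJ M X a b b = b * σ - Γ₁ := by
        rw [hΓ₁, hσ, Finset.mul_sum, ← Finset.sum_sub_distrib]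
        unfold JJ
        refine Finset.sum_congr rfl fun i _ => ?_
        have e1 : b * (a i : ℚ) = ∑ j ∈ Finset.Icc 1 (a i), b := by
          rw [Finset.sum_const, Nat.card_Icc, nsmul_eq_mul]
          simp [mul_comm]
        rw [e1, ← Finset.sum_sub_distrib]
        refine Finset.sum_congr rfl fun j hj => ?_
        have hj' := (Finset.mem_Icc.1 hj).2
        have hai : (a i : ℚ) ≤ σ := by
          rw [hσ]
          exact Finset.single_le_sum (f := fun i => (a i : ℚ)) (fun i _ => Nat.cast_nonneg _)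
            (Finset.mem_univ i)
        have hjb : (j : ℚ) ≤ b := by
          have : (j : ℚ) ≤ a i := by exact_mod_cast hj'
          linarith
        rw [max_eq_left (by linarith)]
        ring
      rw [hJ] at h1
      linarith)
  linarith

/-- The form of the main theorem that is proved by combinatorics of the triples `X`. -/
def MainStatement : Prop :=
  ∀ (M : ℕ) (X : Fin 3 → Finset ℕ) (a : Fin 3 → ℕ) (k : ℕ), 0 < M → Tri M X → Certs k M X a →
    11 * (M + ∑ i, a i + 1) ≤ 24 * k + 5

theorem exists_least {ι : Type*} (S : Finset ι) (f : ι → ℕ) :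
    ∃ α : ℕ, (∀ x < α, ∃ q ∈ S, f q = x) ∧ ∀ q ∈ S, f q ≠ α := by
  classical
  have hex : ∃ x : ℕ, ∀ q ∈ S, f q ≠ x := by
    refine ⟨S.sup f + 1, fun q hq h => ?_⟩
    have := Finset.le_sup (f := f) hq
    omega
  refine ⟨Nat.find hex, fun x hx => ?_, Nat.find_spec hex⟩
  have := Nat.find_min hex hx
  push Not at this
  exact this

theorem low_card {ι : Type*} (S : Finset ι) (f : ι → ℕ) (m : ℕ)
    (hf : ∀ x < m, ∃ q ∈ S, f q = x) : m ≤ (S.filter fun q => f q < m).card := by
  classical
  have h : Finset.range m ⊆ (S.filter fun q => f q < m).image f := by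
    intro x hx
    rw [Finset.mem_range] at hx
    obtain ⟨q, hq, hqx⟩ := hf x hx
    exact Finset.mem_image.2 ⟨q, Finset.mem_filter.2 ⟨hq, by omega⟩, hqx⟩
  have h1 := Finset.card_le_card h
  rw [Finset.card_range] at h1
  exact le_trans h1 Finset.card_image_le

/-- The bound for coverings, from the main statement. -/
theorem bound_of_main (hmain : MainStatement) {ι : Type*} (S : Finset ι) (c : Fin 3 → ι → ℕ)
    (N : ℕ) (hsum : ∀ q ∈ S, ∑ i, c i q = N)
    (hcov : ∀ v : Fin 3 → ℕ, ∑ i, v i = N → ∃ q ∈ S, ∃ i, v i = c i q) :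
    11 * (N + 1) ≤ 24 * S.card + 5 := by
  classical
  choose a ha ha' using fun i => exists_least S (c i)
  by_cases hs : ∑ i, a i ≤ N
  · -- the main case
    set M := N - ∑ i, a i with hMdef
    set X : Fin 3 → Finset ℕ := fun i =>
      (Finset.range (M + 1)).filter (fun g => ∀ q ∈ S, c i q ≠ a i + g) with hX
    have hMN : M + ∑ i, a i = N := by omega
    have htri : Tri M X := by
      refine ⟨fun i => ?_, fun i x hx => ?_, ?_⟩
      · refine Finset.mem_filter.2 ⟨Finset.mem_range.2 (by omega), fun q hq => ?_⟩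
        rw [add_zero]; exact ha' i q hq
      · have := Finset.mem_range.1 (Finset.mem_filter.1 hx).1
        omega
      · intro x hx y hy z hz hxyz
        obtain ⟨q, hq, i, hi⟩ := hcov (fun i => a i + ![x, y, z] i) (by
          rw [Finset.sum_add_distrib, Fin.sum_univ_three (fun i => ![x, y, z] i)]
          simp only [Matrix.cons_val_zero, Matrix.cons_val_one, Matrix.cons_val]
          omega)
        fin_cases i
        · exact (Finset.mem_filter.1 hx).2 q hq hi.symm
        · exact (Finset.mem_filter.1 hy).2 q hq hi.symm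
        · exact (Finset.mem_filter.1 hz).2 q hq hi.symm
    have hM0 : 0 < M := by
      rcases Nat.eq_zero_or_pos M with h | h
      · exfalso
        exact htri.free 0 (htri.zero 0) 0 (htri.zero 1) 0 (htri.zero 2) (by omega)
      · exact h
    have hcert : Certs S.card M X a := by
      intro b e he heb
      refine certIneq S c htri a (fun q hq => ?_) ha ?_ he heb
      · rw [hsum q hq]; omega
      · intro i g hg hgX
        by_contra hcon
        push Not at hcon
        exact hgX (Finset.mem_filter.2 ⟨Finset.mem_range.2 (by omega), hcon⟩)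
    have := hmain M X a S.card hM0 htri hcert
    rw [hMN] at this
    exact this
  · -- the easy case
    have hs' : N + 1 ≤ a 0 + a 1 + a 2 := by
      rw [Fin.sum_univ_three] at hs; omega
    obtain ⟨α', β', γ', h1, h2, h3, h4⟩ : ∃ α' β' γ' : ℕ, α' ≤ a 0 ∧ β' ≤ a 1 ∧ γ' ≤ a 2 ∧
        α' + β' + γ' = N + 1 := by
      by_cases i1 : N + 1 ≤ a 0
      · exact ⟨N + 1, 0, 0, i1, by omega, by omega, by omega⟩
      by_cases i2 : N + 1 ≤ a 0 + a 1
      · exact ⟨a 0, N + 1 - a 0, 0, le_refl _, by omega, by omega, by omega⟩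
      · exact ⟨a 0, a 1, N + 1 - a 0 - a 1, le_refl _, le_refl _, by omega, by omega⟩
    have l1 := low_card S (c 0) α' (fun x hx => ha 0 x (by omega))
    have l2 := low_card S (c 1) β' (fun x hx => ha 1 x (by omega))
    have l3 := low_card S (c 2) γ' (fun x hx => ha 2 x (by omega))
    have key : (S.filter fun q => c 0 q < α').card + (S.filter fun q => c 1 q < β').card +
        (S.filter fun q => c 2 q < γ').card ≤ S.card + S.card := by
      rw [Finset.card_eq_sum_ones S]
      simp only [Finset.card_filter]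
      rw [← Finset.sum_add_distrib, ← Finset.sum_add_distrib, ← Finset.sum_add_distrib]
      refine Finset.sum_le_sum fun q hq => ?_
      have := hsum q hq
      rw [Fin.sum_univ_three] at this
      split_ifs <;> omega
    omega

end Pool.Agent.LibA338c1f
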