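import Pool.Agent.Lib_MP_a338c1_f.SearchSound

/-!
# Runs of the search: `M ≤ 22`
-/

namespace Pool.Agent.LibA338c1f
namespace Search

theorem ev_spec {n ev : ℕ} (hlt : ev < 2 ^ n)
    (hd : ∀ x < n, (ev.testBit x = true ↔ x % 2 = 0)) (x : ℕ) :
    ev.testBit x = true ↔ (x < n ∧ x % 2 = 0) := by
  rcases Nat.lt_or_ge x n with h | h
  · rw [hd x h]
    exact ⟨fun h' => ⟨h, h'⟩, fun h' => h'.2⟩
  · have h1 : ev.testBit x = false :=
      Nat.testBit_lt_two_pow (lt_of_lt_of_le hlt (Nat.pow_le_pow_right (by norm_num) h))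
    rw [h1]
    constructor
    · intro h2; simp at h2
    · rintro ⟨h2, _⟩; omega

theorem run1 : srch 1 0 106 (leafS 1) 0 1 0 0 1 1 1 (2 ^ 1) (2 ^ 1) (2 ^ 1) =
    true := by decide +kernel

theorem T2_1 (X Y Z : Finset ℕ) (hN : Nest 1 X Y Z) :
    T2 1 X Y Z ∨ ((∀ x, x ∈ X ↔ (x < 1 ∧ x % 2 = 0)) ∧ ∀ x, x ∈ Z ↔ (x < 1 ∧ x % 2 = 0)) :=
  t2_small (h := 0) (K := 0) (c := 106) (ev := 1) (by norm_num) (by norm_num)
    (ev_spec (n := 1) (by norm_num) (by decide)) run1 X Y Z hN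

theorem run3 : srch 3 116 134 (leafS 5) 1 1 0 0 1 1 1 (2 ^ 3) (2 ^ 3) (2 ^ 3) =
    true := by decide +kernel

theorem T2_3 (X Y Z : Finset ℕ) (hN : Nest 3 X Y Z) :
    T2 3 X Y Z ∨ ((∀ x, x ∈ X ↔ (x < 3 ∧ x % 2 = 0)) ∧ ∀ x, x ∈ Z ↔ (x < 3 ∧ x % 2 = 0)) :=
  t2_small (h := 1) (K := 116) (c := 134) (ev := 5) (by norm_num) (by norm_num)
    (ev_spec (n := 3) (by norm_num) (by decide)) run3 X Y Z hN

theorem run5 : srch 5 522 162 (leafS 21) 2 1 0 0 1 1 1 (2 ^ 5) (2 ^ 5) (2 ^ 5) =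
    true := by decide +kernel

theorem T2_5 (X Y Z : Finset ℕ) (hN : Nest 5 X Y Z) :
    T2 5 X Y Z ∨ ((∀ x, x ∈ X ↔ (x < 5 ∧ x % 2 = 0)) ∧ ∀ x, x ∈ Z ↔ (x < 5 ∧ x % 2 = 0)) :=
  t2_small (h := 2) (K := 522) (c := 162) (ev := 21) (by norm_num) (by norm_num)
    (ev_spec (n := 5) (by norm_num) (by decide)) run5 X Y Z hN

theorem run7 : srch 7 1142 190 (leafS 85) 3 1 0 0 1 1 1 (2 ^ 7) (2 ^ 7) (2 ^ 7) =
    true := by decide +kernel

theorem T2_7 (X Y Z : Finset ℕ) (hN : Nest 7 X Y Z) :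
    T2 7 X Y Z ∨ ((∀ x, x ∈ X ↔ (x < 7 ∧ x % 2 = 0)) ∧ ∀ x, x ∈ Z ↔ (x < 7 ∧ x % 2 = 0)) :=
  t2_small (h := 3) (K := 1142) (c := 190) (ev := 85) (by norm_num) (by norm_num)
    (ev_spec (n := 7) (by norm_num) (by decide)) run7 X Y Z hN

theorem run9 : srch 9 1976 218 (leafS 341) 4 1 0 0 1 1 1 (2 ^ 9) (2 ^ 9) (2 ^ 9) =
    true := by decide +kernel

theorem T2_9 (X Y Z : Finset ℕ) (hN : Nest 9 X Y Z) :
    T2 9 X Y Z ∨ ((∀ x, x ∈ X ↔ (x < 9 ∧ x % 2 = 0)) ∧ ∀ x, x ∈ Z ↔ (x < 9 ∧ x % 2 = 0)) :=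
  t2_small (h := 4) (K := 1976) (c := 218) (ev := 341) (by norm_num) (by norm_num)
    (ev_spec (n := 9) (by norm_num) (by decide)) run9 X Y Z hN

theorem run11 : srch 11 3024 246 (leafS 1365) 5 1 0 0 1 1 1 (2 ^ 11) (2 ^ 11) (2 ^ 11) =
    true := by decide +kernel

theorem T2_11 (X Y Z : Finset ℕ) (hN : Nest 11 X Y Z) :
    T2 11 X Y Z ∨ ((∀ x, x ∈ X ↔ (x < 11 ∧ x % 2 = 0)) ∧ ∀ x, x ∈ Z ↔ (x < 11 ∧ x % 2 = 0)) :=
  t2_small (h := 5) (K := 3024) (c := 246) (ev := 1365) (by norm_num) (by norm_num)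
    (ev_spec (n := 11) (by norm_num) (by decide)) run11 X Y Z hN

theorem run2 : srch 2 0 120 (leafE 0 0 120) 0 1 (120 + 16) 1 1 1 1 (2 ^ 2)
    (2 ^ 2) (2 ^ 2) = true := by decide +kernel

theorem T2_2 (X Y Z : Finset ℕ) (hN : Nest 2 X Y Z) : T2 2 X Y Z :=
  t2_even (h := 0) (K := 0) (c := 120) (by norm_num) (by norm_num) run2 X Y Z hN

theorem run4 : srch 4 218 148 (leafE 1 218 148) 1 1 (148 + 16) 1 1 1 1 (2 ^ 4)
    (2 ^ 4) (2 ^ 4) = true := by decide +kernel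

theorem T2_4 (X Y Z : Finset ℕ) (hN : Nest 4 X Y Z) : T2 4 X Y Z :=
  t2_even (h := 1) (K := 218) (c := 148) (by norm_num) (by norm_num) run4 X Y Z hN

theorem run6 : srch 6 704 176 (leafE 2 704 176) 2 1 (176 + 16) 1 1 1 1 (2 ^ 6)
    (2 ^ 6) (2 ^ 6) = true := by decide +kernel

theorem T2_6 (X Y Z : Finset ℕ) (hN : Nest 6 X Y Z) : T2 6 X Y Z :=
  t2_even (h := 2) (K := 704) (c := 176) (by norm_num) (by norm_num) run6 X Y Z hN

theorem run8 : srch 8 1404 204 (leafE 3 1404 204) 3 1 (204 + 16) 1 1 1 1 (2 ^ 8)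
    (2 ^ 8) (2 ^ 8) = true := by decide +kernel

theorem T2_8 (X Y Z : Finset ℕ) (hN : Nest 8 X Y Z) : T2 8 X Y Z :=
  t2_even (h := 3) (K := 1404) (c := 204) (by norm_num) (by norm_num) run8 X Y Z hN

theorem run10 : srch 10 2318 232 (leafE 4 2318 232) 4 1 (232 + 16) 1 1 1 1 (2 ^ 10)
    (2 ^ 10) (2 ^ 10) = true := by decide +kernel

theorem T2_10 (X Y Z : Finset ℕ) (hN : Nest 10 X Y Z) : T2 10 X Y Z :=
  t2_even (h := 4) (K := 2318) (c := 232) (by norm_num) (by norm_num) run10 X Y Z hN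

theorem run12 : srch 12 3446 260 (leafE 5 3446 260) 5 1 (260 + 16) 1 1 1 1 (2 ^ 12)
    (2 ^ 12) (2 ^ 12) = true := by decide +kernel

theorem T2_12 (X Y Z : Finset ℕ) (hN : Nest 12 X Y Z) : T2 12 X Y Z :=
  t2_even (h := 5) (K := 3446) (c := 260) (by norm_num) (by norm_num) run12 X Y Z hN

theorem run14 : srch 14 4788 288 (leafE 6 4788 288) 6 1 (288 + 16) 1 1 1 1 (2 ^ 14)
    (2 ^ 14) (2 ^ 14) = true := by decide +kernel

theorem T2_14 (X Y Z : Finset ℕ) (hN : Nest 14 X Y Z) : T2 14 X Y Z :=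
  t2_even (h := 6) (K := 4788) (c := 288) (by norm_num) (by norm_num) run14 X Y Z hN

theorem run16 : srch 16 6344 316 (leafE 7 6344 316) 7 1 (316 + 16) 1 1 1 1 (2 ^ 16)
    (2 ^ 16) (2 ^ 16) = true := by decide +kernel

theorem T2_16 (X Y Z : Finset ℕ) (hN : Nest 16 X Y Z) : T2 16 X Y Z :=
  t2_even (h := 7) (K := 6344) (c := 316) (by norm_num) (by norm_num) run16 X Y Z hN

theorem run18 : srch 18 8114 344 (leafE 8 8114 344) 8 1 (344 + 16) 1 1 1 1 (2 ^ 18)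
    (2 ^ 18) (2 ^ 18) = true := by decide +kernel

theorem T2_18 (X Y Z : Finset ℕ) (hN : Nest 18 X Y Z) : T2 18 X Y Z :=
  t2_even (h := 8) (K := 8114) (c := 344) (by norm_num) (by norm_num) run18 X Y Z hN

theorem run20 : srch 20 10098 372 (leafE 9 10098 372) 9 1 (372 + 16) 1 1 1 1 (2 ^ 20)
    (2 ^ 20) (2 ^ 20) = true := by decide +kernel

theorem T2_20 (X Y Z : Finset ℕ) (hN : Nest 20 X Y Z) : T2 20 X Y Z :=
  t2_even (h := 9) (K := 10098) (c := 372) (by norm_num) (by norm_num) run20 X Y Z hN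

theorem run22 : srch 22 12296 400 (leafE 10 12296 400) 10 1 (400 + 16) 1 1 1 1 (2 ^ 22)
    (2 ^ 22) (2 ^ 22) = true := by decide +kernel

theorem T2_22 (X Y Z : Finset ℕ) (hN : Nest 22 X Y Z) : T2 22 X Y Z :=
  t2_even (h := 10) (K := 12296) (c := 400) (by norm_num) (by norm_num) run22 X Y Z hN

theorem run13 : srch 13 4286 274 (leafO 42) 6 1 0 0 1 1 1 (2 ^ 13) (2 ^ 13) (2 ^ 13) =
    true := by decide +kernel

theorem T2_13 (X Y Z : Finset ℕ) (hN : Nest 13 X Y Z)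
    (hfar : ∃ x ∈ X, x % 2 = 1 ∧ 2 * x < 13) : T2 13 X Y Z :=
  t2_odd (h := 6) (K := 4286) (c := 274) (lo := 42) (by norm_num) (by norm_num)
    (by decide) run13 X Y Z hN hfar

theorem run15 : srch 15 5762 302 (leafO 170) 7 1 0 0 1 1 1 (2 ^ 15) (2 ^ 15) (2 ^ 15) =
    true := by decide +kernel

theorem T2_15 (X Y Z : Finset ℕ) (hN : Nest 15 X Y Z)
    (hfar : ∃ x ∈ X, x % 2 = 1 ∧ 2 * x < 15) : T2 15 X Y Z :=
  t2_odd (h := 7) (K := 5762) (c := 302) (lo := 170) (by norm_num) (by norm_num)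
    (by decide) run15 X Y Z hN hfar

theorem run17 : srch 17 7452 330 (leafO 170) 8 1 0 0 1 1 1 (2 ^ 17) (2 ^ 17) (2 ^ 17) =
    true := by decide +kernel

theorem T2_17 (X Y Z : Finset ℕ) (hN : Nest 17 X Y Z)
    (hfar : ∃ x ∈ X, x % 2 = 1 ∧ 2 * x < 17) : T2 17 X Y Z :=
  t2_odd (h := 8) (K := 7452) (c := 330) (lo := 170) (by norm_num) (by norm_num)
    (by decide) run17 X Y Z hN hfar

theorem run19 : srch 19 9356 358 (leafO 682) 9 1 0 0 1 1 1 (2 ^ 19) (2 ^ 19) (2 ^ 19) =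
    true := by decide +kernel

theorem T2_19 (X Y Z : Finset ℕ) (hN : Nest 19 X Y Z)
    (hfar : ∃ x ∈ X, x % 2 = 1 ∧ 2 * x < 19) : T2 19 X Y Z :=
  t2_odd (h := 9) (K := 9356) (c := 358) (lo := 682) (by norm_num) (by norm_num)
    (by decide) run19 X Y Z hN hfar

theorem run21 : srch 21 11474 386 (leafO 682) 10 1 0 0 1 1 1 (2 ^ 21) (2 ^ 21) (2 ^ 21) =
    true := by decide +kernel

theorem T2_21 (X Y Z : Finset ℕ) (hN : Nest 21 X Y Z)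
    (hfar : ∃ x ∈ X, x % 2 = 1 ∧ 2 * x < 21) : T2 21 X Y Z :=
  t2_odd (h := 10) (K := 11474) (c := 386) (lo := 682) (by norm_num) (by norm_num)
    (by decide) run21 X Y Z hN hfar

end Search
end Pool.Agent.LibA338c1f
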