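import Pool.Agent.Lib_MP_a338c1_f.Interface

/-!
# A verified branch and bound for `T2`

The pairs `(g, M - g)` of lines are decided for `g = 1, 2, …`; the state of a pair is
`(f g, f (M - g))` with `f` the number of the nested sets containing the line.  The code is written
with `Nat.rec`, `Bool.rec` and the plain operations on `Nat`, to be fast in the kernel.
-/

namespace Pool.Agent.LibA338c1f
namespace Search

/-- `force n f = f n`, with `n` evaluated first. -/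
def force (n : ℕ) (f : ℕ → Bool) : Bool :=
  @Nat.rec (fun _ => Bool) (f 0) (fun k _ => f (Nat.succ k)) n

/-- No `y ∈ A` with `y + a ∈ B`. -/
abbrev miss (A a B : ℕ) : Bool := Nat.beq (Nat.land (Nat.shiftLeft A a) B) 0

/-- The type of the continuation: arguments `g C U A1 A2 A3 R1 R2 R3`. -/
abbrev Nxt := ℕ → ℕ → ℕ → ℕ → ℕ → ℕ → ℕ → ℕ → ℕ → Bool

/-- The line `x` gets into three sets. -/
def br3 (ih : Nxt) (K g C U A1 A2 A3 R1 R2 R3 x bx by' : ℕ) : Bool :=
  @Bool.rec (fun _ => Bool) true (@Bool.rec (fun _ => Bool) true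
    (force C fun C => force (Nat.lor A1 bx) fun B1 => force (Nat.lor R2 by') fun S2 =>
     force (Nat.lor A2 bx) fun B2 => force (Nat.lor A3 bx) fun B3 =>
      force (Nat.lor R1 by') fun S1 => force (Nat.lor R3 by') fun S3 =>
      ih g C U B1 B2 B3 S1 S2 S3)
    (Nat.beq (Nat.land (Nat.shiftLeft (Nat.lor A1 bx) x) (Nat.lor R2 by')) 0)) (Nat.ble C K)

/-- The line `x` gets into two sets. -/
def br2 (ih : Nxt) (K g C U A1 A2 A3 R1 R2 R3 x bx by' : ℕ) : Bool :=
  @Bool.rec (fun _ => Bool) true (@Bool.rec (fun _ => Bool) true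
    (force C fun C => force (Nat.lor A1 bx) fun B1 => force (Nat.lor A2 bx) fun B2 =>
      force (Nat.lor R1 by') fun S1 => force (Nat.lor R2 by') fun S2 =>
      ih g C (Nat.add U 2) B1 B2 A3 S1 S2 R3)
    (Nat.beq (Nat.land (Nat.shiftLeft (Nat.lor A1 bx) x) R3) 0)) (Nat.ble C K)

/-- The line `x` gets into one set. -/
def br1 (ih : Nxt) (K g C U A1 A2 A3 R1 R2 R3 x bx by' : ℕ) : Bool :=
  @Bool.rec (fun _ => Bool) true (@Bool.rec (fun _ => Bool) true
    (force C fun C => force (Nat.lor A1 bx) fun B1 =>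
      force (Nat.lor R1 by') fun S1 => ih g C (Nat.add U 4) B1 A2 A3 S1 R2 R3)
    (Nat.beq (Nat.land (Nat.shiftLeft A2 x) R3) 0)) (Nat.ble C K)

/-- The lines `x` and `y` get into one set. -/
def br11 (ih : Nxt) (K g C U A1 A2 A3 R1 R2 R3 x bx by' y : ℕ) : Bool :=
  @Bool.rec (fun _ => Bool) true (@Bool.rec (fun _ => Bool) true (@Bool.rec (fun _ => Bool) true
    (force C fun C => force (Nat.lor (Nat.lor A1 bx) by') fun B1 =>
      force (Nat.lor (Nat.lor R1 by') bx) fun S1 => ih g C (Nat.add U 2) B1 A2 A3 S1 R2 R3)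
    (Nat.beq (Nat.land (Nat.shiftLeft A2 y) R3) 0))
    (Nat.beq (Nat.land (Nat.shiftLeft A2 x) R3) 0)) (Nat.ble C K)

/-- Both lines in no set. -/
def br0 (ih : Nxt) (K g C U A1 A2 A3 R1 R2 R3 : ℕ) : Bool :=
  @Bool.rec (fun _ => Bool) true (force C fun C => ih g C (Nat.add U 6) A1 A2 A3 R1 R2 R3)
    (Nat.ble C K)

/-- The eight states of a pair. -/
def node (K c : ℕ) (ih : Nxt) (g C U A1 A2 A3 R1 R2 R3 h bg bh g' : ℕ) : Bool :=
  @Bool.rec (fun _ => Bool) false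
  (@Bool.rec (fun _ => Bool) false
  (@Bool.rec (fun _ => Bool) false
  (@Bool.rec (fun _ => Bool) false
  (@Bool.rec (fun _ => Bool) false
  (@Bool.rec (fun _ => Bool) false
  (@Bool.rec (fun _ => Bool) false
  (br0 ih K g' (Nat.add C (Nat.add (Nat.mul 162 h) (Nat.add (Nat.mul 6 c)
    (Nat.add (Nat.mul 192 U) 576)))) U A1 A2 A3 R1 R2 R3)
  (br1 ih K g' (Nat.add C (Nat.add (Nat.mul 54 (Nat.sub (Nat.mul 3 h) g)) (Nat.add (Nat.mul 4 c)
    (Nat.add (Nat.mul 128 U) 256)))) U A1 A2 A3 R1 R2 R3 h bh bg))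
  (br1 ih K g' (Nat.add C (Nat.add (Nat.mul 108 h) (Nat.add (Nat.mul 4 c)
    (Nat.add (Nat.mul 128 U) 256)))) U A1 A2 A3 R1 R2 R3 g bg bh))
  (br11 ih K g' (Nat.add C (Nat.add (Nat.mul 54 (Nat.sub (Nat.mul 2 h) g)) (Nat.add (Nat.mul 2 c)
    (Nat.add (Nat.mul 64 U) 64)))) U A1 A2 A3 R1 R2 R3 g bg bh h))
  (br2 ih K g' (Nat.add C (Nat.add (Nat.mul 54 (Nat.sub (Nat.mul 3 h) (Nat.mul 2 g)))
    (Nat.add (Nat.mul 2 c) (Nat.add (Nat.mul 64 U) 64)))) U A1 A2 A3 R1 R2 R3 h bh bg))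
  (br2 ih K g' (Nat.add C (Nat.add (Nat.mul 54 h) (Nat.add (Nat.mul 2 c)
    (Nat.add (Nat.mul 64 U) 64)))) U A1 A2 A3 R1 R2 R3 g bg bh))
  (br3 ih K g' (Nat.add C (Nat.mul 162 (Nat.sub h g))) U A1 A2 A3 R1 R2 R3 h bh bg))
  (br3 ih K g' C U A1 A2 A3 R1 R2 R3 g bg bh)

/-- The search: `n` pairs remain, the current pair is `g`, the cost is `C`, the deficit `U`. -/
def srch (M K c : ℕ) (leaf : ℕ → ℕ → ℕ → ℕ → ℕ → ℕ → Bool) (n : ℕ) : Nxt :=
  @Nat.rec (fun _ => Nxt)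
    (fun _ C U A1 A2 A3 _ _ R3 => leaf C U A1 A2 A3 R3)
    (fun _ ih g C U A1 A2 A3 R1 R2 R3 =>
      force g fun g => force (Nat.sub M g) fun h => force (Nat.shiftLeft 1 g) fun bg =>
      force (Nat.shiftLeft 1 h) fun bh =>
      force U fun U => node K c ih g C U A1 A2 A3 R1 R2 R3 h bg bh (Nat.succ g)) n

/-! ### Elimination -/

theorem force_eq (n : ℕ) (f : ℕ → Bool) : force n f = f n := by
  cases n <;> rfl

theorem rec_true (b x : Bool) :
    (@Bool.rec (fun _ => Bool) true x b = true) ↔ (b = true → x = true) := by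
  cases b <;> simp

theorem rec_false (b x : Bool) :
    (@Bool.rec (fun _ => Bool) false x b = true) ↔ (b = true ∧ x = true) := by
  cases b <;> simp

theorem ble_iff (a b : ℕ) : Nat.ble a b = true ↔ a ≤ b := by rw [Nat.ble_eq]

variable {ih : Nxt} {K g C U A1 A2 A3 R1 R2 R3 x bx bx' y : ℕ}

theorem br3_iff : br3 ih K g C U A1 A2 A3 R1 R2 R3 x bx bx' = true ↔
    (C ≤ K → miss (Nat.lor A1 bx) x (Nat.lor R2 bx') = true →
      ih g C U (Nat.lor A1 bx) (Nat.lor A2 bx) (Nat.lor A3 bx) (Nat.lor R1 bx') (Nat.lor R2 bx')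
        (Nat.lor R3 bx') = true) := by
  unfold br3
  simp only [force_eq, rec_true, ble_iff]

theorem br2_iff : br2 ih K g C U A1 A2 A3 R1 R2 R3 x bx bx' = true ↔
    (C ≤ K → miss (Nat.lor A1 bx) x R3 = true →
      ih g C (U + 2) (Nat.lor A1 bx) (Nat.lor A2 bx) A3 (Nat.lor R1 bx') (Nat.lor R2 bx') R3 =
        true) := by
  unfold br2
  simp only [force_eq, rec_true, ble_iff]

theorem br1_iff : br1 ih K g C U A1 A2 A3 R1 R2 R3 x bx bx' = true ↔
    (C ≤ K → miss A2 x R3 = true →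
      ih g C (U + 4) (Nat.lor A1 bx) A2 A3 (Nat.lor R1 bx') R2 R3 = true) := by
  unfold br1
  simp only [force_eq, rec_true, ble_iff]

theorem br11_iff : br11 ih K g C U A1 A2 A3 R1 R2 R3 x bx bx' y = true ↔
    (C ≤ K → miss A2 x R3 = true → miss A2 y R3 = true →
      ih g C (U + 2) (Nat.lor (Nat.lor A1 bx) bx') A2 A3 (Nat.lor (Nat.lor R1 bx') bx) R2 R3 =
        true) := by
  unfold br11
  simp only [force_eq, rec_true, ble_iff]

theorem br0_iff : br0 ih K g C U A1 A2 A3 R1 R2 R3 = true ↔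
    (C ≤ K → ih g C (U + 6) A1 A2 A3 R1 R2 R3 = true) := by
  unfold br0
  simp only [force_eq, rec_true, ble_iff]

/-- The eight branches of a node, in the order (3,0), (0,3), (2,0), (0,2), (1,1), (1,0), (0,1),
(0,0). -/
theorem srch_succ {M c n : ℕ} {leaf : ℕ → ℕ → ℕ → ℕ → ℕ → ℕ → Bool} :
    srch M K c leaf (n + 1) g C U A1 A2 A3 R1 R2 R3 = true ↔
      (br3 (srch M K c leaf n) K (g + 1) C U A1 A2 A3 R1 R2 R3 g (Nat.shiftLeft 1 g)
          (Nat.shiftLeft 1 (M - g)) = true ∧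
        br3 (srch M K c leaf n) K (g + 1) (C + 162 * (M - g - g)) U A1 A2 A3 R1 R2 R3 (M - g)
          (Nat.shiftLeft 1 (M - g)) (Nat.shiftLeft 1 g) = true ∧
        br2 (srch M K c leaf n) K (g + 1) (C + (54 * (M - g) + (2 * c + (64 * U + 64)))) U
          A1 A2 A3 R1 R2 R3 g (Nat.shiftLeft 1 g) (Nat.shiftLeft 1 (M - g)) = true ∧
        br2 (srch M K c leaf n) K (g + 1)
          (C + (54 * (3 * (M - g) - 2 * g) + (2 * c + (64 * U + 64)))) U
          A1 A2 A3 R1 R2 R3 (M - g) (Nat.shiftLeft 1 (M - g)) (Nat.shiftLeft 1 g) = true ∧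
        br11 (srch M K c leaf n) K (g + 1) (C + (54 * (2 * (M - g) - g) + (2 * c + (64 * U + 64))))
          U A1 A2 A3 R1 R2 R3 g (Nat.shiftLeft 1 g) (Nat.shiftLeft 1 (M - g)) (M - g) = true ∧
        br1 (srch M K c leaf n) K (g + 1) (C + (108 * (M - g) + (4 * c + (128 * U + 256)))) U
          A1 A2 A3 R1 R2 R3 g (Nat.shiftLeft 1 g) (Nat.shiftLeft 1 (M - g)) = true ∧
        br1 (srch M K c leaf n) K (g + 1)
          (C + (54 * (3 * (M - g) - g) + (4 * c + (128 * U + 256)))) U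
          A1 A2 A3 R1 R2 R3 (M - g) (Nat.shiftLeft 1 (M - g)) (Nat.shiftLeft 1 g) = true ∧
        br0 (srch M K c leaf n) K (g + 1) (C + (162 * (M - g) + (6 * c + (192 * U + 576)))) U
          A1 A2 A3 R1 R2 R3 = true) := by
  have h1 : srch M K c leaf (n + 1) g C U A1 A2 A3 R1 R2 R3 =
      node K c (srch M K c leaf n) g C U A1 A2 A3 R1 R2 R3 (M - g) (Nat.shiftLeft 1 g)
        (Nat.shiftLeft 1 (M - g)) (g + 1) := by
    show (force g fun g => force (Nat.sub M g) fun h => force (Nat.shiftLeft 1 g) fun bg =>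
      force (Nat.shiftLeft 1 h) fun bh =>
      force U fun U => node K c (srch M K c leaf n) g C U A1 A2 A3 R1 R2 R3 h bg bh
        (Nat.succ g)) = _
    simp only [force_eq]
    rfl
  rw [h1]
  unfold node
  simp only [rec_false]
  rfl

/-! ### The concrete searches -/

/-- The constant of the search for odd `M = 2 h + 1`. -/
def KO (h : ℕ) : ℕ :=
  54 * (3 * (2 * h + 1) + 3 * (h * (3 * h + 1)) / 2) - (34 * (2 * h + 1) ^ 2 + 92 * (2 * h + 1) + 112)

/-- The constant of the search for even `M = 2 h + 2`. -/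
def KE (h : ℕ) : ℕ :=
  54 * (3 * (2 * h + 2) + 3 * (h * (3 * h + 3)) / 2 + (h + 1)) -
    (34 * (2 * h + 2) ^ 2 + 92 * (2 * h + 2) + 112)

/-- The leaves for odd `M ≥ 13`: no low odd line. -/
def leafO (lo : ℕ) (_ _ A1 _ _ _ : ℕ) : Bool := Nat.beq (Nat.land A1 lo) 0

/-- The leaves for odd `M ≤ 11`: the parity structure. -/
def leafS (ev : ℕ) (_ _ A1 _ A3 _ : ℕ) : Bool :=
  @Bool.rec (fun _ => Bool) false (Nat.beq A3 ev) (Nat.beq A1 ev)

/-- The leaves for even `M = 2 h + 2`: the line `h + 1` in no set or in one set. -/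
def leafE (h K c : ℕ) (C U _ A2 _ R3 : ℕ) : Bool :=
  @Bool.rec (fun _ => Bool) (@Bool.rec (fun _ => Bool) true
      (@Bool.rec (fun _ => Bool) true false (miss A2 (h + 1) R3)) (Nat.ble C K)) false
    (Nat.ble (C + 54 * (h + 1) + 2 * c + 64 * U + 64) K)

end Search
end Pool.Agent.LibA338c1f
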