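import Pool.Agent.Lib_MP_a338c1_f.Search

/-!
# Soundness of the search
-/

namespace Pool.Agent.LibA338c1f
namespace Search

variable {M : ℕ} {X Y Z : Finset ℕ}

/-- The number of sets containing `g`. -/
def lv (X Y Z : Finset ℕ) (g : ℕ) : ℤ :=
  (if g ∈ X then 1 else 0) + (if g ∈ Y then 1 else 0) + (if g ∈ Z then 1 else 0)

/-- The loss of the pairs before `g`. -/
def Lz (M : ℕ) (X Y Z : Finset ℕ) (g : ℕ) : ℤ :=
  ∑ x ∈ Finset.Ico 1 g, (3 * ((M : ℤ) - x) - lv X Y Z x * (M - x) - lv X Y Z (M - x) * x)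

/-- The deficit of the pairs before `g`. -/
def Uz (M : ℕ) (X Y Z : Finset ℕ) (U0 : ℤ) (g : ℕ) : ℤ :=
  U0 + ∑ x ∈ Finset.Ico 1 g, (6 - 2 * lv X Y Z x - 2 * lv X Y Z (M - x))

/-- The cost of the pairs before `g`. -/
def Cz (M : ℕ) (X Y Z : Finset ℕ) (c U0 : ℤ) (g : ℕ) : ℤ :=
  54 * Lz M X Y Z g + c * Uz M X Y Z U0 g + 16 * (Uz M X Y Z U0 g) ^ 2

/-- The mask of the decided part of `S`. -/
def MaskOK (S : Finset ℕ) (M g A : ℕ) : Prop :=
  ∀ y, A.testBit y = true ↔ (y ∈ S ∧ (y < g ∨ M < y + g))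

/-- The reflected set. -/
def rev (M : ℕ) (S : Finset ℕ) : Finset ℕ := (Finset.range (M + 1)).filter fun y => M - y ∈ S

theorem mem_rev {S : Finset ℕ} {y : ℕ} (hy : y ≤ M) : y ∈ rev M S ↔ M - y ∈ S := by
  unfold rev
  rw [Finset.mem_filter, Finset.mem_range]
  exact ⟨fun h => h.2, fun h => ⟨by omega, h⟩⟩

theorem mem_rev' {S : Finset ℕ} {y : ℕ} (hy : y ≤ M) : M - y ∈ rev M S ↔ y ∈ S := by
  rw [mem_rev (by omega), show M - (M - y) = y by omega]

theorem testBit_one_shift (g y : ℕ) : (Nat.shiftLeft 1 g).testBit y = true ↔ y = g := by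
  have h1 : Nat.shiftLeft 1 g = 2 ^ g := by
    show 1 <<< g = 2 ^ g
    rw [Nat.one_shiftLeft]
  rw [h1, Nat.testBit_two_pow]
  simp [eq_comm]

theorem testBit_lor (A B y : ℕ) :
    (Nat.lor A B).testBit y = true ↔ (A.testBit y = true ∨ B.testBit y = true) := by
  have : (Nat.lor A B).testBit y = (A.testBit y || B.testBit y) := Nat.testBit_or A B y
  rw [this, Bool.or_eq_true]

theorem MaskOK.none {S : Finset ℕ} {g A : ℕ} (hA : MaskOK S M g A) (h1 : g ∉ S) (h2 : M - g ∉ S) :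
    MaskOK S M (g + 1) A := by
  intro y
  rw [hA y]
  constructor
  · rintro ⟨hy, h⟩; exact ⟨hy, by omega⟩
  · rintro ⟨hy, h⟩
    refine ⟨hy, ?_⟩
    by_contra hcon
    push Not at hcon
    rcases h with h | h
    · have : y = g := by omega
      exact h1 (this ▸ hy)
    · have : y = M - g := by omega
      exact h2 (this ▸ hy)

theorem MaskOK.low {S : Finset ℕ} {g A : ℕ} (hA : MaskOK S M g A) (h1 : g ∈ S) (h2 : M - g ∉ S) :
    MaskOK S M (g + 1) (Nat.lor A (Nat.shiftLeft 1 g)) := by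
  intro y
  rw [testBit_lor, hA y, testBit_one_shift]
  constructor
  · rintro (⟨hy, h⟩ | rfl)
    · exact ⟨hy, by omega⟩
    · exact ⟨h1, by omega⟩
  · rintro ⟨hy, h⟩
    by_contra hcon
    push Not at hcon
    have h3 := hcon.1 hy
    rcases h with h | h
    · exact hcon.2 (by omega)
    · have : y = M - g := by omega
      exact h2 (this ▸ hy)

theorem MaskOK.high {S : Finset ℕ} {g A : ℕ} (hA : MaskOK S M g A) (h1 : g ∉ S) (h2 : M - g ∈ S)
    (hg : g ≤ M) : MaskOK S M (g + 1) (Nat.lor A (Nat.shiftLeft 1 (M - g))) := by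
  intro y
  rw [testBit_lor, hA y, testBit_one_shift]
  constructor
  · rintro (⟨hy, h⟩ | rfl)
    · exact ⟨hy, by omega⟩
    · exact ⟨h2, by omega⟩
  · rintro ⟨hy, h⟩
    by_contra hcon
    push Not at hcon
    have h3 := hcon.1 hy
    rcases h with h | h
    · have : y = g := by omega
      exact h1 (this ▸ hy)
    · exact hcon.2 (by omega)

theorem MaskOK.both {S : Finset ℕ} {g A : ℕ} (hA : MaskOK S M g A) (h1 : g ∈ S) (h2 : M - g ∈ S)
    (hg : g ≤ M) :
    MaskOK S M (g + 1) (Nat.lor (Nat.lor A (Nat.shiftLeft 1 g)) (Nat.shiftLeft 1 (M - g))) := by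
  intro y
  rw [testBit_lor, testBit_lor, hA y, testBit_one_shift, testBit_one_shift]
  constructor
  · rintro ((⟨hy, h⟩ | rfl) | rfl)
    · exact ⟨hy, by omega⟩
    · exact ⟨h1, by omega⟩
    · exact ⟨h2, by omega⟩
  · rintro ⟨hy, h⟩
    by_contra hcon
    push Not at hcon
    have h3 := hcon.1.1 hy
    rcases h with h | h
    · exact hcon.1.2 (by omega)
    · exact hcon.2 (by omega)

theorem MaskOK.both' {S : Finset ℕ} {g A : ℕ} (hA : MaskOK S M g A) (h1 : g ∈ S) (h2 : M - g ∈ S)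
    (hg : g ≤ M) :
    MaskOK S M (g + 1) (Nat.lor (Nat.lor A (Nat.shiftLeft 1 (M - g))) (Nat.shiftLeft 1 g)) := by
  intro y
  have h := hA.both h1 h2 hg y
  rw [← h, testBit_lor, testBit_lor, testBit_lor, testBit_lor]
  tauto

theorem miss_ok {S T : Finset ℕ} {g g' A B a : ℕ} (hA : MaskOK S M g A)
    (hB : MaskOK (rev M T) M g' B) (hfree : ∀ s ∈ S, ∀ t ∈ T, s + a + t ≠ M) :
    miss A a B = true := by
  show Nat.beq (Nat.land (Nat.shiftLeft A a) B) 0 = true
  rw [Nat.beq_eq]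
  refine Nat.zero_of_testBit_eq_false fun y => ?_
  by_contra hcon
  rw [Bool.not_eq_false] at hcon
  have h1 : (Nat.land (Nat.shiftLeft A a) B).testBit y =
      ((Nat.shiftLeft A a).testBit y && B.testBit y) := Nat.testBit_and _ _ y
  rw [h1, Bool.and_eq_true] at hcon
  obtain ⟨h2, h3⟩ := hcon
  have h4 : (Nat.shiftLeft A a).testBit y = (decide (y ≥ a) && A.testBit (y - a)) := by
    show (A <<< a).testBit y = _
    rw [Nat.testBit_shiftLeft]
  rw [h4, Bool.and_eq_true, decide_eq_true_eq] at h2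
  have h5 := (hA _).1 h2.2
  have h6 := (hB _).1 h3
  have h7 : y ≤ M ∧ M - y ∈ T := by
    have := h6.1
    unfold rev at this
    rw [Finset.mem_filter, Finset.mem_range] at this
    exact ⟨by omega, this.2⟩
  exact hfree _ h5.1 _ h7.2 (by omega)

theorem cond_true_iff (b x : Bool) : (cond b x true = true) ↔ (b = true → x = true) := by
  cases b <;> simp

/-- The possible states of a pair. -/
theorem states (hN : Nest M X Y Z) {g : ℕ} (hg2 : 2 * g < M) :
    (g ∈ Z ∧ M - g ∉ X) ∨ (M - g ∈ Z ∧ g ∉ X) ∨ (g ∈ Y ∧ g ∉ Z ∧ M - g ∉ X) ∨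
    (M - g ∈ Y ∧ M - g ∉ Z ∧ g ∉ X) ∨ (g ∈ X ∧ g ∉ Y ∧ M - g ∈ X ∧ M - g ∉ Y) ∨
    (g ∈ X ∧ g ∉ Y ∧ M - g ∉ X) ∨ (M - g ∈ X ∧ M - g ∉ Y ∧ g ∉ X) ∨ (g ∉ X ∧ M - g ∉ X) := by
  have h0Y := hN.ZY hN.zero
  have h0X := hN.YX h0Y
  by_cases gX : g ∈ X
  · by_cases hX : M - g ∈ X
    · have gY : g ∉ Y := fun gY => hN.free _ hX _ gY _ hN.zero (by omega)
      have hY : M - g ∉ Y := fun hY => hN.free _ gX _ hY _ hN.zero (by omega)
      exact Or.inr (Or.inr (Or.inr (Or.inr (Or.inl ⟨gX, gY, hX, hY⟩))))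
    · by_cases gY : g ∈ Y
      · by_cases gZ : g ∈ Z
        · exact Or.inl ⟨gZ, hX⟩
        · exact Or.inr (Or.inr (Or.inl ⟨gY, gZ, hX⟩))
      · exact Or.inr (Or.inr (Or.inr (Or.inr (Or.inr (Or.inl ⟨gX, gY, hX⟩)))))
  · by_cases hX : M - g ∈ X
    · by_cases hY : M - g ∈ Y
      · by_cases hZ : M - g ∈ Z
        · exact Or.inr (Or.inl ⟨hZ, gX⟩)
        · exact Or.inr (Or.inr (Or.inr (Or.inl ⟨hY, hZ, gX⟩)))
      · exact Or.inr (Or.inr (Or.inr (Or.inr (Or.inr (Or.inr (Or.inl ⟨hX, hY, gX⟩))))))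
    · exact Or.inr (Or.inr (Or.inr (Or.inr (Or.inr (Or.inr (Or.inr ⟨gX, hX⟩))))))

theorem Lz_succ {g : ℕ} (hg : 1 ≤ g) : Lz M X Y Z (g + 1) = Lz M X Y Z g +
    (3 * ((M : ℤ) - g) - lv X Y Z g * (M - g) - lv X Y Z (M - g) * g) := by
  unfold Lz
  rw [Finset.sum_Ico_succ_top hg]

theorem Uz_succ {U0 : ℤ} {g : ℕ} (hg : 1 ≤ g) : Uz M X Y Z U0 (g + 1) = Uz M X Y Z U0 g +
    (6 - 2 * lv X Y Z g - 2 * lv X Y Z (M - g)) := by
  unfold Uz
  rw [Finset.sum_Ico_succ_top hg]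
  ring

/-- The values of the two counts in a pair. -/
theorem lv_pair (hN : Nest M X Y Z) {g : ℕ} (hg2 : 2 * g < M) :
    0 ≤ lv X Y Z g ∧ 0 ≤ lv X Y Z (M - g) ∧ lv X Y Z g + lv X Y Z (M - g) ≤ 3 := by
  have h1 : ∀ x, 0 ≤ lv X Y Z x := by
    intro x; unfold lv; split_ifs <;> norm_num
  refine ⟨h1 _, h1 _, ?_⟩
  have hZX : Z ⊆ X := fun x hx => hN.YX (hN.ZY hx)
  rcases states hN hg2 with h | h | h | h | h | h | h | h
  · have a1 : M - g ∉ Y := fun hh => h.2 (hN.YX hh)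
    have a2 : M - g ∉ Z := fun hh => h.2 (hZX hh)
    unfold lv
    rw [if_neg h.2, if_neg a1, if_neg a2]
    split_ifs <;> norm_num
  · have a1 : g ∉ Y := fun hh => h.2 (hN.YX hh)
    have a2 : g ∉ Z := fun hh => h.2 (hZX hh)
    unfold lv
    rw [if_neg h.2, if_neg a1, if_neg a2]
    split_ifs <;> norm_num
  · have a1 : M - g ∉ Y := fun hh => h.2.2 (hN.YX hh)
    have a2 : M - g ∉ Z := fun hh => h.2.2 (hZX hh)
    unfold lv
    rw [if_neg h.2.2, if_neg a1, if_neg a2]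
    split_ifs <;> norm_num
  · have a1 : g ∉ Y := fun hh => h.2.2 (hN.YX hh)
    have a2 : g ∉ Z := fun hh => h.2.2 (hZX hh)
    unfold lv
    rw [if_neg h.2.2, if_neg a1, if_neg a2]
    split_ifs <;> norm_num
  · have a1 : g ∉ Z := fun hh => h.2.1 (hN.ZY hh)
    have a2 : M - g ∉ Z := fun hh => h.2.2.2 (hN.ZY hh)
    unfold lv
    rw [if_pos h.1, if_neg h.2.1, if_neg a1, if_pos h.2.2.1, if_neg h.2.2.2, if_neg a2]
    norm_num
  · have a1 : M - g ∉ Y := fun hh => h.2.2 (hN.YX hh)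
    have a2 : M - g ∉ Z := fun hh => h.2.2 (hZX hh)
    unfold lv
    rw [if_neg h.2.2, if_neg a1, if_neg a2]
    split_ifs <;> norm_num
  · have a1 : g ∉ Y := fun hh => h.2.2 (hN.YX hh)
    have a2 : g ∉ Z := fun hh => h.2.2 (hZX hh)
    unfold lv
    rw [if_neg h.2.2, if_neg a1, if_neg a2]
    split_ifs <;> norm_num
  · have a1 : g ∉ Y := fun hh => h.1 (hN.YX hh)
    have a2 : g ∉ Z := fun hh => h.1 (hZX hh)
    have a3 : M - g ∉ Y := fun hh => h.2 (hN.YX hh)
    have a4 : M - g ∉ Z := fun hh => h.2 (hZX hh)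
    unfold lv
    rw [if_neg h.1, if_neg a1, if_neg a2, if_neg h.2, if_neg a3, if_neg a4]
    norm_num

theorem Uz_nonneg (hN : Nest M X Y Z) {U0 : ℤ} (hU0 : 0 ≤ U0) {h g : ℕ} (hM : 2 * h < M)
    (hg : g ≤ h + 1) : 0 ≤ Uz M X Y Z U0 g := by
  unfold Uz
  refine add_nonneg hU0 (Finset.sum_nonneg fun x hx => ?_)
  have hx' := Finset.mem_Ico.1 hx
  have := lv_pair hN (g := x) (by omega)
  linarith

/-- The cost is monotone. -/
theorem Cz_mono (hN : Nest M X Y Z) {c U0 : ℤ} (hc : 0 ≤ c) (hU0 : 0 ≤ U0) {h : ℕ}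
    (hM : 2 * h < M) {g g' : ℕ} (hg : 1 ≤ g) (hgg : g ≤ g') (hg' : g' ≤ h + 1) :
    Cz M X Y Z c U0 g ≤ Cz M X Y Z c U0 g' := by
  induction g' with
  | zero => omega
  | succ n ih =>
    rcases Nat.lt_or_ge n g with h1 | h1
    · have : g = n + 1 := by omega
      rw [this]
    · refine le_trans (ih h1 (by omega)) ?_
      have hn : 1 ≤ n := by omega
      have h2 := lv_pair hN (g := n) (by omega)
      have h3 := Uz_nonneg hN hU0 hM (show n ≤ h + 1 by omega)
      have h4 : (2 : ℤ) * n < M := by exact_mod_cast (by omega : 2 * n < M)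
      have h5 : (0 : ℤ) ≤ n := Int.natCast_nonneg n
      unfold Cz
      rw [Lz_succ hn, Uz_succ hn]
      obtain ⟨p1, p2, p3⟩ := h2
      generalize lv X Y Z n = k at *
      generalize lv X Y Z (M - n) = l at *
      generalize Uz M X Y Z U0 n = U at *
      have q1 : 0 ≤ 3 * ((M : ℤ) - n) - k * (M - n) - l * n := by nlinarith
      have q2 : 0 ≤ 6 - 2 * k - 2 * l := by linarith
      nlinarith

theorem cost_step {c U0 C U k l : ℤ} {g : ℕ} (hg : 1 ≤ g) (hC : C = Cz M X Y Z c U0 g)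
    (hU : U = Uz M X Y Z U0 g) (hk : lv X Y Z g = k) (hl : lv X Y Z (M - g) = l) :
    Cz M X Y Z c U0 (g + 1) = C + 54 * (3 * (M - g) - k * (M - g) - l * g) +
      c * (6 - 2 * k - 2 * l) + 32 * U * (6 - 2 * k - 2 * l) + 16 * (6 - 2 * k - 2 * l) ^ 2 := by
  unfold Cz at hC ⊢
  rw [Lz_succ hg, Uz_succ hg, hk, hl, ← hU]
  rw [← hU] at hC
  linear_combination (-1 : ℤ) * hC

theorem U_step {U0 U k l : ℤ} {g : ℕ} (hg : 1 ≤ g)
    (hU : U = Uz M X Y Z U0 g) (hk : lv X Y Z g = k) (hl : lv X Y Z (M - g) = l) :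
    Uz M X Y Z U0 (g + 1) = U + (6 - 2 * k - 2 * l) := by
  rw [Uz_succ hg, hk, hl, ← hU]

theorem lv0 (hN : Nest M X Y Z) {g : ℕ} (h : g ∉ X) : lv X Y Z g = 0 := by
  have a1 : g ∉ Y := fun hh => h (hN.YX hh)
  have a2 : g ∉ Z := fun hh => a1 (hN.ZY hh)
  unfold lv
  rw [if_neg h, if_neg a1, if_neg a2]; norm_num

theorem lv1 (hN : Nest M X Y Z) {g : ℕ} (h : g ∈ X) (h' : g ∉ Y) : lv X Y Z g = 1 := by
  have a2 : g ∉ Z := fun hh => h' (hN.ZY hh)
  unfold lv
  rw [if_pos h, if_neg h', if_neg a2]; norm_num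

theorem lv2 (hN : Nest M X Y Z) {g : ℕ} (h : g ∈ Y) (h' : g ∉ Z) : lv X Y Z g = 2 := by
  unfold lv
  rw [if_pos (hN.YX h), if_pos h, if_neg h']; norm_num

theorem lv3 (hN : Nest M X Y Z) {g : ℕ} (h : g ∈ Z) : lv X Y Z g = 3 := by
  unfold lv
  rw [if_pos (hN.YX (hN.ZY h)), if_pos (hN.ZY h), if_pos h]; norm_num

/-- **Soundness of the search.** -/
theorem srch_sound (hN : Nest M X Y Z) {K c h : ℕ} {U0 : ℤ} (hU0 : 0 ≤ U0) (hM : 2 * h < M)
    {leaf : ℕ → ℕ → ℕ → ℕ → ℕ → ℕ → Bool} (n : ℕ) :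
    ∀ g C U A1 A2 A3 R1 R2 R3 : ℕ, g + n = h + 1 → 1 ≤ g → (C : ℤ) = Cz M X Y Z c U0 g →
      (U : ℤ) = Uz M X Y Z U0 g → MaskOK X M g A1 → MaskOK Y M g A2 → MaskOK Z M g A3 →
      MaskOK (rev M X) M g R1 → MaskOK (rev M Y) M g R2 → MaskOK (rev M Z) M g R3 →
      srch M K c leaf n g C U A1 A2 A3 R1 R2 R3 = true →
      (K : ℤ) < Cz M X Y Z c U0 (h + 1) ∨
        ∃ C U A1 A2 A3 R3, leaf C U A1 A2 A3 R3 = true ∧ (C : ℤ) = Cz M X Y Z c U0 (h + 1) ∧
          (U : ℤ) = Uz M X Y Z U0 (h + 1) ∧ MaskOK X M (h + 1) A1 ∧ MaskOK Y M (h + 1) A2 ∧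
          MaskOK Z M (h + 1) A3 ∧ MaskOK (rev M Z) M (h + 1) R3 := by
  induction n with
  | zero =>
    intro g C U A1 A2 A3 R1 R2 R3 hg _ hC hU m1 m2 m3 _ _ r3 hs
    have hgh : g = h + 1 := by omega
    subst hgh
    exact Or.inr ⟨C, U, A1, A2, A3, R3, hs, hC, hU, m1, m2, m3, r3⟩
  | succ n ih =>
    intro g C U A1 A2 A3 R1 R2 R3 hg hg1 hC hU m1 m2 m3 r1 r2 r3 hs
    have hg2 : 2 * g < M := by omega
    have hgM : g ≤ M := by omega
    have adv : ∀ C' U' B1 B2 B3 S1 S2 S3 : ℕ, (C' : ℤ) = Cz M X Y Z c U0 (g + 1) →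
        (U' : ℤ) = Uz M X Y Z U0 (g + 1) → MaskOK X M (g + 1) B1 → MaskOK Y M (g + 1) B2 →
        MaskOK Z M (g + 1) B3 → MaskOK (rev M X) M (g + 1) S1 → MaskOK (rev M Y) M (g + 1) S2 →
        MaskOK (rev M Z) M (g + 1) S3 →
        (C' ≤ K → srch M K c leaf n (g + 1) C' U' B1 B2 B3 S1 S2 S3 = true) →
        (K : ℤ) < Cz M X Y Z c U0 (h + 1) ∨
        ∃ C U A1 A2 A3 R3, leaf C U A1 A2 A3 R3 = true ∧ (C : ℤ) = Cz M X Y Z c U0 (h + 1) ∧
          (U : ℤ) = Uz M X Y Z U0 (h + 1) ∧ MaskOK X M (h + 1) A1 ∧ MaskOK Y M (h + 1) A2 ∧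
          MaskOK Z M (h + 1) A3 ∧ MaskOK (rev M Z) M (h + 1) R3 := by
      intro C' U' B1 B2 B3 S1 S2 S3 hC' hU' n1 n2 n3 q1 q2 q3 hsr
      by_cases hCK : C' ≤ K
      · exact ih (g + 1) C' U' B1 B2 B3 S1 S2 S3 (by omega) (by omega) hC' hU' n1 n2 n3 q1 q2 q3
          (hsr hCK)
      · left
        have h1 := Cz_mono hN (c := (c : ℤ)) (Int.natCast_nonneg c) hU0 hM (g := g + 1)
          (g' := h + 1) (by omega) (by omega) le_rfl
        have h2 : (K : ℤ) < C' := by exact_mod_cast (by omega : K < C')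
        linarith
    rw [srch_succ] at hs
    obtain ⟨s30, s03, s20, s02, s11, s10, s01, s00⟩ := hs
    rw [br3_iff] at s30 s03
    rw [br2_iff] at s20 s02
    rw [br11_iff] at s11
    rw [br1_iff] at s10 s01
    rw [br0_iff] at s00
    have cMg : ((M - g : ℕ) : ℤ) = M - g := by omega
    rcases states hN hg2 with hst | hst | hst | hst | hst | hst | hst | hst
    · -- (3,0)
      obtain ⟨gZ, hX⟩ := hst
      have gY := hN.ZY gZ
      have gX := hN.YX gY
      have hY : M - g ∉ Y := fun hh => hX (hN.YX hh)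
      have hZ : M - g ∉ Z := fun hh => hY (hN.ZY hh)
      have e1 := m1.low gX hX
      have e2 := m2.low gY hY
      have e3 := m3.low gZ hZ
      have f1 := r1.high (by rwa [mem_rev hgM]) (by rwa [mem_rev' hgM]) hgM
      have f2 := r2.high (by rwa [mem_rev hgM]) (by rwa [mem_rev' hgM]) hgM
      have f3 := r3.high (by rwa [mem_rev hgM]) (by rwa [mem_rev' hgM]) hgM
      have k1 := lv3 hN gZ
      have k2 := lv0 hN hX
      refine adv C U _ _ _ _ _ _ ?_ ?_ e1 e2 e3 f1 f2 f3 (fun hK => s30 hK ?_)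
      · rw [cost_step hg1 hC hU k1 k2]; ring
      · rw [U_step hg1 hU k1 k2]; ring
      · exact miss_ok e1 f2 (fun s hs t ht => by
          have := hN.free s hs t ht g gZ
          omega)
    · -- (0,3)
      obtain ⟨hZ, gX⟩ := hst
      have hY := hN.ZY hZ
      have hX := hN.YX hY
      have gY : g ∉ Y := fun hh => gX (hN.YX hh)
      have gZ : g ∉ Z := fun hh => gY (hN.ZY hh)
      have e1 := m1.high gX hX hgM
      have e2 := m2.high gY hY hgM
      have e3 := m3.high gZ hZ hgM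
      have f1 := r1.low (by rwa [mem_rev hgM]) (by rwa [mem_rev' hgM])
      have f2 := r2.low (by rwa [mem_rev hgM]) (by rwa [mem_rev' hgM])
      have f3 := r3.low (by rwa [mem_rev hgM]) (by rwa [mem_rev' hgM])
      have k1 := lv0 hN gX
      have k2 := lv3 hN hZ
      refine adv (C + 162 * (M - g - g)) U _ _ _ _ _ _ ?_ ?_ e1 e2 e3 f1 f2 f3
        (fun hK => s03 hK ?_)
      · rw [cost_step hg1 hC hU k1 k2]
        have : ((M - g - g : ℕ) : ℤ) = M - g - g := by omega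
        push_cast [this]; ring
      · rw [U_step hg1 hU k1 k2]; ring
      · exact miss_ok e1 f2 (fun s hs t ht => by
          have := hN.free s hs t ht (M - g) hZ
          omega)
    · -- (2,0)
      obtain ⟨gY, gZ, hX⟩ := hst
      have gX := hN.YX gY
      have hY : M - g ∉ Y := fun hh => hX (hN.YX hh)
      have hZ : M - g ∉ Z := fun hh => hY (hN.ZY hh)
      have e1 := m1.low gX hX
      have e2 := m2.low gY hY
      have e3 := m3.none gZ hZ
      have f1 := r1.high (by rwa [mem_rev hgM]) (by rwa [mem_rev' hgM]) hgM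
      have f2 := r2.high (by rwa [mem_rev hgM]) (by rwa [mem_rev' hgM]) hgM
      have f3 := r3.none (by rwa [mem_rev hgM]) (by rwa [mem_rev' hgM])
      have k1 := lv2 hN gY gZ
      have k2 := lv0 hN hX
      refine adv (C + (54 * (M - g) + (2 * c + (64 * U + 64)))) (U + 2) _ _ _ _ _ _ ?_ ?_
        e1 e2 e3 f1 f2 f3 (fun hK => s20 hK ?_)
      · rw [cost_step hg1 hC hU k1 k2]; push_cast [cMg]; ring
      · rw [U_step hg1 hU k1 k2]; push_cast; ring
      · exact miss_ok e1 f3 (fun s hs t ht => by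
          have := hN.free s hs g gY t ht
          omega)
    · -- (0,2)
      obtain ⟨hY, hZ, gX⟩ := hst
      have hX := hN.YX hY
      have gY : g ∉ Y := fun hh => gX (hN.YX hh)
      have gZ : g ∉ Z := fun hh => gY (hN.ZY hh)
      have e1 := m1.high gX hX hgM
      have e2 := m2.high gY hY hgM
      have e3 := m3.none gZ hZ
      have f1 := r1.low (by rwa [mem_rev hgM]) (by rwa [mem_rev' hgM])
      have f2 := r2.low (by rwa [mem_rev hgM]) (by rwa [mem_rev' hgM])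
      have f3 := r3.none (by rwa [mem_rev hgM]) (by rwa [mem_rev' hgM])
      have k1 := lv0 hN gX
      have k2 := lv2 hN hY hZ
      refine adv (C + (54 * (3 * (M - g) - 2 * g) + (2 * c + (64 * U + 64)))) (U + 2) _ _ _ _ _ _
        ?_ ?_ e1 e2 e3 f1 f2 f3 (fun hK => s02 hK ?_)
      · rw [cost_step hg1 hC hU k1 k2]
        have : ((3 * (M - g) - 2 * g : ℕ) : ℤ) = 3 * (M - g) - 2 * g := by omega
        push_cast [this]; ring
      · rw [U_step hg1 hU k1 k2]; push_cast; ring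
      · exact miss_ok e1 f3 (fun s hs t ht => by
          have := hN.free s hs (M - g) hY t ht
          omega)
    · -- (1,1)
      obtain ⟨gX, gY, hX, hY⟩ := hst
      have gZ : g ∉ Z := fun hh => gY (hN.ZY hh)
      have hZ : M - g ∉ Z := fun hh => hY (hN.ZY hh)
      have e1 := m1.both gX hX hgM
      have e2 := m2.none gY hY
      have e3 := m3.none gZ hZ
      have f1 := r1.both' (by rwa [mem_rev hgM]) (by rwa [mem_rev' hgM]) hgM
      have f2 := r2.none (by rwa [mem_rev hgM]) (by rwa [mem_rev' hgM])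
      have f3 := r3.none (by rwa [mem_rev hgM]) (by rwa [mem_rev' hgM])
      have k1 := lv1 hN gX gY
      have k2 := lv1 hN hX hY
      refine adv (C + (54 * (2 * (M - g) - g) + (2 * c + (64 * U + 64)))) (U + 2) _ _ _ _ _ _
        ?_ ?_ e1 e2 e3 f1 f2 f3 (fun hK => s11 hK ?_ ?_)
      · rw [cost_step hg1 hC hU k1 k2]
        have : ((2 * (M - g) - g : ℕ) : ℤ) = 2 * (M - g) - g := by omega
        push_cast [this]; ring
      · rw [U_step hg1 hU k1 k2]; push_cast; ring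
      · exact miss_ok m2 r3 (fun s hs t ht => by
          have := hN.free g gX s hs t ht
          omega)
      · exact miss_ok m2 r3 (fun s hs t ht => by
          have := hN.free (M - g) hX s hs t ht
          omega)
    · -- (1,0)
      obtain ⟨gX, gY, hX⟩ := hst
      have gZ : g ∉ Z := fun hh => gY (hN.ZY hh)
      have hY : M - g ∉ Y := fun hh => hX (hN.YX hh)
      have hZ : M - g ∉ Z := fun hh => hY (hN.ZY hh)
      have e1 := m1.low gX hX
      have e2 := m2.none gY hY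
      have e3 := m3.none gZ hZ
      have f1 := r1.high (by rwa [mem_rev hgM]) (by rwa [mem_rev' hgM]) hgM
      have f2 := r2.none (by rwa [mem_rev hgM]) (by rwa [mem_rev' hgM])
      have f3 := r3.none (by rwa [mem_rev hgM]) (by rwa [mem_rev' hgM])
      have k1 := lv1 hN gX gY
      have k2 := lv0 hN hX
      refine adv (C + (108 * (M - g) + (4 * c + (128 * U + 256)))) (U + 4) _ _ _ _ _ _ ?_ ?_
        e1 e2 e3 f1 f2 f3 (fun hK => s10 hK ?_)
      · rw [cost_step hg1 hC hU k1 k2]; push_cast [cMg]; ring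
      · rw [U_step hg1 hU k1 k2]; push_cast; ring
      · exact miss_ok m2 r3 (fun s hs t ht => by
          have := hN.free g gX s hs t ht
          omega)
    · -- (0,1)
      obtain ⟨hX, hY, gX⟩ := hst
      have gY : g ∉ Y := fun hh => gX (hN.YX hh)
      have gZ : g ∉ Z := fun hh => gY (hN.ZY hh)
      have hZ : M - g ∉ Z := fun hh => hY (hN.ZY hh)
      have e1 := m1.high gX hX hgM
      have e2 := m2.none gY hY
      have e3 := m3.none gZ hZ
      have f1 := r1.low (by rwa [mem_rev hgM]) (by rwa [mem_rev' hgM])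
      have f2 := r2.none (by rwa [mem_rev hgM]) (by rwa [mem_rev' hgM])
      have f3 := r3.none (by rwa [mem_rev hgM]) (by rwa [mem_rev' hgM])
      have k1 := lv0 hN gX
      have k2 := lv1 hN hX hY
      refine adv (C + (54 * (3 * (M - g) - g) + (4 * c + (128 * U + 256)))) (U + 4) _ _ _ _ _ _
        ?_ ?_ e1 e2 e3 f1 f2 f3 (fun hK => s01 hK ?_)
      · rw [cost_step hg1 hC hU k1 k2]
        have : ((3 * (M - g) - g : ℕ) : ℤ) = 3 * (M - g) - g := by omega
        push_cast [this]; ring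
      · rw [U_step hg1 hU k1 k2]; push_cast; ring
      · exact miss_ok m2 r3 (fun s hs t ht => by
          have := hN.free (M - g) hX s hs t ht
          omega)
    · -- (0,0)
      obtain ⟨gX, hX⟩ := hst
      have gY : g ∉ Y := fun hh => gX (hN.YX hh)
      have gZ : g ∉ Z := fun hh => gY (hN.ZY hh)
      have hY : M - g ∉ Y := fun hh => hX (hN.YX hh)
      have hZ : M - g ∉ Z := fun hh => hY (hN.ZY hh)
      have e1 := m1.none gX hX
      have e2 := m2.none gY hY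
      have e3 := m3.none gZ hZ
      have f1 := r1.none (by rwa [mem_rev hgM]) (by rwa [mem_rev' hgM])
      have f2 := r2.none (by rwa [mem_rev hgM]) (by rwa [mem_rev' hgM])
      have f3 := r3.none (by rwa [mem_rev hgM]) (by rwa [mem_rev' hgM])
      have k1 := lv0 hN gX
      have k2 := lv0 hN hX
      refine adv (C + (162 * (M - g) + (6 * c + (192 * U + 576)))) (U + 6) _ _ _ _ _ _ ?_ ?_
        e1 e2 e3 f1 f2 f3 (fun hK => s00 hK)
      · rw [cost_step hg1 hC hU k1 k2]; push_cast [cMg]; ring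
      · rw [U_step hg1 hU k1 k2]; push_cast; ring

/-! ### The moments in terms of the pairs -/

theorem sum_eq_lv (hN : Nest M X Y Z) (w : ℕ → ℤ) :
    ∑ r ∈ X, w r + ∑ r ∈ Y, w r + ∑ r ∈ Z, w r =
      ∑ g ∈ Finset.range (M + 1), lv X Y Z g * w g := by
  have hY : ∀ x ∈ Y, x ≤ M := fun x hx => hN.le x (hN.YX hx)
  have hZ : ∀ x ∈ Z, x ≤ M := fun x hx => hY x (hN.ZY hx)
  have h1 : ∀ S : Finset ℕ, (∀ x ∈ S, x ≤ M) →
      ∑ r ∈ S, w r = ∑ g ∈ Finset.range (M + 1), (if g ∈ S then 1 else 0) * w g := by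
    intro S hS
    have : ∀ g, (if g ∈ S then (1 : ℤ) else 0) * w g = if g ∈ S then w g else 0 := by
      intro g; split_ifs <;> ring
    rw [Finset.sum_congr rfl fun g _ => this g, ← Finset.sum_filter]
    refine Finset.sum_congr ?_ fun _ _ => rfl
    ext x
    rw [Finset.mem_filter, Finset.mem_range]
    constructor
    · intro hx; have := hS x hx; exact ⟨by omega, hx⟩
    · intro hx; exact hx.2
  rw [h1 X hN.le, h1 Y hY, h1 Z hZ, ← Finset.sum_add_distrib, ← Finset.sum_add_distrib]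
  refine Finset.sum_congr rfl fun g _ => ?_
  unfold lv
  ring

theorem sum_pairs_odd (F : ℕ → ℤ) (h : ℕ) : ∑ g ∈ Finset.range (2 * h + 2), F g =
    ∑ x ∈ Finset.range (h + 1), (F x + F (2 * h + 1 - x)) := by
  rw [show 2 * h + 2 = (h + 1) + (h + 1) by ring, Finset.sum_range_add, Finset.sum_add_distrib]
  congr 1
  rw [← Finset.sum_range_reflect]
  refine Finset.sum_congr rfl fun x hx => ?_
  have := Finset.mem_range.1 hx
  congr 1
  omega

theorem sum_pairs_even (F : ℕ → ℤ) (h : ℕ) : ∑ g ∈ Finset.range (2 * h + 3), F g =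
    ∑ x ∈ Finset.range (h + 1), (F x + F (2 * h + 2 - x)) + F (h + 1) := by
  rw [show 2 * h + 3 = (h + 1) + (1 + (h + 1)) by ring, Finset.sum_range_add,
    Finset.sum_range_add (fun x => F (h + 1 + x)) 1 (h + 1), Finset.sum_add_distrib]
  have e1 : ∑ x ∈ Finset.range 1, F (h + 1 + x) = F (h + 1) := by simp
  have e2 : ∑ x ∈ Finset.range (h + 1), F (h + 1 + (1 + x)) =
      ∑ x ∈ Finset.range (h + 1), F (2 * h + 2 - x) := by
    rw [← Finset.sum_range_reflect]
    refine Finset.sum_congr rfl fun x hx => ?_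
    have := Finset.mem_range.1 hx
    congr 1
    omega
  rw [e1, e2]
  ring

theorem range_Ico (F : ℕ → ℤ) (h : ℕ) :
    ∑ x ∈ Finset.range (h + 1), F x = F 0 + ∑ x ∈ Finset.Ico 1 (h + 1), F x := by
  rw [Finset.range_eq_Ico, Finset.sum_eq_sum_Ico_succ_bot (by omega)]

theorem sum_three (M : ℤ) (h : ℕ) :
    2 * ∑ x ∈ Finset.Ico 1 (h + 1), (3 * (M - x)) = 3 * (h * (2 * M - h - 1)) := by
  induction h with
  | zero => simp
  | succ h ih =>
    rw [Finset.sum_Ico_succ_top (by omega), mul_add, ih]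
    push_cast
    ring

theorem M_notMem (hN : Nest M X Y Z) : M ∉ X := by
  intro h
  exact hN.free M h 0 (hN.ZY hN.zero) 0 hN.zero (by omega)

theorem init_mask (hN : Nest M X Y Z) {S : Finset ℕ} (h0 : 0 ∈ S) (hS : S ⊆ X) :
    MaskOK S M 1 1 := by
  intro y
  rw [Nat.testBit_one_eq_true_iff_self_eq_zero]
  constructor
  · rintro rfl; exact ⟨h0, by omega⟩
  · rintro ⟨hy, h⟩
    rcases h with h | h
    · omega
    · exfalso
      have h1 := hN.le y (hS hy)
      have : y = M := by omega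
      exact M_notMem hN (this ▸ hS hy)

theorem init_rev (hN : Nest M X Y Z) (hM : 0 < M) {S : Finset ℕ} (h0 : 0 ∈ S) (hS : S ⊆ X) :
    MaskOK (rev M S) M 1 (2 ^ M) := by
  intro y
  rw [Nat.testBit_two_pow, decide_eq_true_eq]
  constructor
  · rintro rfl
    rw [mem_rev le_rfl, Nat.sub_self]
    exact ⟨h0, by omega⟩
  · rintro ⟨hy, h⟩
    have hyM : y ≤ M := by
      unfold rev at hy
      rw [Finset.mem_filter, Finset.mem_range] at hy
      omega
    rcases h with h | h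
    · exfalso
      have : y = 0 := by omega
      rw [this, mem_rev (by omega), Nat.sub_zero] at hy
      exact M_notMem hN (hS hy)
    · omega

/-- The moments for odd `M`. -/
theorem odd_eq {h : ℕ} (hN : Nest (2 * h + 1) X Y Z) :
    U2 (2 * h + 1) X Y Z = Uz (2 * h + 1) X Y Z 0 (h + 1) ∧
    2 * Q1 (2 * h + 1) X Y Z = 6 * (2 * h + 1) + 3 * (h * (3 * h + 1)) -
      2 * Lz (2 * h + 1) X Y Z (h + 1) := by
  have h0 : lv X Y Z 0 = 3 := lv3 hN hN.zero
  have hM : lv X Y Z (2 * h + 1) = 0 := lv0 hN (M_notMem hN)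
  constructor
  · have h1 := sum_eq_lv hN (fun _ => 1)
    rw [sum_pairs_odd, range_Ico] at h1
    simp only [Nat.sub_zero, h0, hM, Finset.sum_const, mul_one] at h1
    simp only [smul_eq_mul, nsmul_eq_mul, mul_one] at h1
    unfold U2 Uz
    rw [show (2 * (X.card + Y.card + Z.card : ℤ)) = 2 * (X.card + Y.card + Z.card : ℤ) from rfl, h1]
    have h2 : ∑ x ∈ Finset.Ico 1 (h + 1), (6 - 2 * lv X Y Z x - 2 * lv X Y Z (2 * h + 1 - x)) =
        6 * h - 2 * ∑ x ∈ Finset.Ico 1 (h + 1), (lv X Y Z x + lv X Y Z (2 * h + 1 - x)) := by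
      rw [Finset.mul_sum]
      have : (6 * h : ℤ) = ∑ x ∈ Finset.Ico 1 (h + 1), 6 := by
        rw [Finset.sum_const, Nat.card_Ico]; simp; ring
      rw [this, ← Finset.sum_sub_distrib]
      refine Finset.sum_congr rfl fun x _ => ?_
      ring
    rw [h2]
    push_cast
    ring
  · have h1 := sum_eq_lv hN (fun r => ((2 * h + 1 : ℕ) : ℤ) - r)
    rw [sum_pairs_odd, range_Ico] at h1
    simp only [Nat.sub_zero, h0, hM] at h1
    unfold Q1 Lz
    rw [h1]
    have h3 := sum_three (2 * h + 1) h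
    have h2 : ∑ x ∈ Finset.Ico 1 (h + 1), (lv X Y Z x * (((2 * h + 1 : ℕ) : ℤ) - x) +
        lv X Y Z (2 * h + 1 - x) * (((2 * h + 1 : ℕ) : ℤ) - ((2 * h + 1 - x : ℕ) : ℤ))) =
        ∑ x ∈ Finset.Ico 1 (h + 1), (3 * ((2 * h + 1 : ℤ) - x)) -
        ∑ x ∈ Finset.Ico 1 (h + 1), (3 * (((2 * h + 1 : ℕ) : ℤ) - x) -
          lv X Y Z x * (((2 * h + 1 : ℕ) : ℤ) - x) - lv X Y Z (2 * h + 1 - x) * x) := by
      rw [← Finset.sum_sub_distrib]
      refine Finset.sum_congr rfl fun x hx => ?_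
      have hx' := Finset.mem_Ico.1 hx
      have : ((2 * h + 1 - x : ℕ) : ℤ) = 2 * h + 1 - x := by omega
      rw [this]
      push_cast
      ring
    rw [h2]
    push_cast at h3 ⊢
    linarith

/-- The moments for even `M`. -/
theorem even_eq {h : ℕ} (hN : Nest (2 * h + 2) X Y Z) :
    U2 (2 * h + 2) X Y Z = Uz (2 * h + 2) X Y Z 1 (h + 1) + 2 - 2 * lv X Y Z (h + 1) ∧
    2 * Q1 (2 * h + 2) X Y Z = 6 * (2 * h + 2) + 3 * (h * (3 * h + 3)) -
      2 * Lz (2 * h + 2) X Y Z (h + 1) + 2 * lv X Y Z (h + 1) * (h + 1) := by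
  have h0 : lv X Y Z 0 = 3 := lv3 hN hN.zero
  have hM : lv X Y Z (2 * h + 2) = 0 := lv0 hN (M_notMem hN)
  constructor
  · have h1 := sum_eq_lv hN (fun _ => 1)
    rw [sum_pairs_even, range_Ico] at h1
    simp only [Nat.sub_zero, h0, hM, Finset.sum_const, mul_one] at h1
    simp only [smul_eq_mul, nsmul_eq_mul, mul_one] at h1
    unfold U2 Uz
    rw [h1]
    have h2 : ∑ x ∈ Finset.Ico 1 (h + 1), (6 - 2 * lv X Y Z x - 2 * lv X Y Z (2 * h + 2 - x)) =
        6 * h - 2 * ∑ x ∈ Finset.Ico 1 (h + 1), (lv X Y Z x + lv X Y Z (2 * h + 2 - x)) := by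
      rw [Finset.mul_sum]
      have : (6 * h : ℤ) = ∑ x ∈ Finset.Ico 1 (h + 1), 6 := by
        rw [Finset.sum_const, Nat.card_Ico]; simp; ring
      rw [this, ← Finset.sum_sub_distrib]
      refine Finset.sum_congr rfl fun x _ => ?_
      ring
    rw [h2]
    push_cast
    ring
  · have h1 := sum_eq_lv hN (fun r => ((2 * h + 2 : ℕ) : ℤ) - r)
    rw [sum_pairs_even, range_Ico] at h1
    simp only [Nat.sub_zero, h0, hM] at h1
    unfold Q1 Lz
    rw [h1]
    have h3 := sum_three (2 * h + 2) h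
    have h2 : ∑ x ∈ Finset.Ico 1 (h + 1), (lv X Y Z x * (((2 * h + 2 : ℕ) : ℤ) - x) +
        lv X Y Z (2 * h + 2 - x) * (((2 * h + 2 : ℕ) : ℤ) - ((2 * h + 2 - x : ℕ) : ℤ))) =
        ∑ x ∈ Finset.Ico 1 (h + 1), (3 * ((2 * h + 2 : ℤ) - x)) -
        ∑ x ∈ Finset.Ico 1 (h + 1), (3 * (((2 * h + 2 : ℕ) : ℤ) - x) -
          lv X Y Z x * (((2 * h + 2 : ℕ) : ℤ) - x) - lv X Y Z (2 * h + 2 - x) * x) := by
      rw [← Finset.sum_sub_distrib]
      refine Finset.sum_congr rfl fun x hx => ?_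
      have hx' := Finset.mem_Ico.1 hx
      have : ((2 * h + 2 - x : ℕ) : ℤ) = 2 * h + 2 - x := by omega
      rw [this]
      push_cast
      ring
    rw [h2]
    push_cast at h3 ⊢
    linarith

/-! ### The conclusions -/

theorem init_sound (hN : Nest M X Y Z) {K c h : ℕ} {U0 : ℕ} (hM : 2 * h < M)
    {leaf : ℕ → ℕ → ℕ → ℕ → ℕ → ℕ → Bool}
    (hs : srch M K c leaf h 1 (c * U0 + 16 * U0 ^ 2) U0 1 1 1 (2 ^ M) (2 ^ M) (2 ^ M) = true) :
    (K : ℤ) < Cz M X Y Z c U0 (h + 1) ∨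
        ∃ C U A1 A2 A3 R3, leaf C U A1 A2 A3 R3 = true ∧ (C : ℤ) = Cz M X Y Z c U0 (h + 1) ∧
          (U : ℤ) = Uz M X Y Z U0 (h + 1) ∧ MaskOK X M (h + 1) A1 ∧ MaskOK Y M (h + 1) A2 ∧
          MaskOK Z M (h + 1) A3 ∧ MaskOK (rev M Z) M (h + 1) R3 := by
  have h0Y := hN.ZY hN.zero
  have h0X := hN.YX h0Y
  refine srch_sound hN (Int.natCast_nonneg U0) hM h 1 _ _ _ _ _ _ _ _ (by omega) le_rfl ?_ ?_
    (init_mask hN h0X (Finset.Subset.refl X)) (init_mask hN h0Y hN.YX)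
    (init_mask hN hN.zero (fun x hx => hN.YX (hN.ZY hx)))
    (init_rev hN (by omega) h0X (Finset.Subset.refl X)) (init_rev hN (by omega) h0Y hN.YX)
    (init_rev hN (by omega) hN.zero (fun x hx => hN.YX (hN.ZY hx))) hs
  · unfold Cz Lz Uz
    rw [Finset.Ico_self, Finset.sum_empty, Finset.sum_empty]
    push_cast
    ring
  · unfold Uz
    rw [Finset.Ico_self, Finset.sum_empty]
    push_cast
    ring

/-- The searches for odd `M ≥ 13`. -/
theorem t2_odd {h K c lo : ℕ} (hK : 27 * (6 * (2 * h + 1) + 3 * (h * (3 * h + 1))) ≤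
      K + (34 * (2 * h + 1) ^ 2 + 92 * (2 * h + 1) + 112)) (hc : c = 14 * (2 * h + 1) + 92)
    (hlo : ∀ x ≤ h, x % 2 = 1 → lo.testBit x = true)
    (hs : srch (2 * h + 1) K c (leafO lo) h 1 0 0 1 1 1 (2 ^ (2 * h + 1)) (2 ^ (2 * h + 1))
      (2 ^ (2 * h + 1)) = true) (X Y Z : Finset ℕ) (hN : Nest (2 * h + 1) X Y Z)
    (hfar : ∃ x ∈ X, x % 2 = 1 ∧ 2 * x < 2 * h + 1) : T2 (2 * h + 1) X Y Z := by
  obtain ⟨e1, e2⟩ := odd_eq hN
  have hcost : ∀ K' : ℤ, 27 * (6 * (2 * h + 1) + 3 * (h * (3 * h + 1))) ≤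
      K' + (34 * (2 * h + 1) ^ 2 + 92 * (2 * h + 1) + 112) →
      K' < Cz (2 * h + 1) X Y Z c (0 : ℕ) (h + 1) → T2 (2 * h + 1) X Y Z := by
    intro K' hK' hlt
    unfold T2
    unfold Cz at hlt
    rw [hc] at hlt
    rw [e1]
    push_cast at hlt e2 ⊢
    linarith
  have hK' : (27 * (6 * (2 * h + 1) + 3 * (h * (3 * h + 1))) : ℤ) ≤
      K + (34 * (2 * h + 1) ^ 2 + 92 * (2 * h + 1) + 112) := by exact_mod_cast hK
  rcases init_sound hN (h := h) (K := K) (c := c) (U0 := 0) (by omega) (by simpa using hs) with h1 | h1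
  · exact hcost K hK' h1
  · exfalso
    obtain ⟨C, U, A1, A2, A3, R3, hl, _, _, m1, _⟩ := h1
    obtain ⟨x, hx, hx1, hx2⟩ := hfar
    have h2 : A1.testBit x = true := (m1 x).2 ⟨hx, by omega⟩
    have h3 := hlo x (by omega) hx1
    have h4 : Nat.land A1 lo = 0 := by
      unfold leafO at hl
      rwa [Nat.beq_eq] at hl
    have h5 : (Nat.land A1 lo).testBit x = (A1.testBit x && lo.testBit x) := Nat.testBit_and _ _ x
    rw [h4, h2, h3] at h5
    simp at h5

/-- The searches for odd `M ≤ 11`. -/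
theorem t2_small {h K c ev : ℕ} (hK : 27 * (6 * (2 * h + 1) + 3 * (h * (3 * h + 1))) ≤
      K + (34 * (2 * h + 1) ^ 2 + 92 * (2 * h + 1) + 112)) (hc : c = 14 * (2 * h + 1) + 92)
    (hev : ∀ x, ev.testBit x = true ↔ (x < 2 * h + 1 ∧ x % 2 = 0))
    (hs : srch (2 * h + 1) K c (leafS ev) h 1 0 0 1 1 1 (2 ^ (2 * h + 1)) (2 ^ (2 * h + 1))
      (2 ^ (2 * h + 1)) = true) (X Y Z : Finset ℕ) (hN : Nest (2 * h + 1) X Y Z) :
    T2 (2 * h + 1) X Y Z ∨ ((∀ x, x ∈ X ↔ (x < 2 * h + 1 ∧ x % 2 = 0)) ∧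
      ∀ x, x ∈ Z ↔ (x < 2 * h + 1 ∧ x % 2 = 0)) := by
  obtain ⟨e1, e2⟩ := odd_eq hN
  have hcost : ∀ K' : ℤ, 27 * (6 * (2 * h + 1) + 3 * (h * (3 * h + 1))) ≤
      K' + (34 * (2 * h + 1) ^ 2 + 92 * (2 * h + 1) + 112) →
      K' < Cz (2 * h + 1) X Y Z c (0 : ℕ) (h + 1) → T2 (2 * h + 1) X Y Z := by
    intro K' hK' hlt
    unfold T2
    unfold Cz at hlt
    rw [hc] at hlt
    rw [e1]
    push_cast at hlt e2 ⊢
    linarith
  have hK' : (27 * (6 * (2 * h + 1) + 3 * (h * (3 * h + 1))) : ℤ) ≤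
      K + (34 * (2 * h + 1) ^ 2 + 92 * (2 * h + 1) + 112) := by exact_mod_cast hK
  rcases init_sound hN (h := h) (K := K) (c := c) (U0 := 0) (by omega) (by simpa using hs) with h1 | h1
  · exact Or.inl (hcost K hK' h1)
  · right
    obtain ⟨C, U, A1, A2, A3, R3, hl, _, _, m1, _, m3, _⟩ := h1
    unfold leafS at hl
    rw [rec_false, Nat.beq_eq, Nat.beq_eq] at hl
    obtain ⟨l1, l3⟩ := hl
    rw [l1] at m1
    rw [l3] at m3
    constructor
    · intro x
      rw [← hev x, m1 x]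
      constructor
      · intro hx; exact ⟨hx, by omega⟩
      · intro hx; exact hx.1
    · intro x
      rw [← hev x, m3 x]
      constructor
      · intro hx; exact ⟨hx, by omega⟩
      · intro hx; exact hx.1

/-- The searches for even `M`. -/
theorem t2_even {h K c : ℕ}
    (hK : 27 * (6 * (2 * h + 2) + 3 * (h * (3 * h + 3)) + 2 * (h + 1)) ≤
      K + (34 * (2 * h + 2) ^ 2 + 92 * (2 * h + 2) + 112)) (hc : c = 14 * (2 * h + 2) + 92)
    (hs : srch (2 * h + 2) K c (leafE h K c) h 1 (c + 16) 1 1 1 1 (2 ^ (2 * h + 2))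
      (2 ^ (2 * h + 2)) (2 ^ (2 * h + 2)) = true) (X Y Z : Finset ℕ)
    (hN : Nest (2 * h + 2) X Y Z) : T2 (2 * h + 2) X Y Z := by
  obtain ⟨e1, e2⟩ := even_eq hN
  have hK' : (27 * (6 * (2 * h + 2) + 3 * (h * (3 * h + 3)) + 2 * (h + 1)) : ℤ) ≤
      K + (34 * (2 * h + 2) ^ 2 + 92 * (2 * h + 2) + 112) := by exact_mod_cast hK
  -- the middle line
  have hmid : h + 1 ∉ Y := by
    intro hy
    exact hN.free _ (hN.YX hy) _ hy _ hN.zero (by omega)
  have hU0 : 0 ≤ Uz (2 * h + 2) X Y Z (1 : ℕ) (h + 1) :=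
    Uz_nonneg hN (h := h) (by norm_num) (by omega) le_rfl
  have hc' : (c : ℤ) = 14 * (2 * h + 2) + 92 := by exact_mod_cast hc
  by_cases hx : h + 1 ∈ X
  · have hk := lv1 hN hx hmid
    rw [hk] at e1 e2
    have hcost : (K : ℤ) < Cz (2 * h + 2) X Y Z c (1 : ℕ) (h + 1) → T2 (2 * h + 2) X Y Z := by
      intro hlt
      unfold T2
      unfold Cz at hlt
      rw [hc'] at hlt
      rw [e1]
      push_cast at hlt e2 ⊢
      linarith
    rcases init_sound hN (h := h) (K := K) (c := c) (U0 := 1) (by omega) (by simpa using hs) with h1 | h1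
    · exact hcost h1
    · obtain ⟨C, U, A1, A2, A3, R3, hl, hC, hU, m1, m2, m3, r3⟩ := h1
      by_cases hCK : C ≤ K
      · exfalso
        have hmiss : miss A2 (h + 1) R3 = true := miss_ok m2 r3 (fun s hs t ht => by
          have := hN.free (h + 1) hx s hs t ht
          omega)
        have hb : Nat.ble C K = true := by rw [Nat.ble_eq]; exact hCK
        unfold leafE at hl
        rw [hmiss, hb] at hl
        generalize (C + 54 * (h + 1) + 2 * c + 64 * U + 64).ble K = q at hl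
        cases q <;> simp at hl
      · refine hcost ?_
        rw [← hC]
        exact_mod_cast (by omega : K < C)
  · have hk := lv0 hN hx
    rw [hk] at e1 e2
    have hcost : (K : ℤ) < Cz (2 * h + 2) X Y Z c (1 : ℕ) (h + 1) + 54 * (h + 1) + 2 * c +
        64 * Uz (2 * h + 2) X Y Z (1 : ℕ) (h + 1) + 64 → T2 (2 * h + 2) X Y Z := by
      intro hlt
      unfold T2
      unfold Cz at hlt
      rw [hc'] at hlt
      rw [e1]
      push_cast at hlt e2 ⊢
      linarith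
    rcases init_sound hN (h := h) (K := K) (c := c) (U0 := 1) (by omega) (by simpa using hs) with h1 | h1
    · refine hcost ?_
      have : (0 : ℤ) ≤ c := Int.natCast_nonneg c
      have : (0 : ℤ) ≤ h := Int.natCast_nonneg h
      linarith
    · obtain ⟨C, U, A1, A2, A3, R3, hl, hC, hU, m1, m2, m3, r3⟩ := h1
      refine hcost ?_
      rw [← hC, ← hU]
      have hb : ¬ (C + 54 * (h + 1) + 2 * c + 64 * U + 64) ≤ K := by
        intro hcon
        have hb : Nat.ble (C + 54 * (h + 1) + 2 * c + 64 * U + 64) K = true := by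
          rw [Nat.ble_eq]; exact hcon
        unfold leafE at hl
        rw [hb] at hl
        simp at hl
      exact_mod_cast (by omega : K < C + 54 * (h + 1) + 2 * c + 64 * U + 64)

end Search
end Pool.Agent.LibA338c1f
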